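import Pool.Agent.MP_ca1109_lc.Xd.Defs
import Pool.Agent.MP_ca1109_lc.Xp.SP
import Pool.Agent.MP_ca1109_lc.Dnf.B2

/-!
# Row CZ: conditioning of a string on its bits in `L`

* `Cd L c Y`: the outcomes at which the bits of `Y` in `L` are `c`.
* `cond`: the conditional string with fresh bits in `L`.
* `cz`: small bias is preserved; one sample space for all conditions.
-/

namespace Pool.Agent.MP_ca1109_lc.Xd

open Finset Pool.Agent.H66 Pool.Agent.MP_ca1109_lc.Mpg Pool.Agent.MP_ca1109_lc.Agp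
open Pool.Agent.MP_ca1109_lc.Dnf (Cube ch one Term On)
open Pool.Agent.MP_ca1109_lc.Xp (Sp Bias xo Src mv gx)
open Pool.Agent.MP_ca1109_lc.Xl (Tr)

variable {n : ℕ}

/-! ## Averages -/

theorem cz_av_prod {A B : Type} [Fintype A] [Fintype B] (F : A → B → ℂ) :
    av (fun p : A × B => F p.1 p.2) = av fun a => av fun b => F a b := by
  unfold av
  rw [Fintype.sum_prod_type, Fintype.card_prod, ← Finset.sum_div, Nat.cast_mul, div_div,
    mul_comm (Fintype.card A : ℂ)]

theorem cz_av_const {A : Type} [Fintype A] [Nonempty A] (c : ℂ) : av (fun _ : A => c) = c := by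
  unfold av
  have h : (Fintype.card A : ℂ) ≠ 0 := by exact_mod_cast Fintype.card_ne_zero
  rw [sum_const, card_univ, nsmul_eq_mul, mul_div_assoc, mul_comm, div_mul_cancel₀ _ h]

/-- The average of a function of one coordinate. -/
theorem cz_coord {ι : Type} [Fintype ι] [DecidableEq ι] {A : ι → Type} [∀ i, Fintype (A i)]
    [∀ i, Nonempty (A i)] (i : ι) (F : A i → ℂ) : av (fun φ : ∀ j, A j => F (φ i)) = av F := by
  have h1 : av (fun φ : ∀ j, A j => F (φ i)) =
      av fun p : A i × (∀ j : {j // j ≠ i}, A j) => F p.1 := by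
    unfold av
    rw [Fintype.card_congr (Equiv.piSplitAt i A),
      ← Equiv.sum_comp (Equiv.piSplitAt i A) fun p => F p.1]
    rfl
  rw [h1, cz_av_prod fun a _ => F a]
  simp only [cz_av_const]

/-! ## The characters on a leaf -/

theorem cz_on_ch (S : Finset (Fin n)) : On S (ch S) := fun x y h => by
  unfold Dnf.ch
  exact prod_congr rfl fun i hi => by rw [h i hi]

theorem cz_ch_sb (L S : Finset (Fin n)) (w x : Cube n) :
    ch S (sb L w x) = ch (S ∩ L) w * ch (S \ L) x := by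
  have h2 : ∀ z : Cube n, ch S z = ch (S ∩ L) z * ch (S \ L) z := by
    intro z
    unfold Dnf.ch
    rw [← prod_union (disjoint_sdiff_inter S L).symm]
    congr 1
    rw [union_comm, sdiff_union_inter]
  rw [h2]
  congr 1
  · refine cz_on_ch _ _ _ fun i hi => ?_
    unfold sb
    rw [if_pos (mem_inter.1 hi).2]
  · refine cz_on_ch _ _ _ fun i hi => ?_
    unfold sb
    rw [if_neg (mem_sdiff.1 hi).2]

theorem cz_one_term (L : Finset (Fin n)) (t x : Cube n) : one (Tr L t x) = (⟨L, t⟩ : Term n).f x :=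
  rfl

theorem cz_one_sp (L : Finset (Fin n)) (t : Cube n) :
    Sp 1 (fun x => ((one (Tr L t x) : ℝ) : ℂ)) :=
  (Xp.Sp_real (⟨L, t⟩ : Term n).f).mono (Dnf.L1_term _)

/-- The characters of a leaf have average at most `δ`. -/
theorem cz_lf_ch {Ω : Type} [Fintype Ω] [Nonempty Ω] {Y : Ω → Cube n} {δ : ℝ} (hδ : 0 ≤ δ)
    (hY : Bias δ Y) (L : Finset (Fin n)) (t : Cube n) {S : Finset (Fin n)} (hS : S ≠ ∅) :
    ‖av fun ω => lf L t (fun x => ((ch S x : ℝ) : ℂ)) (Y ω)‖ ≤ δ := by
  have h1 : ∀ x : Cube n, lf L t (fun x => ((ch S x : ℝ) : ℂ)) x =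
      ((one (Tr L t x) : ℝ) : ℂ) * (((if S ∩ L = ∅ then (1 : ℝ) else 0) : ℝ) *
        ((ch (S \ L) x : ℝ) : ℂ)) := by
    intro x
    unfold lf
    congr 1
    have h2 : (fun w : Cube n => ((ch S (sb L w x) : ℝ) : ℂ)) =
        fun w => ((ch (S \ L) x : ℝ) : ℂ) * ((ch (S ∩ L) w : ℝ) : ℂ) := by
      funext w
      rw [cz_ch_sb]
      push_cast
      ring
    rw [h2, Xp.spb_av_mul, Xp.spb_avg_ofReal, Xp.spb_avg_E, Dnf.E_ch, mul_comm]
  simp only [h1]
  by_cases hL : S ∩ L = ∅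
  · have h4 : S \ L = S := by
      rw [Finset.sdiff_eq_self_iff_disjoint]
      exact disjoint_iff_inter_eq_empty.2 hL
    rw [if_pos hL, h4]
    have h5 : Sp 1 (fun x : Cube n => ((one (Tr L t x) : ℝ) : ℂ) *
        (((1 : ℝ) : ℂ) * ((ch S x : ℝ) : ℂ))) := by
      refine ((cz_one_sp L t).ch_mul S).congr' fun x => ?_
      push_cast
      ring
    have h6 := Xp.fool hδ hY h5
    have h7 : av (fun x : Cube n => ((one (Tr L t x) : ℝ) : ℂ) *
        (((1 : ℝ) : ℂ) * ((ch S x : ℝ) : ℂ))) = 0 := by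
      have h8 : (fun x : Cube n => ((one (Tr L t x) : ℝ) : ℂ) *
          (((1 : ℝ) : ℂ) * ((ch S x : ℝ) : ℂ))) =
          fun x => ((((⟨L, t⟩ : Term n).f x * ch S x : ℝ)) : ℂ) := by
        funext x
        rw [cz_one_term]
        push_cast
        ring
      rw [h8, Xp.spb_avg_ofReal, Xp.spb_avg_E,
        Dnf.E_indep (disjoint_iff_inter_eq_empty.2 (by rw [inter_comm]; exact hL))
          (Dnf.on_term (⟨L, t⟩ : Term n)) (cz_on_ch S)]
      have h10 : Dnf.E (ch S : Cube n → ℝ) = 0 := by rw [Dnf.E_ch, if_neg hS]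
      rw [h10, mul_zero, Complex.ofReal_zero]
    rw [h7, sub_zero, mul_one] at h6
    exact h6
  · rw [if_neg hL]
    simp only [Complex.ofReal_zero, zero_mul, mul_zero]
    rw [cz_av_const, norm_zero]
    exact hδ

/-! ## Conditioning -/

section

variable {Ω : Type} [Fintype Ω]

/-- The outcomes at which the bits of `Y` in `L` are `c`. -/
abbrev Cd (L : Finset (Fin n)) (c : L → Bool) (Y : Ω → Cube n) : Type :=
  {ω : Ω // ∀ i : L, Y ω i = c i}

theorem cz_tr (L : Finset (Fin n)) (t : Cube n) (x : Cube n) :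
    (∀ i : L, x i = (fun i : L => t i) i) ↔ Tr L t x := by
  unfold Xl.Tr
  exact Subtype.forall

/-- The average over the outcomes in the leaf. -/
theorem cz_cond (L : Finset (Fin n)) (t : Cube n) (Y : Ω → Cube n) (F : Ω → ℂ) :
    (av fun ω => ((one (Tr L t (Y ω)) : ℝ) : ℂ) * F ω) =
      ((avg fun ω => one (Tr L t (Y ω)) : ℝ) : ℂ) *
        av (fun ω : Cd L (fun i => t i) Y => F ω.1) := by
  classical
  have h1 : ∀ G : Ω → ℂ, ∑ ω, ((one (Tr L t (Y ω)) : ℝ) : ℂ) * G ω =
      ∑ ω : Cd L (fun i => t i) Y, G ω.1 := by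
    intro G
    rw [← Finset.sum_subtype (univ.filter fun ω => ∀ i : L, Y ω i = (fun i : L => t i) i)
      (fun ω => by simp) G, sum_filter]
    refine sum_congr rfl fun ω _ => ?_
    by_cases h : Tr L t (Y ω)
    · rw [Dnf.one_true h, if_pos ((cz_tr L t (Y ω)).2 h), Complex.ofReal_one, one_mul]
    · rw [Dnf.one_false h, if_neg fun h' => h ((cz_tr L t (Y ω)).1 h'), Complex.ofReal_zero,
        zero_mul]
  have h2 : ((∑ ω, one (Tr L t (Y ω)) : ℝ) : ℂ) =
      (Fintype.card (Cd L (fun i => t i) Y) : ℂ) := by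
    have := h1 fun _ => 1
    simp only [mul_one, sum_const, card_univ, nsmul_eq_mul] at this
    push_cast
    exact this
  unfold av avg
  rw [h1, Complex.ofReal_div, h2]
  rcases Nat.eq_zero_or_pos (Fintype.card (Cd L (fun i => t i) Y)) with h | h
  · have h3 : IsEmpty (Cd L (fun i => t i) Y) := Fintype.card_eq_zero_iff.1 h
    simp
  · have h3 : ((Fintype.card (Cd L (fun i => t i) Y) : ℕ) : ℂ) ≠ 0 := by
      exact_mod_cast h.ne'
    push_cast
    field_simp

theorem cz_ne {L : Finset (Fin n)} {t : Cube n} {Y : Ω → Cube n}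
    (h : 0 < avg fun ω => one (Tr L t (Y ω))) : Nonempty (Cd L (fun i => t i) Y) := by
  by_contra hcon
  have h4 : ∀ ω, one (Tr L t (Y ω)) = 0 := fun ω => Dnf.one_false fun h' =>
    hcon ⟨⟨ω, (cz_tr L t (Y ω)).2 h'⟩⟩
  simp only [h4] at h
  unfold avg at h
  simp at h

theorem cz_lf (L : Finset (Fin n)) (t : Cube n) (Y : Ω → Cube n) (f : Cube n → ℂ) :
    av (fun ω => lf L t f (Y ω)) = ((avg fun ω => one (Tr L t (Y ω)) : ℝ) : ℂ) *
      av (fun ω : Cd L (fun i => t i) Y => av fun w : Cube n => f (sb L w (Y ω.1))) :=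
  cz_cond L t Y fun ω => av fun w : Cube n => f (sb L w (Y ω))

end

/-- The conditional string with fresh bits in `L`. -/
theorem cond {Ω : Type} [Fintype Ω] [Nonempty Ω] (X : Ω → Cube n) (L : Finset (Fin n))
    (t : Cube n) (h : 0 < avg fun ω => one (Tr L t (X ω))) :
    ∃ (Ω' : Type) (_ : Fintype Ω') (_ : Nonempty Ω') (X' : Ω' → Cube n), ∀ f : Cube n → ℂ,
      av (fun ω => lf L t f (X ω)) =
        ((avg fun ω => one (Tr L t (X ω)) : ℝ) : ℂ) * av fun ω' => f (X' ω') := by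
  classical
  have hne := cz_ne h
  refine ⟨Cd L (fun i => t i) X × Cube n, inferInstance, inferInstance,
    fun p => sb L p.2 (X p.1.1), fun f => ?_⟩
  rw [cz_lf, cz_av_prod fun (ω : Cd L (fun i => t i) X) w => f (sb L w (X ω.1))]

/-- A string of small bias, conditioned on its bits in `L`, with fresh bits in `L`; one sample space
for all conditions `t`. -/
theorem cz {Ω : Type} [Fintype Ω] [Nonempty Ω] {Y : Ω → Cube n} {δ : ℝ} (hδ : 0 ≤ δ)
    (hY : Bias δ Y) (L : Finset (Fin n)) (hL : δ * 2 ^ L.card ≤ 1 / 2) :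
    (∀ t, |(avg fun ω => one (Tr L t (Y ω))) - (1 / 2) ^ L.card| ≤ δ) ∧
    ∃ (Ω' : Type) (_ : Fintype Ω') (_ : Nonempty Ω') (Y' : Cube n → Ω' → Cube n),
      (∀ t, Bias (2 ^ (L.card + 1) * δ) (Y' t)) ∧
      (∀ t t', (∀ i ∈ L, t i = t' i) → Y' t = Y' t') ∧
      ∀ (t : Cube n) (f : Cube n → ℂ), av (fun ω => lf L t f (Y ω)) =
        ((avg fun ω => one (Tr L t (Y ω)) : ℝ) : ℂ) * av fun ω' => f (Y' t ω') := by
  classical
  have hP : ∀ t, |(avg fun ω => one (Tr L t (Y ω))) - (1 / 2) ^ L.card| ≤ δ := by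
    intro t
    have h := Xp.fool_real hδ hY (f := (⟨L, t⟩ : Term n).f) (cz_one_sp L t)
    rw [Xp.spb_avg_E, Dnf.E_term, mul_one] at h
    exact h
  have h2 : (0 : ℝ) < 2 ^ L.card := by positivity
  have hPt : ∀ t, (1 / 2) ^ (L.card + 1) ≤ avg fun ω => one (Tr L t (Y ω)) := by
    intro t
    have h3 := (abs_le.1 (hP t)).1
    have h4 : δ ≤ (1 / 2) ^ (L.card + 1) := by
      have h5 : (1 / 2 : ℝ) ^ (L.card + 1) = 1 / 2 / 2 ^ L.card := by
        rw [pow_succ, one_div_pow]
        ring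
      rw [h5, le_div_iff₀ h2]
      exact hL
    have h5 : (1 / 2 : ℝ) ^ L.card = (1 / 2) ^ (L.card + 1) + (1 / 2) ^ (L.card + 1) := by
      rw [pow_succ]
      ring
    linarith
  have hpos : ∀ t, 0 < avg fun ω => one (Tr L t (Y ω)) := fun t =>
    lt_of_lt_of_le (by positivity) (hPt t)
  refine ⟨hP, ?_⟩
  have hne : ∀ c : L → Bool, Nonempty (Cd L c Y) := by
    intro c
    have h3 := cz_ne (hpos fun i => if h : i ∈ L then c ⟨i, h⟩ else false)
    have h4 : (fun i : L => (fun i => if h : i ∈ L then c ⟨i, h⟩ else false) (i : Fin n)) = c := by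
      funext i
      simp
    rwa [h4] at h3
  have hlf : ∀ (t : Cube n) (f : Cube n → ℂ), av (fun ω => lf L t f (Y ω)) =
        ((avg fun ω => one (Tr L t (Y ω)) : ℝ) : ℂ) *
          av fun ω' : (∀ c : L → Bool, Cd L c Y) × Cube n =>
            f (sb L ω'.2 (Y (ω'.1 fun i => t i).1)) := by
    intro t f
    rw [cz_lf, cz_av_prod fun (φ : ∀ c : L → Bool, Cd L c Y) w => f (sb L w (Y (φ fun i => t i).1)),
      cz_coord (A := fun c : L → Bool => Cd L c Y) (fun i => t i)
        fun a => av fun w : Cube n => f (sb L w (Y a.1))]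
  refine ⟨(∀ c : L → Bool, Cd L c Y) × Cube n, inferInstance, inferInstance,
    fun t p => sb L p.2 (Y (p.1 fun i => t i).1), fun t S hS => ?_, fun t t' htt => ?_, hlf⟩
  · have h3 := hlf t fun x => ((ch S x : ℝ) : ℂ)
    have h4 := cz_lf_ch hδ hY L t hS
    rw [h3, norm_mul, Complex.norm_real, Real.norm_eq_abs, abs_of_pos (hpos t),
      Xp.spb_avg_ofReal, Complex.norm_real, Real.norm_eq_abs] at h4
    have h5 := (mul_le_mul_of_nonneg_right (hPt t) (abs_nonneg _)).trans h4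
    calc |(avg fun p : (∀ c : L → Bool, Cd L c Y) × Cube n =>
          ch S (sb L p.2 (Y (p.1 fun i => t i).1)))|
        = 2 ^ (L.card + 1) * ((1 / 2 : ℝ) ^ (L.card + 1) *
            |(avg fun p : (∀ c : L → Bool, Cd L c Y) × Cube n =>
              ch S (sb L p.2 (Y (p.1 fun i => t i).1)))|) := by
          rw [← mul_assoc, ← mul_pow]
          norm_num
      _ ≤ 2 ^ (L.card + 1) * δ := mul_le_mul_of_nonneg_left h5 (by positivity)
  · have h3 : (fun i : L => t i) = fun i : L => t' i := by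
      funext i
      exact htt i i.2
    have h4 : ∀ (φ : ∀ c : L → Bool, Cd L c Y) (c c' : L → Bool), c = c' → (φ c).1 = (φ c').1 := by
      rintro φ c _ rfl
      rfl
    funext p
    show sb L p.2 (Y (p.1 fun i => t i).1) = sb L p.2 (Y (p.1 fun i => t' i).1)
    rw [h4 p.1 _ _ h3]

end Pool.Agent.MP_ca1109_lc.Xd
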