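import Pool.Agent.MP_ca1109_lc.Xd.FT
import Pool.Agent.MP_ca1109_lc.Xu.Part

/-!
# Partitions into subcubes with functions of gates: the theorem
-/

namespace Pool.Agent.MP_ca1109_lc.Xd

open Pool.Agent.MP_ca1109_lc.Mpg Pool.Agent.MP_ca1109_lc.Agp
open Pool.Agent.MP_ca1109_lc.Xa (fp_eventually)
open Pool.Agent.MP_ca1109_lc.Xu (Comb Tree Part PartTest)

variable {n : ℕ}

theorem part_comb {P : ((Fin n → Bool) → Bool) → Prop} {N₀ : ℕ} {f : (Fin n → Bool) → Bool}
    (h : Part P N₀ f) : Comb P 1 N₀ f := by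
  obtain ⟨N, L, a, g, hN, hL, hg, hf⟩ := h
  exact comb_part L a g (by rw [Fintype.card_fin]; exact hN) hg hL hf

/-- The leaves of a decision tree are such a partition. -/
theorem part_tree {P : ((Fin n → Bool) → Bool) → Prop} {D : ℕ} {f : (Fin n → Bool) → Bool}
    (h : Tree P D f) : Part P (2 ^ D) f := by
  obtain ⟨ι, i1, S, a, g, h1, -, h3, h4, h5⟩ := Tree.leaves D f h
  obtain ⟨φ⟩ : Nonempty (Fin (Fintype.card ι) ≃ ι) := ⟨(Fintype.equivFin ι).symm⟩
  refine ⟨Fintype.card ι, fun j => S (φ j), fun j => a (φ j), fun j => g (φ j), h1, fun x => ?_,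
    fun j => h3 _, fun j x hx => h5 _ x hx⟩
  obtain ⟨t, ht, hu⟩ := h4 x
  refine ⟨φ.symm t, ?_, fun j hj => ?_⟩
  · simpa using ht
  · rw [← hu (φ j) hj, Equiv.symm_apply_apply]

/-- From the leaves to the partitions. -/
theorem part_of {P : ∀ n : ℕ, ((Fin n → Bool) → Bool) → Prop} (h : ℕ)
    (H : ∀ ε : ℝ, 0 < ε → LeafGen P (h + 1) ε) {ε : ℝ} (hε : 0 < ε) :
    LogGen (fun n f => Part (P n) (n ^ h) f) ε :=
  fp_eventually (comb_of h 1 H hε) 0 fun _ _ _ hT => part_comb hT

/-- One explicit generator with logarithmic seeds fools all functions which, on each of at most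
`n ^ h` subcubes which partition the cube, are functions of `k` gates. -/
theorem final_part (q d r B k h : ℕ) (hq : 0 < q) {ε : ℝ} (hε : 0 < ε) :
    LogGen (PartTest q d r B k h) ε :=
  part_of h (fun _ hε => leaf_gate q d r B k (h + 1) hq hε) hε

end Pool.Agent.MP_ca1109_lc.Xd
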