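import Pool.Agent.MP_ca1109_lc.Xd.WD
import Pool.Agent.MP_ca1109_lc.Xg.MA

/-!
# Products of unimodular weights of large energy: one level
-/


namespace Pool.Agent.MP_ca1109_lc.Xd

open Finset Pool.Agent.H66 Pool.Agent.MP_ca1109_lc.Mpg Pool.Agent.MP_ca1109_lc.Agp
open Pool.Agent.MP_ca1109_lc.Xp (Bias xo Miss Hs mq uv gq gq_xo gq_update qgen cut' cs_step
  parseval_step av_update Fam pr Rd)
open Pool.Agent.MP_ca1109_lc.Xg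
open Pool.Agent.MP_ca1109_lc.Dnf (Cube ch one E mix one_nonneg one_le one_true one_false)

variable {n : ℕ}

/-! ## One level -/

theorem core2 (r : ℕ) {ε : ℝ} (hε : 0 < ε) :
    ∃ (c C n₀ : ℕ) (t : ℝ), 1 ≤ t ∧ ∀ n ≥ n₀, ∀ (W : ℕ) (M : Finset (Finset (Fin n)))
      (ζ : Finset (Fin n) → ℂ), Fam r W M → (∀ m ∈ M, ‖ζ m‖ = 1) →
      ∀ p δ : ℝ, 0 ≤ p → p ≤ 1 / 2 → t / 2 ≤ mw p (gap ζ) M → mw p (gap ζ) M ≤ t →
      0 ≤ δ → C * δ * (n : ℝ) ^ C ≤ 1 → δ * ((M.card : ℝ) + 1) ^ 2 * ((W : ℝ) + 1) ^ 2 ≤ 1 →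
      ∀ {Ω₁ Ω₂ Ω₃ : Type} [Fintype Ω₁] [Nonempty Ω₁] [Fintype Ω₂] [Nonempty Ω₂]
        [Fintype Ω₃] [Nonempty Ω₃] (Y : Ω₂ → Ω₃ → Ω₁ → Cube n) (η : Ω₂ → Finset (Fin n))
        (H : Ω₃ → Fin n → Fin c → Bool) (sh : Ω₂ → Ω₃ → Cube n), (∀ ω₂ ω₃, Bias δ (Y ω₂ ω₃)) →
        Miss (2 * (W + r)) p δ η → Hs ((1 / 2) ^ c + δ) H →
        ‖(av fun ω₂ => av fun ω₃ => av fun ω₁ => av fun b : Fin c → Bool =>
          pr ζ M (mq (xo (Y ω₂ ω₃ ω₁) (sh ω₂ ω₃)) (η ω₂) (uv b (H ω₃))))‖ ≤ ε := by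
  classical
  rcases Nat.eq_zero_or_pos r with hr | hr
  · refine ⟨0, 0, 0, 1, le_rfl, ?_⟩
    intro n _ W M ζ hM hζ p δ hp hp2 ht1 ht2
    exfalso
    subst hr
    have hM0 : M = ∅ := by
      rw [Finset.eq_empty_iff_forall_notMem]
      intro m hm
      obtain ⟨i, hi⟩ := Finset.nonempty_iff_ne_empty.2 (hM.ne m hm)
      have h1 := hM.rd i
      have h2 : m ∈ M.filter fun m => i ∈ m := Finset.mem_filter.2 ⟨hm, hi⟩
      have h3 := Finset.card_pos.2 ⟨m, h2⟩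
      omega
    rw [hM0] at ht1
    unfold mw at ht1
    rw [Finset.sum_empty] at ht1
    norm_num at ht1
  set e : ℝ := ε ^ 2 / 8 with he
  have he0 : 0 < e := by positivity
  obtain ⟨t₁, ht₁, hpv⟩ := pv r he0
  set A : ℝ := 4 * r * (2 * r) ^ (2 * r) with hA
  have hr1 : (1 : ℝ) ≤ r := by exact_mod_cast hr
  have hA1 : 1 ≤ A := by
    have h1 : (1 : ℝ) ≤ (2 * r) ^ (2 * r) := one_le_pow₀ (by linarith)
    rw [hA]; nlinarith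
  set t : ℝ := 2 * A * t₁ with ht
  have ht1 : 1 ≤ t := by rw [ht]; nlinarith
  set V : ℝ := (t + 1) / e with hV
  have hV0 : 0 < V := by positivity
  obtain ⟨C₁, n₁, hbb⟩ := bb_two r V he0
  obtain ⟨c, hc⟩ := exists_pow_lt_of_lt_one he0 (show (1 / 2 : ℝ) < 1 by norm_num)
  obtain ⟨C₂, hC₂⟩ := exists_nat_ge (1 / e)
  refine ⟨c, C₁ + C₂ + 1, max n₁ 1, t, ht1, ?_⟩
  intro n hn W M ζ hM hζ p δ hp hp2 hmt hmt' hδ hCδ hδM Ω₁ Ω₂ Ω₃ _ _ _ _ _ _ Y η H sh hY hη hH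
  have hn1 : n₁ ≤ n := (le_max_left _ _).trans hn
  have hn0 : 1 ≤ n := (le_max_right _ _).trans hn
  have hnR : (1 : ℝ) ≤ n := by exact_mod_cast hn0
  obtain ⟨w, hkil⟩ := kil_exists (r := r) (M := M) (by omega : 0 < n) hM.rd
  have hpw : (1 : ℝ) ≤ (n : ℝ) ^ (C₁ + C₂ + 1) := one_le_pow₀ hnR
  have hCR : (1 : ℝ) ≤ ((C₁ + C₂ + 1 : ℕ) : ℝ) := by push_cast; linarith [Nat.cast_nonneg (α := ℝ) C₁, Nat.cast_nonneg (α := ℝ) C₂]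
  have hδ1 : δ * (n : ℝ) ^ C₁ ≤ 1 := by
    calc δ * (n : ℝ) ^ C₁ ≤ δ * (n : ℝ) ^ (C₁ + C₂ + 1) :=
          mul_le_mul_of_nonneg_left (pow_le_pow_right₀ hnR (by omega)) hδ
      _ = 1 * (δ * (n : ℝ) ^ (C₁ + C₂ + 1)) := (one_mul _).symm
      _ ≤ ((C₁ + C₂ + 1 : ℕ) : ℝ) * (δ * (n : ℝ) ^ (C₁ + C₂ + 1)) :=
          mul_le_mul_of_nonneg_right hCR (by positivity)
      _ = ((C₁ + C₂ + 1 : ℕ) : ℝ) * δ * (n : ℝ) ^ (C₁ + C₂ + 1) := by ring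
      _ ≤ 1 := hCδ
  have hδe : δ ≤ e := by
    have h1 : (1 / e) * δ ≤ 1 := by
      calc (1 / e) * δ ≤ ((C₁ + C₂ + 1 : ℕ) : ℝ) * δ := by
            refine mul_le_mul_of_nonneg_right (hC₂.trans ?_) hδ
            push_cast
            linarith [Nat.cast_nonneg (α := ℝ) C₁]
        _ = ((C₁ + C₂ + 1 : ℕ) : ℝ) * δ * 1 := (mul_one _).symm
        _ ≤ ((C₁ + C₂ + 1 : ℕ) : ℝ) * δ * (n : ℝ) ^ (C₁ + C₂ + 1) :=
            mul_le_mul_of_nonneg_left hpw (by positivity)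
        _ ≤ 1 := hCδ
    have h2 : δ = e * ((1 / e) * δ) := by field_simp
    rw [h2]
    calc e * ((1 / e) * δ) ≤ e * 1 := mul_le_mul_of_nonneg_left h1 he0.le
      _ = e := mul_one e
  have hgc0 : ∀ m ∈ M, 0 ≤ gc r ζ M m := fun m _ => gc_nonneg
  have hgc1 : ∀ m ∈ M, gc r ζ M m ≤ 1 := fun m hm => gc_le (hζ m hm)
  have hgap0 : ∀ m ∈ M, 0 ≤ gap ζ m := fun m _ => by unfold gap; positivity
  have hgap1 : ∀ m ∈ M, gap ζ m ≤ 1 := fun m hm => gap_le (hζ m hm)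
  have hmgc : t₁ ≤ mw p (gc r ζ M) M := by
    have h1 := transfer hr hM.rd hM.ne hp (by linarith : p ≤ 1) (ζ := ζ)
    rw [← hA] at h1
    have h2 : A * t₁ ≤ A * mw p (gc r ζ M) M := by
      have : t / 2 = A * t₁ := by rw [ht]; ring
      linarith
    exact le_of_mul_le_mul_left h2 (by linarith)
  have hpv' := hpv n W M w (gc r ζ M) hM hkil hgc0 hgc1 p δ hp hp2 hδ hmgc hδM η hη
  have hhit := hit_avg (c := gap ζ) hM.wd hgap0 hgap1 hδ (xco_miss_mono hη (by omega : W ≤ 2 * (W + r)))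
  have hcardδ : δ * (M.card : ℝ) ≤ 1 := by
    have h1 : (M.card : ℝ) ≤ ((M.card : ℝ) + 1) ^ 2 * ((W : ℝ) + 1) ^ 2 := by
      have h2 : (0 : ℝ) ≤ M.card := Nat.cast_nonneg _
      have h3 : (0 : ℝ) ≤ W := Nat.cast_nonneg _
      have h4 : (1 : ℝ) ≤ ((W : ℝ) + 1) ^ 2 := one_le_pow₀ (by linarith)
      have h5 : (M.card : ℝ) ≤ ((M.card : ℝ) + 1) ^ 2 := by nlinarith
      have h6 : (0:ℝ) ≤ ((M.card : ℝ) + 1) ^ 2 := by positivity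
      nlinarith
    calc δ * (M.card : ℝ) ≤ δ * (((M.card : ℝ) + 1) ^ 2 * ((W : ℝ) + 1) ^ 2) :=
          mul_le_mul_of_nonneg_left h1 hδ
      _ = δ * ((M.card : ℝ) + 1) ^ 2 * ((W : ℝ) + 1) ^ 2 := by ring
      _ ≤ 1 := hδM
  have hhw0 : ∀ ω, 0 ≤ hw (gap ζ) M (η ω) := fun ω => by
    unfold hw
    exact Finset.sum_nonneg fun m hm =>
      mul_nonneg (hgap0 m hm) (mul_nonneg (by positivity) (one_nonneg _))
  have hmark : (avg fun ω => one (V < hw (gap ζ) M (η ω))) ≤ e := by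
    refine (xco_markov hV0 hhw0).trans ?_
    rw [div_le_iff₀ hV0]
    have h1 : e * V = t + 1 := by rw [hV]; field_simp
    rw [h1]
    linarith
  -- the pointwise bound
  have hpt : ∀ (ω₂ : Ω₂) (ω₃ : Ω₃) (b b' : Fin c → Bool),
      (av fun ω₁ => pr ζ M (mq (xo (Y ω₂ ω₃ ω₁) (sh ω₂ ω₃)) (η ω₂) (uv b (H ω₃))) *
        (starRingEnd ℂ) (pr ζ M (mq (xo (Y ω₂ ω₃ ω₁) (sh ω₂ ω₃)) (η ω₂) (uv b' (H ω₃))))).re ≤
      (av fun y : Cube n => pr ζ M (mq y (η ω₂) (uv b (H ω₃))) *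
        (starRingEnd ℂ) (pr ζ M (mq y (η ω₂) (uv b' (H ω₃))))).re + e +
        2 * one (V < hw (gap ζ) M (η ω₂)) := by
    intro ω₂ ω₃ b b'
    set P := av fun ω₁ => pr ζ M (mq (xo (Y ω₂ ω₃ ω₁) (sh ω₂ ω₃)) (η ω₂) (uv b (H ω₃))) *
        (starRingEnd ℂ) (pr ζ M (mq (xo (Y ω₂ ω₃ ω₁) (sh ω₂ ω₃)) (η ω₂) (uv b' (H ω₃)))) with hP
    set R := av fun y : Cube n => pr ζ M (mq y (η ω₂) (uv b (H ω₃))) *
        (starRingEnd ℂ) (pr ζ M (mq y (η ω₂) (uv b' (H ω₃)))) with hR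
    by_cases hbig : V < hw (gap ζ) M (η ω₂)
    · rw [one_true hbig]
      have h1 : ‖P‖ ≤ 1 := xco_av_norm fun ω => by
        rw [norm_mul, RCLike.norm_conj, xco_pr_norm hζ, xco_pr_norm hζ, one_mul]
      have h2 : ‖R‖ ≤ 1 := xco_av_norm fun ω => by
        rw [norm_mul, RCLike.norm_conj, xco_pr_norm hζ, xco_pr_norm hζ, one_mul]
      have h3 := Complex.re_le_norm P
      have h4 := Complex.abs_re_le_norm R
      have h5 := (abs_le.1 h4).1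
      linarith
    · rw [one_false hbig]
      have h1 := hbb n hn1 M ζ hM.ne hM.rd hζ (η ω₂) (sh ω₂ ω₃) (uv b (H ω₃)) (uv b' (H ω₃))
        (not_lt.1 hbig) (Y ω₂ ω₃) δ hδ hδ1 (hY ω₂ ω₃)
      rw [← hP, ← hR] at h1
      have h2 := Complex.re_le_norm (P - R)
      rw [Complex.sub_re] at h2
      linarith
  have hcs := cs_step (c := c) (fun (ω₂ : Ω₂) (ω₃ : Ω₃) (ω₁ : Ω₁) (b : Fin c → Bool) =>
    pr ζ M (mq (xo (Y ω₂ ω₃ ω₁) (sh ω₂ ω₃)) (η ω₂) (uv b (H ω₃))))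
  have hδc : (0 : ℝ) ≤ (1 / 2) ^ c + δ := by positivity
  have hkey : ∀ ω₂ : Ω₂, (avg fun ω₃ => avg fun b : Fin c → Bool => avg fun b' : Fin c → Bool =>
      (av fun ω₁ => pr ζ M (mq (xo (Y ω₂ ω₃ ω₁) (sh ω₂ ω₃)) (η ω₂) (uv b (H ω₃))) *
        (starRingEnd ℂ) (pr ζ M (mq (xo (Y ω₂ ω₃ ω₁) (sh ω₂ ω₃)) (η ω₂) (uv b' (H ω₃))))).re) ≤
      (E fun x => Real.exp (-(cw (gc r ζ M) M w (η ω₂) x) / 2)) + ((1 / 2) ^ c + δ + e) +
        2 * one (V < hw (gap ζ) M (η ω₂)) := by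
    intro ω₂
    have h1 := parseval_step (η ω₂) H hδc hH (pr ζ M) (xco_pr_norm hζ)
    have h2 := restr_le hM.rd hkil hM.ne hζ (η ω₂)
    have h3 : (avg fun ω₃ => avg fun b : Fin c → Bool => avg fun b' : Fin c → Bool =>
      (av fun ω₁ => pr ζ M (mq (xo (Y ω₂ ω₃ ω₁) (sh ω₂ ω₃)) (η ω₂) (uv b (H ω₃))) *
        (starRingEnd ℂ) (pr ζ M (mq (xo (Y ω₂ ω₃ ω₁) (sh ω₂ ω₃)) (η ω₂) (uv b' (H ω₃))))).re) ≤
        (avg fun ω₃ => avg fun b : Fin c → Bool => avg fun b' : Fin c → Bool =>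
          ((av fun y : Cube n => pr ζ M (mq y (η ω₂) (uv b (H ω₃))) *
            (starRingEnd ℂ) (pr ζ M (mq y (η ω₂) (uv b' (H ω₃))))).re +
            (e + 2 * one (V < hw (gap ζ) M (η ω₂))))) := by
      refine avg_mono fun ω₃ => avg_mono fun b => avg_mono fun b' => ?_
      have := hpt ω₂ ω₃ b b'
      linarith
    refine h3.trans ?_
    simp only [avg_add, avg_const]
    linarith
  have hsq : ‖(av fun ω₂ => av fun ω₃ => av fun ω₁ => av fun b : Fin c → Bool =>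
      pr ζ M (mq (xo (Y ω₂ ω₃ ω₁) (sh ω₂ ω₃)) (η ω₂) (uv b (H ω₃))))‖ ^ 2 ≤ ε ^ 2 := by
    refine hcs.trans ?_
    refine (avg_mono fun ω₂ => hkey ω₂).trans ?_
    simp only [avg_add, avg_const, avg_mul_left]
    have h8 : ε ^ 2 = 8 * e := by rw [he]; ring
    rw [h8]
    linarith
  exact le_of_sq_le_sq hsq hε.le
where
  le_of_sq_le_sq {a b : ℝ} (h : a ^ 2 ≤ b ^ 2) (hb : 0 ≤ b) : a ≤ b := by
    exact le_of_not_gt fun hlt => by nlinarith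

end Pool.Agent.MP_ca1109_lc.Xd
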