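import Pool.Agent.MP_ca1109_lc.Xd.WD
import Pool.Agent.MP_ca1109_lc.Xg.MA

/-!
# Averages over the sources, energies
-/


namespace Pool.Agent.MP_ca1109_lc.Xd

open Finset Pool.Agent.H66 Pool.Agent.MP_ca1109_lc.Mpg Pool.Agent.MP_ca1109_lc.Agp
open Pool.Agent.MP_ca1109_lc.Xp (Bias xo Miss Hs mq uv gq gq_xo gq_update qgen cut' cs_step
  parseval_step av_update Fam pr Rd)
open Pool.Agent.MP_ca1109_lc.Xg
open Pool.Agent.MP_ca1109_lc.Dnf (Cube ch one E mix one_nonneg one_le one_true one_false)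

variable {n : ℕ}

/-! ## The average over the sources -/

/-- The average over the sources; the first string depends on the sum of the moves. -/
noncomputable def Pqc {L c : ℕ} {Ω₁ Ω₂ Ω₃ : Type} [Fintype Ω₁] [Fintype Ω₂] [Fintype Ω₃]
    (Y : Cube n → Ω₁ → Cube n) (η : Fin L → Ω₂ → Finset (Fin n)) (H : Ω₃ → Fin n → Fin c → Bool)
    (f : Cube n → ℂ) : ℂ :=
  av fun b : Fin L → Fin c → Bool => av fun ω₂ => av fun ω₃ => av fun ω₁ =>
    f (xo (Y (gq (fun _ => false) (fun l => η l ω₂) (H ω₃) b) ω₁)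
      (gq (fun _ => false) (fun l => η l ω₂) (H ω₃) b))

theorem bg_xo_mq (y s : Cube n) (η : Finset (Fin n)) (v : Cube n) :
    xo y (mq s η v) = mq (xo y s) η v := by
  funext i
  unfold xo Xp.mq
  exact (Bool.xor_assoc _ _ _).symm

theorem bg_off (s v : Cube n) {η : Finset (Fin n)} {i : Fin n} (hi : i ∉ η) :
    mq s η v i = s i := by
  unfold Xp.mq
  simp [hi]

theorem bg_xo0 (s : Cube n) : xo (fun _ => false) s = s := by
  funext i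
  unfold xo
  simp

section pqc

variable {L c : ℕ} {Ω₁ Ω₂ Ω₃ : Type} [Fintype Ω₁] [Fintype Ω₂] [Fintype Ω₃]
    (Y : Cube n → Ω₁ → Cube n) (η : Fin L → Ω₂ → Finset (Fin n)) (H : Ω₃ → Fin n → Fin c → Bool)

theorem pqc_mul (κ : ℂ) (f : Cube n → ℂ) :
    Pqc Y η H (fun x => κ * f x) = κ * Pqc Y η H f := by
  unfold Pqc
  simp only [yma_av_mul_left]

variable [Nonempty Ω₂] [Nonempty Ω₃]

theorem pqc_close {f g : Cube n → ℂ} {ε : ℝ}
    (h : ∀ t s : Cube n, ‖(av fun ω₁ => f (xo (Y t ω₁) s)) - av fun ω₁ => g (xo (Y t ω₁) s)‖ ≤ ε) :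
    ‖Pqc Y η H f - Pqc Y η H g‖ ≤ ε := by
  unfold Pqc
  refine yma_close fun b => yma_close fun ω₂ => yma_close fun ω₃ => ?_
  have h1 := h (gq (fun _ => false) (fun l => η l ω₂) (H ω₃) b)
    (gq (fun _ => false) (fun l => η l ω₂) (H ω₃) b)
  exact h1

theorem pqc_level [Nonempty Ω₁] (l : Fin L) {f : Cube n → ℂ} {ε ε' : ℝ} (D : Finset (Fin n))
    (hf : ∀ x, ‖f x‖ ≤ 1) (hYD : ∀ t t', (∀ i ∈ D, t i = t' i) → Y t = Y t')
    (hd : (avg fun ω₂ => one (¬ Disjoint (η l ω₂) D)) ≤ ε')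
    (h : ∀ sh : Ω₂ → Ω₃ → Cube n, ‖av fun ω₂ => av fun ω₃ => av fun ω₁ =>
      av fun u : Fin c → Bool =>
        f (mq (xo (Y (sh ω₂ ω₃) ω₁) (sh ω₂ ω₃)) (η l ω₂) (uv u (H ω₃)))‖ ≤ ε) :
    ‖Pqc Y η H f‖ ≤ ε + 2 * ε' := by
  classical
  unfold Pqc
  rw [av_update l]
  refine yma_norm_av fun b => ?_
  obtain ⟨sh, hsh⟩ : ∃ sh : Ω₂ → Ω₃ → Cube n, sh = fun ω₂ ω₃ =>
    gq (fun _ => false) (fun l => η l ω₂) (H ω₃) (Function.update b l fun _ => false) := ⟨_, rfl⟩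
  have h1 : (av fun u : Fin c → Bool => av fun ω₂ => av fun ω₃ => av fun ω₁ =>
      f (xo (Y (gq (fun _ => false) (fun l => η l ω₂) (H ω₃) (Function.update b l u)) ω₁)
        (gq (fun _ => false) (fun l => η l ω₂) (H ω₃) (Function.update b l u)))) =
      av fun ω₂ => av fun ω₃ => av fun ω₁ => av fun u : Fin c → Bool =>
        f (xo (Y (mq (sh ω₂ ω₃) (η l ω₂) (uv u (H ω₃))) ω₁)
          (mq (sh ω₂ ω₃) (η l ω₂) (uv u (H ω₃)))) := by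
    rw [av_comm]
    congr 1
    funext ω₂
    rw [av_comm]
    congr 1
    funext ω₃
    rw [av_comm]
    congr 1
    funext ω₁
    congr 1
    funext u
    rw [gq_update, bg_xo0, hsh]
  rw [h1]
  have h2 : ∀ ω₂, ‖(av fun ω₃ => av fun ω₁ => av fun u : Fin c → Bool =>
        f (xo (Y (mq (sh ω₂ ω₃) (η l ω₂) (uv u (H ω₃))) ω₁)
          (mq (sh ω₂ ω₃) (η l ω₂) (uv u (H ω₃))))) -
      av fun ω₃ => av fun ω₁ => av fun u : Fin c → Bool =>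
        f (mq (xo (Y (sh ω₂ ω₃) ω₁) (sh ω₂ ω₃)) (η l ω₂) (uv u (H ω₃)))‖ ≤
      2 * one (¬ Disjoint (η l ω₂) D) := by
    intro ω₂
    by_cases hdis : Disjoint (η l ω₂) D
    · rw [one_false (not_not.2 hdis), mul_zero]
      refine le_of_eq ?_
      rw [norm_eq_zero, sub_eq_zero]
      congr 1
      funext ω₃
      congr 1
      funext ω₁
      congr 1
      funext u
      have h3 : Y (mq (sh ω₂ ω₃) (η l ω₂) (uv u (H ω₃))) = Y (sh ω₂ ω₃) :=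
        hYD _ _ fun i hi => bg_off _ _ (Finset.disjoint_right.1 hdis hi)
      rw [h3, bg_xo_mq]
    · rw [one_true hdis, mul_one]
      refine (norm_sub_le _ _).trans ?_
      have a1 : ∀ F : Ω₃ → Ω₁ → (Fin c → Bool) → Cube n,
          ‖av fun ω₃ => av fun ω₁ => av fun u : Fin c → Bool => f (F ω₃ ω₁ u)‖ ≤ 1 := fun F =>
        yma_norm_av fun ω₃ => yma_norm_av fun ω₁ => yma_norm_av fun u => hf _
      have a2 := a1 fun ω₃ ω₁ u => xo (Y (mq (sh ω₂ ω₃) (η l ω₂) (uv u (H ω₃))) ω₁)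
          (mq (sh ω₂ ω₃) (η l ω₂) (uv u (H ω₃)))
      have a3 := a1 fun ω₃ ω₁ u => mq (xo (Y (sh ω₂ ω₃) ω₁) (sh ω₂ ω₃)) (η l ω₂) (uv u (H ω₃))
      linarith
  have h3 := h sh
  obtain ⟨A, hA⟩ : ∃ A : Ω₂ → ℂ, A = fun ω₂ => av fun ω₃ => av fun ω₁ =>
      av fun u : Fin c → Bool => f (xo (Y (mq (sh ω₂ ω₃) (η l ω₂) (uv u (H ω₃))) ω₁)
          (mq (sh ω₂ ω₃) (η l ω₂) (uv u (H ω₃)))) := ⟨_, rfl⟩
  obtain ⟨B, hB⟩ : ∃ B : Ω₂ → ℂ, B = fun ω₂ => av fun ω₃ => av fun ω₁ =>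
      av fun u : Fin c → Bool =>
        f (mq (xo (Y (sh ω₂ ω₃) ω₁) (sh ω₂ ω₃)) (η l ω₂) (uv u (H ω₃))) := ⟨_, rfl⟩
  have h4 : ∀ ω₂, ‖A ω₂ - B ω₂‖ ≤ 2 * one (¬ Disjoint (η l ω₂) D) := by
    intro ω₂
    rw [hA, hB]
    exact h2 ω₂
  have h5 : ‖av B‖ ≤ ε := by
    rw [hB]
    exact h3
  have h6 : ‖av A - av B‖ ≤ 2 * ε' := by
    rw [← yma_av_sub]
    refine (norm_av_le _).trans ((avg_mono h4).trans ?_)
    rw [avg_mul_left]
    linarith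
  have h7 : ‖av A‖ ≤ ε + 2 * ε' := by
    calc ‖av A‖ = ‖av B + (av A - av B)‖ := by ring_nf
      _ ≤ ε + 2 * ε' := (norm_add_le _ _).trans (add_le_add h5 h6)
  rw [hA] at h7
  exact h7

end pqc

/-- A small set is avoided. -/
theorem miss_hit {Ω : Type} [Fintype Ω] [Nonempty Ω] {p δ : ℝ} {η : Ω → Finset (Fin n)}
    (hη : Miss 1 p δ η) (D : Finset (Fin n)) :
    (avg fun ω => one (¬ Disjoint (η ω) D)) ≤ D.card * (p + δ) := by
  classical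
  have h1 : ∀ ω, one (¬ Disjoint (η ω) D) ≤ ∑ i ∈ D, one (¬ Disjoint (η ω) {i}) := by
    intro ω
    have hnn : ∀ i ∈ D, 0 ≤ one (¬ Disjoint (η ω) {i}) := fun i _ => one_nonneg _
    by_cases hd : Disjoint (η ω) D
    · rw [one_false (not_not.2 hd)]
      exact Finset.sum_nonneg hnn
    · rw [one_true hd]
      obtain ⟨i, hi, hi2⟩ := Finset.not_disjoint_iff.1 hd
      have h2 := Finset.single_le_sum hnn hi2
      rw [one_true (fun h => (Finset.disjoint_singleton_right.1 h) hi)] at h2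
      exact h2
  refine (avg_mono h1).trans ?_
  rw [avg_sum]
  have h3 : ∀ i ∈ D, (avg fun ω => one (¬ Disjoint (η ω) {i})) ≤ p + δ := by
    intro i _
    rw [xht_not]
    have h4 := (abs_le.1 (hη {i} (by simp))).1
    rw [Finset.card_singleton, pow_one] at h4
    linarith
  calc ∑ i ∈ D, (avg fun ω => one (¬ Disjoint (η ω) {i})) ≤ ∑ _i ∈ D, (p + δ) :=
        Finset.sum_le_sum h3
    _ = D.card * (p + δ) := by rw [Finset.sum_const, nsmul_eq_mul]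

/-! ## The energy -/

theorem bg_wide (k c : ℕ) (h : 2 * c < k) :
    (k : ℝ) * (1 / 2 : ℝ) ^ k ≤ 2 * (1 / 2 : ℝ) ^ c := by
  obtain ⟨j, rfl⟩ : ∃ j, k = c + j := ⟨k - c, by omega⟩
  have h1 : ((c + j : ℕ) : ℝ) ≤ 2 * j := by
    have : c + j ≤ 2 * j := by omega
    exact_mod_cast this
  have h2 : (j : ℝ) ≤ 2 ^ j := by exact_mod_cast (Nat.lt_two_pow_self (n := j)).le
  have h3 : (j : ℝ) * (1 / 2) ^ j ≤ 1 := by
    calc (j : ℝ) * (1 / 2) ^ j ≤ 2 ^ j * (1 / 2) ^ j :=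
          mul_le_mul_of_nonneg_right h2 (by positivity)
      _ = 1 := by rw [← mul_pow]; norm_num
  calc ((c + j : ℕ) : ℝ) * (1 / 2 : ℝ) ^ (c + j) ≤ 2 * j * (1 / 2) ^ (c + j) :=
        mul_le_mul_of_nonneg_right h1 (by positivity)
    _ = 2 * (j * (1 / 2) ^ j) * (1 / 2) ^ c := by rw [pow_add]; ring
    _ ≤ 2 * 1 * (1 / 2) ^ c := by
        refine mul_le_mul_of_nonneg_right ?_ (by positivity)
        linarith
    _ = 2 * (1 / 2 : ℝ) ^ c := by ring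

/-- The wide monomials have bounded energy. -/
theorem bg_cut {r : ℕ} {M : Finset (Finset (Fin n))} {ζ : Finset (Fin n) → ℂ} (hM : Xp.Rd r M)
    (h0 : ∀ m ∈ M, m ≠ ∅) (hζ : ∀ m ∈ M, ‖ζ m‖ = 1) :
    ∑ m ∈ M, (m.card : ℝ) * (1 / 2 : ℝ) ^ m.card * ‖1 - ζ m‖ ^ 2 ≤
      ∑ m ∈ M.filter (fun m => m.card ≤ 2 * Nat.clog 2 n),
        (m.card : ℝ) * (1 / 2 : ℝ) ^ m.card * ‖1 - ζ m‖ ^ 2 + 8 * r := by
  rw [← Finset.sum_filter_add_sum_filter_not M fun m => m.card ≤ 2 * Nat.clog 2 n]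
  refine add_le_add le_rfl ?_
  have h1 : ∀ m ∈ M.filter (fun m => ¬ m.card ≤ 2 * Nat.clog 2 n),
      (m.card : ℝ) * (1 / 2 : ℝ) ^ m.card * ‖1 - ζ m‖ ^ 2 ≤ 8 * (1 / 2 : ℝ) ^ Nat.clog 2 n := by
    intro m hm
    have hm' := Finset.mem_filter.1 hm
    have h2 := bg_wide m.card (Nat.clog 2 n) (by omega)
    have h3 : ‖1 - ζ m‖ ≤ 2 := by
      calc ‖1 - ζ m‖ ≤ ‖(1 : ℂ)‖ + ‖ζ m‖ := norm_sub_le _ _
        _ = 2 := by rw [hζ m hm'.1, norm_one]; norm_num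
    have h4 : ‖1 - ζ m‖ ^ 2 ≤ 4 := by nlinarith [norm_nonneg (1 - ζ m)]
    calc (m.card : ℝ) * (1 / 2 : ℝ) ^ m.card * ‖1 - ζ m‖ ^ 2 ≤
          2 * (1 / 2 : ℝ) ^ Nat.clog 2 n * 4 :=
          mul_le_mul h2 h4 (by positivity) (by positivity)
      _ = 8 * (1 / 2 : ℝ) ^ Nat.clog 2 n := by ring
  have h2 : ((M.filter fun m => ¬ m.card ≤ 2 * Nat.clog 2 n).card : ℝ) ≤ r * n := by
    have h3 := (card_le_card (filter_subset (fun m => ¬ m.card ≤ 2 * Nat.clog 2 n) M)).trans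
      (yma_card h0 hM)
    exact_mod_cast h3
  have h3 : (n : ℝ) * (1 / 2 : ℝ) ^ Nat.clog 2 n ≤ 1 := by
    calc (n : ℝ) * (1 / 2 : ℝ) ^ Nat.clog 2 n ≤ 2 ^ Nat.clog 2 n * (1 / 2 : ℝ) ^ Nat.clog 2 n :=
          mul_le_mul_of_nonneg_right (yma_clog' n) (by positivity)
      _ = 1 := by rw [← mul_pow]; norm_num
  calc ∑ m ∈ M.filter (fun m => ¬ m.card ≤ 2 * Nat.clog 2 n),
        (m.card : ℝ) * (1 / 2 : ℝ) ^ m.card * ‖1 - ζ m‖ ^ 2 ≤
        ∑ _m ∈ M.filter (fun m => ¬ m.card ≤ 2 * Nat.clog 2 n), 8 * (1 / 2 : ℝ) ^ Nat.clog 2 n :=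
        Finset.sum_le_sum h1
    _ = (M.filter fun m => ¬ m.card ≤ 2 * Nat.clog 2 n).card * (8 * (1 / 2 : ℝ) ^ Nat.clog 2 n) := by
        rw [Finset.sum_const, nsmul_eq_mul]
    _ ≤ r * n * (8 * (1 / 2 : ℝ) ^ Nat.clog 2 n) :=
        mul_le_mul_of_nonneg_right h2 (by positivity)
    _ = 8 * r * (n * (1 / 2 : ℝ) ^ Nat.clog 2 n) := by ring
    _ ≤ 8 * r * 1 := mul_le_mul_of_nonneg_left h3 (by positivity)
    _ = 8 * r := mul_one _

theorem bg_pow (p : ℝ) (hp : 0 ≤ p) (hp1 : p ≤ 1) (k : ℕ) :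
    k * p / (1 + k * p) ≤ 1 - (1 - p) ^ k := by
  have h1 : 1 + (k : ℝ) * p ≤ (1 + p) ^ k := one_add_mul_le_pow (by linarith) k
  have h2 : (1 - p) ^ k * (1 + p) ^ k ≤ 1 := by
    rw [← mul_pow]
    refine pow_le_one₀ (by nlinarith) (by nlinarith)
  have h3 : (0 : ℝ) ≤ k * p := by positivity
  have h4 : (0 : ℝ) ≤ (1 - p) ^ k := pow_nonneg (by linarith) k
  have h5 : (1 - p) ^ k * (1 + k * p) ≤ 1 := (mul_le_mul_of_nonneg_left h1 h4).trans h2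
  rw [div_le_iff₀ (by linarith)]
  nlinarith

/-- The mass at rate `p` and the energy. -/
theorem bg_mw {W : ℕ} {M : Finset (Finset (Fin n))} {ζ : Finset (Fin n) → ℂ} {p : ℝ} (hp : 0 ≤ p)
    (hp1 : p ≤ 1) (hW : ∀ m ∈ M, m.card ≤ W) :
    p * (∑ m ∈ M, (m.card : ℝ) * (1 / 2 : ℝ) ^ m.card * ‖1 - ζ m‖ ^ 2) ≤
      4 * (1 + W * p) * mw p (gap ζ) M := by
  unfold mw
  rw [Finset.mul_sum, Finset.mul_sum]
  refine Finset.sum_le_sum fun m hm => ?_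
  have h1 := bg_pow p hp hp1 m.card
  have hk : (m.card : ℝ) ≤ W := by exact_mod_cast hW m hm
  have h3 : (0 : ℝ) ≤ m.card * p := by positivity
  rw [div_le_iff₀ (by linarith)] at h1
  have h4 : (0 : ℝ) ≤ 1 - (1 - p) ^ m.card := by
    have : (1 - p) ^ m.card ≤ 1 := pow_le_one₀ (by linarith) (by linarith)
    linarith
  have h5 : (m.card : ℝ) * p ≤ (1 - (1 - p) ^ m.card) * (1 + W * p) := by
    refine h1.trans (mul_le_mul_of_nonneg_left ?_ h4)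
    nlinarith
  have h6 : (0 : ℝ) ≤ (1 / 2 : ℝ) ^ m.card * ‖1 - ζ m‖ ^ 2 := by positivity
  calc p * ((m.card : ℝ) * (1 / 2 : ℝ) ^ m.card * ‖1 - ζ m‖ ^ 2) =
        ((m.card : ℝ) * p) * ((1 / 2 : ℝ) ^ m.card * ‖1 - ζ m‖ ^ 2) := by ring
    _ ≤ ((1 - (1 - p) ^ m.card) * (1 + W * p)) * ((1 / 2 : ℝ) ^ m.card * ‖1 - ζ m‖ ^ 2) :=
        mul_le_mul_of_nonneg_right h5 h6
    _ = 4 * (1 + W * p) * (gap ζ m * ((1 / 2 : ℝ) ^ m.card * (1 - (1 - p) ^ m.card))) := by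
        unfold gap
        ring

/-! ## The sources fool the products of large energy -/

theorem bg_xo_comm (y s t : Cube n) : xo (xo y t) s = xo (xo y s) t := by
  funext i
  unfold xo
  cases y i <;> cases s i <;> cases t i <;> rfl

end Pool.Agent.MP_ca1109_lc.Xd
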