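import Pool.Agent.MP_ca1109_lc.Xd.Defs
import Pool.Agent.MP_ca1109_lc.Xa.MA3
import Pool.Agent.MP_ca1109_lc.Xv.GP

/-!
# Decision trees on top: the sources with a conditioned first string
-/

namespace Pool.Agent.MP_ca1109_lc.Xd

open Finset Pool.Agent.H66 Pool.Agent.MP_ca1109_lc.Mpg Pool.Agent.MP_ca1109_lc.Agp
open Pool.Agent.MP_ca1109_lc.Dnf (Cube ch one Term)
open Pool.Agent.MP_ca1109_lc.Xp (Sp Bias xo fl Src mv Ph gx ph_unif gx_update av_update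
  ma_norm_av ma_av_sub ma_av_mul_left ma_av_diff ma_av_close ma_av_const ma_clog ma_clog' ma_pow
  ma_level)
open Pool.Agent.MP_ca1109_lc.Xl (Tr pr Rd Fam A1 Red wb mb_half mb_four mb_big ml_factor ml_norm_pr
  ml_pr_one ml_sum ml_drop A1_le_card card_le reduce)
open Pool.Agent.MP_ca1109_lc.Xg (hx)
open Pool.Agent.MP_ca1109_lc.Xa (hh en hh_norm hh_diff2 mh_caseII3 foolI3 mh_vb3 mh_two mh_drop
  mh_empty en_mono hv_drop)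
open Pool.Agent.MP_ca1109_lc.Xv (BPy)

variable {n : ℕ} {ι κ μ : Type} [DecidableEq ι] [DecidableEq κ] [DecidableEq μ]

/-! ## Averages over the sources -/

theorem xo_mv {B : ℕ} (y s : Cube n) (η : Finset (Fin n)) (h : Fin n → Fin B) (u : Fin B → Bool) :
    xo y (mv s η h u) = mv (xo y s) η h u := by
  funext i
  unfold xo Xp.mv
  exact (Bool.xor_assoc _ _ _).symm

theorem mv_off {B : ℕ} (s : Cube n) {η : Finset (Fin n)} (h : Fin n → Fin B) (u : Fin B → Bool)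
    {i : Fin n} (hi : i ∉ η) : mv s η h u i = s i := by
  unfold Xp.mv
  simp [hi]

/-- A small set is avoided by the random set. -/
theorem src_disj {Ω : Type} [Fintype Ω] [Nonempty Ω] {B : ℕ} {p δ : ℝ} {η : Ω → Finset (Fin n)}
    {h : Ω → Fin n → Fin B} (hS : Src p δ η h) (D : Finset (Fin n)) :
    (avg fun ω => one (¬ Disjoint D (η ω))) ≤ D.card * (p + δ) := by
  classical
  have h1 : ∀ ω, one (¬ Disjoint D (η ω)) ≤ ∑ i ∈ D, one ({i} ⊆ η ω) := by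
    intro ω
    have hnn : ∀ i ∈ D, 0 ≤ one (({i} : Finset (Fin n)) ⊆ η ω) := fun i _ => Dnf.one_nonneg _
    by_cases hd : Disjoint D (η ω)
    · rw [Dnf.one_false (not_not.2 hd)]
      exact Finset.sum_nonneg hnn
    · rw [Dnf.one_true hd]
      obtain ⟨i, hi, hi2⟩ := Finset.not_disjoint_iff.1 hd
      have h2 := Finset.single_le_sum hnn hi
      rw [Dnf.one_true (Finset.singleton_subset_iff.2 hi2)] at h2
      exact h2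
  refine (avg_mono h1).trans ?_
  rw [avg_sum]
  have h3 : ∀ i ∈ D, (avg fun ω => one (({i} : Finset (Fin n)) ⊆ η ω)) ≤ p + δ := by
    intro i _
    have h4 := (abs_le.1 (hS.sub {i})).2
    rw [Finset.card_singleton, pow_one] at h4
    linarith
  calc ∑ i ∈ D, (avg fun ω => one (({i} : Finset (Fin n)) ⊆ η ω)) ≤ ∑ _i ∈ D, (p + δ) :=
        Finset.sum_le_sum h3
    _ = D.card * (p + δ) := by rw [Finset.sum_const, nsmul_eq_mul]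

section ph

variable {L B : ℕ} {Ω₁ Ω₂ : Type} [Fintype Ω₁] [Nonempty Ω₁] [Fintype Ω₂] [Nonempty Ω₂]
  (Y : Cube n → Ω₁ → Cube n) (η : Fin L → Ω₂ → Finset (Fin n)) (h : Ω₂ → Fin n → Fin B)

omit [Nonempty Ω₁] in
theorem phc_close {f g : Cube n → ℂ} {c : ℝ}
    (H : ∀ t s : Cube n, ‖(av fun ω₁ => f (xo (Y t ω₁) s)) - av fun ω₁ => g (xo (Y t ω₁) s)‖ ≤ c) :
    ‖Phc Y η h f - Phc Y η h g‖ ≤ c := by
  unfold Phc
  refine ma_av_close fun v => ma_av_close fun ω₂ => ?_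
  have h1 := H (gx (fun _ => false) (fun l => η l ω₂) (h ω₂) v)
    (gx (fun _ => false) (fun l => η l ω₂) (h ω₂) v)
  exact h1

omit [Nonempty Ω₁] in
theorem phc_const {f : Cube n → ℂ} {a : ℂ} {c : ℝ}
    (H : ∀ t s : Cube n, ‖(av fun ω₁ => f (xo (Y t ω₁) s)) - a‖ ≤ c) :
    ‖Phc Y η h f - a‖ ≤ c := by
  have h0 : a = av fun _v : Fin L → Fin B → Bool => av fun _ω₂ : Ω₂ => a := by
    simp only [ma_av_const]
  rw [h0]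
  unfold Phc
  refine ma_av_close fun v => ma_av_close fun ω₂ => ?_
  have h1 := H (gx (fun _ => false) (fun l => η l ω₂) (h ω₂) v)
    (gx (fun _ => false) (fun l => η l ω₂) (h ω₂) v)
  exact h1

omit [Nonempty Ω₁] [Nonempty Ω₂] in
theorem phc_mul (c : ℂ) (f : Cube n → ℂ) : Phc Y η h (fun x => c * f x) = c * Phc Y η h f := by
  unfold Phc
  simp only [ma_av_mul_left]

omit [Nonempty Ω₁] [Nonempty Ω₂] in
/-- One level is averaged first. -/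
theorem phc_level (l : Fin L) (f : Cube n → ℂ) : Phc Y η h f =
    av fun v : Fin L → Fin B → Bool => av fun ω₂ => av fun u : Fin B → Bool => av fun ω₁ =>
      f (xo (Y (mv (gx (fun _ => false) (fun l => η l ω₂) (h ω₂)
        (Function.update v l fun _ => false)) (η l ω₂) (h ω₂) u) ω₁)
        (mv (gx (fun _ => false) (fun l => η l ω₂) (h ω₂)
        (Function.update v l fun _ => false)) (η l ω₂) (h ω₂) u)) := by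
  have h0 : ∀ s : Cube n, xo (fun _ => false) s = s := by
    intro s
    funext i
    unfold xo
    simp
  unfold Phc
  rw [av_update l]
  congr 1
  funext v
  rw [av_comm]
  congr 1
  funext ω₂
  congr 1
  funext u
  rw [gx_update, h0]

end ph

/-! ## The second case -/

theorem phc_caseII {q r k : ℕ} {K V ε ε' ε₃ : ℝ} {t s C : ℕ} (ht : 1 ≤ t)
    (hcore : ∀ (n W : ℕ) {ι : Type} [DecidableEq ι] (T : ι → Term n) (M : Finset ι)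
      (ζ : ι → ℂ), Fam r W T M → 1 ≤ W → (∀ m ∈ M, ζ m ^ q = 1) → Red T ζ M →
      ∀ p δ : ℝ, 0 < p → p ≤ 1 → t ≤ p * A1 T M → p * A1 T M ≤ 2 * t → C * p * W ≤ 1 → 0 ≤ δ →
      C * δ * ((n : ℝ) + 1) ^ 2 * 4 ^ W ≤ 1 →
      ∀ {Ω₁ Ω₂ : Type} [Fintype Ω₁] [Nonempty Ω₁] [Fintype Ω₂] [Nonempty Ω₂]
        (Z : Ω₂ → Ω₁ → Cube n) (η : Ω₂ → Finset (Fin n)) (h : Ω₂ → Fin n → Fin (2 ^ s)),
        (∀ ω₂, Bias δ (Z ω₂)) → Src p δ η h →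
        (avg fun ω₂ => avg fun ω₁ =>
          ‖av fun u : Fin (2 ^ s) → Bool => pr T ζ M (mv (Z ω₂ ω₁) (η ω₂) (h ω₂) u)‖) ≤ ε)
    (hvb : ∀ (n W : ℕ) {κ μ : Type}
      [DecidableEq κ] [DecidableEq μ] (T : κ → Term n) (M : Finset κ) (ξ : κ → ℂ)
      (U : μ → Term n) (H : Finset μ) (ψ : Finset μ → ℂ), Fam r W T M → 1 ≤ W →
      (∀ m ∈ M, ‖ξ m‖ = 1) → en T ξ M ≤ V → (∀ m ∈ H, (U m).S.card ≤ W) →
      ∑ m ∈ H, (1 / 2 : ℝ) ^ (U m).S.card ≤ K → (∀ A, ‖ψ A‖ ≤ 1) →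
      ∀ p δ : ℝ, 0 < p → p ≤ 1 → C * p * W ≤ 1 → 0 ≤ δ → C * δ * ((n : ℝ) + 1) ^ 2 * 4 ^ W ≤ 1 →
      ∀ {Ω₁ Ω₂ : Type} [Fintype Ω₁] [Nonempty Ω₁] [Fintype Ω₂] [Nonempty Ω₂] {B : ℕ}
        (Z : Ω₂ → Ω₁ → Cube n) (η : Ω₂ → Finset (Fin n)) (h : Ω₂ → Fin n → Fin B),
        (∀ ω₂, Bias δ (Z ω₂)) → Src p δ η h →
        (avg fun ω₂ => avg fun ω₁ => avg fun u : Fin B → Bool =>
          ‖hh T ξ M U H ψ (mv (Z ω₂ ω₁) (η ω₂) (h ω₂) u) - hh T ξ M U H ψ (Z ω₂ ω₁)‖) ≤ ε')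
    {n W : ℕ} {T : ι → Term n} {M : Finset ι} {ζ : ι → ℂ} (hM : Fam r W T M)
    (hW : 1 ≤ W) (hζ : ∀ m ∈ M, ζ m ^ q = 1) (hζ1 : ∀ m ∈ M, ‖ζ m‖ = 1) (hR : Red T ζ M)
    (hA : (((2 * t * C + t) * W : ℕ) : ℝ) ≤ A1 T M)
    {T' : κ → Term n} {M' : Finset κ} {ξ : κ → ℂ} (hM' : Fam r W T' M')
    (hξ : ∀ m ∈ M', ‖ξ m‖ = 1) (hen : en T' ξ M' ≤ V)
    {U : μ → Term n} {H : Finset μ} {ψ : Finset μ → ℂ} (hHW : ∀ m ∈ H, (U m).S.card ≤ W)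
    (hHK : ∑ m ∈ H, (1 / 2 : ℝ) ^ (U m).S.card ≤ K) (hψ : ∀ A, ‖ψ A‖ ≤ 1)
    {δ : ℝ} (hδ : 0 ≤ δ)
    (hCδ : C * δ * ((n : ℝ) + 1) ^ 2 * 4 ^ W ≤ 1)
    {Ω₂ : Type} [Fintype Ω₂] [Nonempty Ω₂]
    (η : Fin (Nat.clog 2 n + r + 1) → Ω₂ → Finset (Fin n)) (h : Ω₂ → Fin n → Fin (2 ^ s))
    (hS : ∀ l : Fin (Nat.clog 2 n + r + 1), Src ((1 / 2 : ℝ) ^ (l : ℕ)) δ (η l) h)
    {Ω₁ : Type} [Fintype Ω₁] [Nonempty Ω₁] (Y : Cube n → Ω₁ → Cube n) (hY : ∀ t, Bias δ (Y t))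
    (Lf : Finset (Fin n)) (hLf : Lf.card ≤ k * W)
    (hYL : ∀ t t', (∀ i ∈ Lf, t i = t' i) → Y t = Y t') (hε₃ : 0 < ε₃)
    (hC₅ : 32 * (k : ℝ) ≤ ε₃ * C) :
    ‖Phc Y η h (fun x => pr T ζ M x * hh T' ξ M' U H ψ x)‖ ≤ ε + ε' + ε₃ / 16 := by
  have hW' : (1 : ℝ) ≤ W := by exact_mod_cast hW
  have ht' : (1 : ℝ) ≤ t := by exact_mod_cast ht
  have hC' : (0 : ℝ) ≤ C := Nat.cast_nonneg C
  push_cast at hA
  have hA1 : (t : ℝ) ≤ A1 T M := by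
    have h1 : (0 : ℝ) ≤ 2 * t * C * W := by positivity
    have h2 : (t : ℝ) * 1 ≤ t * W := mul_le_mul_of_nonneg_left hW' (by linarith)
    linarith only [hA, h1, h2]
  obtain ⟨l, h1, h2, h3⟩ := ma_level ht hA1
  -- the level exists
  have hl : l < Nat.clog 2 n + r + 1 := by
    have h4 : A1 T M ≤ r * n := (A1_le_card T M).trans (by exact_mod_cast card_le hM.ne hM.rd)
    have h5 : (2 : ℝ) ^ l ≤ 2 ^ (Nat.clog 2 n + r) := by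
      refine h3.trans (h4.trans ?_)
      rw [pow_add, mul_comm]
      have h6 : (r : ℝ) ≤ 2 ^ r := by exact_mod_cast Nat.lt_two_pow_self.le
      exact mul_le_mul (ma_clog' n) h6 (Nat.cast_nonneg _) (by positivity)
    have h7 : l ≤ Nat.clog 2 n + r := (pow_le_pow_iff_right₀ (by norm_num)).1 h5
    omega
  have hp : (0 : ℝ) < (1 / 2) ^ l := by positivity
  have hp1 : ((1 : ℝ) / 2) ^ l ≤ 1 := pow_le_one₀ (by norm_num) (by norm_num)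
  have hCp : (C : ℝ) * (1 / 2) ^ l * W ≤ 1 := by
    have h4 : 2 * t * (C * (1 / 2 : ℝ) ^ l * W) ≤ 2 * t * 1 := by
      calc 2 * t * (C * (1 / 2 : ℝ) ^ l * W) = (1 / 2 : ℝ) ^ l * (2 * t * C * W) := by ring
        _ ≤ (1 / 2 : ℝ) ^ l * A1 T M := by
          refine mul_le_mul_of_nonneg_left ?_ hp.le
          have h5 : (0 : ℝ) ≤ t * W := by positivity
          linarith only [hA, h5]
        _ ≤ 2 * t * 1 := by linarith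
    exact le_of_mul_le_mul_left h4 (by linarith)
  rw [phc_level Y η h ⟨l, hl⟩]
  refine ma_norm_av fun v => ?_
  obtain ⟨s₀, hs₀⟩ : ∃ s₀ : Ω₂ → Cube n, s₀ = fun ω₂ =>
      gx (fun _ => false) (fun l => η l ω₂) (h ω₂) (Function.update v ⟨l, hl⟩ fun _ => false) :=
    ⟨_, rfl⟩
  obtain ⟨Z, hZ⟩ : ∃ Z : Ω₂ → Ω₁ → Cube n, Z = fun ω₂ ω₁ => xo (Y (s₀ ω₂) ω₁) (s₀ ω₂) :=
    ⟨_, rfl⟩
  have hZb : ∀ ω₂, Bias δ (Z ω₂) := fun ω₂ => by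
    rw [hZ]
    exact (hY _).xo _
  have key := hcore n W T M ζ hM hW hζ hR ((1 / 2) ^ l) δ hp hp1 h1 h2 hCp hδ hCδ
    Z (η ⟨l, hl⟩) h hZb (hS ⟨l, hl⟩)
  have key2 := hvb n W T' M' ξ U H ψ hM' hW hξ hen hHW hHK hψ ((1 / 2) ^ l) δ hp hp1 hCp hδ hCδ
    Z (η ⟨l, hl⟩) h hZb (hS ⟨l, hl⟩)
  have h5 : ∀ ω₂ ω₁, ‖av fun u : Fin (2 ^ s) → Bool =>
      pr T ζ M (mv (Z ω₂ ω₁) (η ⟨l, hl⟩ ω₂) (h ω₂) u) *
        hh T' ξ M' U H ψ (mv (Z ω₂ ω₁) (η ⟨l, hl⟩ ω₂) (h ω₂) u)‖ ≤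
      ‖av fun u : Fin (2 ^ s) → Bool => pr T ζ M (mv (Z ω₂ ω₁) (η ⟨l, hl⟩ ω₂) (h ω₂) u)‖ +
        avg fun u : Fin (2 ^ s) → Bool =>
          ‖hh T' ξ M' U H ψ (mv (Z ω₂ ω₁) (η ⟨l, hl⟩ ω₂) (h ω₂) u) - hh T' ξ M' U H ψ (Z ω₂ ω₁)‖ := by
    intro ω₂ ω₁
    have h6 : ‖(av fun u : Fin (2 ^ s) → Bool =>
        pr T ζ M (mv (Z ω₂ ω₁) (η ⟨l, hl⟩ ω₂) (h ω₂) u) *
          hh T' ξ M' U H ψ (mv (Z ω₂ ω₁) (η ⟨l, hl⟩ ω₂) (h ω₂) u)) -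
        av fun u : Fin (2 ^ s) → Bool =>
          hh T' ξ M' U H ψ (Z ω₂ ω₁) * pr T ζ M (mv (Z ω₂ ω₁) (η ⟨l, hl⟩ ω₂) (h ω₂) u)‖ ≤
        avg fun u : Fin (2 ^ s) → Bool =>
          ‖hh T' ξ M' U H ψ (mv (Z ω₂ ω₁) (η ⟨l, hl⟩ ω₂) (h ω₂) u) - hh T' ξ M' U H ψ (Z ω₂ ω₁)‖ := by
      refine ma_av_diff fun u => ?_
      rw [mul_comm (hh T' ξ M' U H ψ (Z ω₂ ω₁)), ← mul_sub, norm_mul, ml_norm_pr hζ1, one_mul]
    rw [ma_av_mul_left] at h6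
    have h7 : ‖hh T' ξ M' U H ψ (Z ω₂ ω₁) *
        av fun u : Fin (2 ^ s) → Bool => pr T ζ M (mv (Z ω₂ ω₁) (η ⟨l, hl⟩ ω₂) (h ω₂) u)‖ ≤
        ‖av fun u : Fin (2 ^ s) → Bool => pr T ζ M (mv (Z ω₂ ω₁) (η ⟨l, hl⟩ ω₂) (h ω₂) u)‖ := by
      rw [norm_mul]
      exact mul_le_of_le_one_left (norm_nonneg _) (hh_norm hξ hψ _)
    have h8 := norm_sub_norm_le (av fun u : Fin (2 ^ s) → Bool =>
        pr T ζ M (mv (Z ω₂ ω₁) (η ⟨l, hl⟩ ω₂) (h ω₂) u) *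
          hh T' ξ M' U H ψ (mv (Z ω₂ ω₁) (η ⟨l, hl⟩ ω₂) (h ω₂) u))
        (hh T' ξ M' U H ψ (Z ω₂ ω₁) *
        av fun u : Fin (2 ^ s) → Bool => pr T ζ M (mv (Z ω₂ ω₁) (η ⟨l, hl⟩ ω₂) (h ω₂) u))
    linarith
  obtain ⟨F, hF⟩ : ∃ F : Cube n → ℂ, F = fun x => pr T ζ M x * hh T' ξ M' U H ψ x := ⟨_, rfl⟩
  have hF1 : ∀ x, ‖F x‖ ≤ 1 := fun x => by
    rw [hF]
    show ‖pr T ζ M x * hh T' ξ M' U H ψ x‖ ≤ 1
    rw [norm_mul, ml_norm_pr hζ1, one_mul]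
    exact hh_norm hξ hψ _
  have h9 : ∀ ω₂, ‖av fun u : Fin (2 ^ s) → Bool => av fun ω₁ =>
      F (xo (Y (mv (s₀ ω₂) (η ⟨l, hl⟩ ω₂) (h ω₂) u) ω₁) (mv (s₀ ω₂) (η ⟨l, hl⟩ ω₂) (h ω₂) u))‖ ≤
      (avg fun ω₁ => ‖av fun u : Fin (2 ^ s) → Bool =>
        F (mv (Z ω₂ ω₁) (η ⟨l, hl⟩ ω₂) (h ω₂) u)‖) + one (¬ Disjoint Lf (η ⟨l, hl⟩ ω₂)) := by
    intro ω₂
    by_cases hd : Disjoint Lf (η ⟨l, hl⟩ ω₂)
    · rw [Dnf.one_false (not_not.2 hd), add_zero]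
      have h11 : ∀ u : Fin (2 ^ s) → Bool, Y (mv (s₀ ω₂) (η ⟨l, hl⟩ ω₂) (h ω₂) u) = Y (s₀ ω₂) :=
        fun u => hYL _ _ fun i hi => mv_off _ _ _ (Finset.disjoint_left.1 hd hi)
      have h12 : (av fun u : Fin (2 ^ s) → Bool => av fun ω₁ =>
          F (xo (Y (mv (s₀ ω₂) (η ⟨l, hl⟩ ω₂) (h ω₂) u) ω₁)
            (mv (s₀ ω₂) (η ⟨l, hl⟩ ω₂) (h ω₂) u))) =
          av fun ω₁ => av fun u : Fin (2 ^ s) → Bool =>
            F (mv (Z ω₂ ω₁) (η ⟨l, hl⟩ ω₂) (h ω₂) u) := by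
        rw [av_comm]
        congr 1
        funext ω₁
        congr 1
        funext u
        rw [h11, hZ, xo_mv]
      rw [h12]
      exact norm_av_le _
    · rw [Dnf.one_true hd]
      have h11 : ‖av fun u : Fin (2 ^ s) → Bool => av fun ω₁ =>
          F (xo (Y (mv (s₀ ω₂) (η ⟨l, hl⟩ ω₂) (h ω₂) u) ω₁)
            (mv (s₀ ω₂) (η ⟨l, hl⟩ ω₂) (h ω₂) u))‖ ≤ 1 :=
        ma_norm_av fun u => ma_norm_av fun ω₁ => hF1 _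
      have h12 : 0 ≤ avg fun ω₁ => ‖av fun u : Fin (2 ^ s) → Bool =>
          F (mv (Z ω₂ ω₁) (η ⟨l, hl⟩ ω₂) (h ω₂) u)‖ := avg_nonneg fun ω₁ => norm_nonneg _
      linarith
  have h10 : (avg fun ω₂ => avg fun ω₁ => ‖av fun u : Fin (2 ^ s) → Bool =>
        F (mv (Z ω₂ ω₁) (η ⟨l, hl⟩ ω₂) (h ω₂) u)‖) ≤ ε + ε' := by
    rw [hF]
    refine (avg_mono fun ω₂ => avg_mono fun ω₁ => h5 ω₂ ω₁).trans ?_
    simp only [avg_add]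
    exact add_le_add key key2
  have h13 : (avg fun ω₂ => one (¬ Disjoint Lf (η ⟨l, hl⟩ ω₂))) ≤ ε₃ / 16 := by
    have h14 := src_disj (hS ⟨l, hl⟩) Lf
    have hLf' : (Lf.card : ℝ) ≤ k * W := by exact_mod_cast hLf
    have hk : (0 : ℝ) ≤ k := Nat.cast_nonneg k
    have h15 : (k : ℝ) * W * (1 / 2) ^ l ≤ ε₃ / 32 := by
      have h16 : ε₃ * (C * (1 / 2 : ℝ) ^ l * W) ≤ ε₃ * 1 := mul_le_mul_of_nonneg_left hCp hε₃.le
      have h17 : 32 * (k : ℝ) * ((1 / 2 : ℝ) ^ l * W) ≤ ε₃ * C * ((1 / 2 : ℝ) ^ l * W) :=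
        mul_le_mul_of_nonneg_right hC₅ (by positivity)
      linarith
    have h18 : (k : ℝ) * W * δ ≤ ε₃ / 32 := by
      have h19 : (W : ℝ) ≤ 4 ^ W := by exact_mod_cast (Nat.lt_pow_self (by norm_num)).le
      have h20 : ε₃ * (C * δ * ((n : ℝ) + 1) ^ 2 * 4 ^ W) ≤ ε₃ * 1 :=
        mul_le_mul_of_nonneg_left hCδ hε₃.le
      have h21 : 32 * (k : ℝ) * (δ * W) ≤ ε₃ * C * (δ * W) :=
        mul_le_mul_of_nonneg_right hC₅ (by positivity)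
      have h22 : (1 : ℝ) ≤ ((n : ℝ) + 1) ^ 2 := one_le_pow₀ (by linarith [(Nat.cast_nonneg n : (0 : ℝ) ≤ n)])
      have h23 : δ * W ≤ δ * (((n : ℝ) + 1) ^ 2 * 4 ^ W) := by
        refine mul_le_mul_of_nonneg_left ?_ hδ
        calc (W : ℝ) ≤ 4 ^ W := h19
          _ = 1 * 4 ^ W := (one_mul _).symm
          _ ≤ ((n : ℝ) + 1) ^ 2 * 4 ^ W := mul_le_mul_of_nonneg_right h22 (by positivity)
      have h24 : ε₃ * C * (δ * W) ≤ ε₃ * C * (δ * (((n : ℝ) + 1) ^ 2 * 4 ^ W)) :=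
        mul_le_mul_of_nonneg_left h23 (by positivity)
      linarith
    have h25 : (Lf.card : ℝ) * ((1 / 2) ^ l + δ) ≤ k * W * ((1 / 2) ^ l + δ) :=
      mul_le_mul_of_nonneg_right hLf' (by positivity)
    have h26 : (k : ℝ) * W * ((1 / 2) ^ l + δ) = k * W * (1 / 2) ^ l + k * W * δ := by ring
    linarith
  have h27 : ‖av fun ω₂ => av fun u : Fin (2 ^ s) → Bool => av fun ω₁ =>
      F (xo (Y (mv (s₀ ω₂) (η ⟨l, hl⟩ ω₂) (h ω₂) u) ω₁) (mv (s₀ ω₂) (η ⟨l, hl⟩ ω₂) (h ω₂) u))‖ ≤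
      ε + ε' + ε₃ / 16 := by
    refine (norm_av_le _).trans ((avg_mono h9).trans ?_)
    rw [avg_add]
    exact add_le_add h10 h13
  rw [hs₀, hF] at h27
  exact h27

/-! ## The theorem -/

theorem gxc0 (r q b k : ℕ) (hq : 0 < q) (K V : ℝ) {ε : ℝ} (hε : 0 < ε) : ∃ s KK n₀ : ℕ,
    ∀ n ≥ n₀, ∀ Lf : Finset (Fin n), Lf.card ≤ k * Nat.clog 2 n →
    ∀ {Ω₁ Ω₂ : Type} [Fintype Ω₁] [Nonempty Ω₁] [Fintype Ω₂] [Nonempty Ω₂]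
      (Y : Cube n → Ω₁ → Cube n)
      (η : Fin (Nat.clog 2 n + r + 1) → Ω₂ → Finset (Fin n))
      (h : Ω₂ → Fin n → Fin (2 ^ s)),
      (∀ t, Bias (1 / ((n : ℝ) + 1) ^ KK) (Y t)) →
      (∀ t t', (∀ i ∈ Lf, t i = t' i) → Y t = Y t') →
      (∀ l : Fin (Nat.clog 2 n + r + 1),
        Src ((1 / 2 : ℝ) ^ (l : ℕ)) (1 / ((n : ℝ) + 1) ^ KK) (η l) h) →
      ∀ {ι κ μ : Type} [DecidableEq ι] [DecidableEq κ] [DecidableEq μ]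
      (T : ι → Term n) (M : Finset ι) (ζ : ι → ℂ) (T' : κ → Term n) (M' : Finset κ) (ζ' : κ → ℂ)
      (U : μ → Term n) (H : Finset μ) (ψ : Finset μ → ℂ),
      Rd r T (M.filter fun m => (T m).S.card ≤ wb b n) → M.card ≤ n ^ b →
      (∀ m ∈ M, ζ m ^ q = 1) →
      Rd r T' (M'.filter fun m => (T' m).S.card ≤ wb b n) → M'.card ≤ n ^ b →
      (∀ m ∈ M', ‖ζ' m‖ = 1) →
      ∑ m ∈ M', (1 / 2 : ℝ) ^ (T' m).S.card * ‖1 - ζ' m‖ ^ 2 ≤ V →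
      Rd r U (H.filter fun m => (U m).S.card ≤ wb b n) → H.card ≤ n ^ b →
      ∑ m ∈ H, (1 / 2 : ℝ) ^ (U m).S.card ≤ K → (∀ A, ‖ψ A‖ ≤ 1) →
      ‖Phc Y η h (fun x => pr T ζ M x * (ψ (hx H U x) * pr T' ζ' M' x)) -
        av fun x => pr T ζ M x * (ψ (hx H U x) * pr T' ζ' M' x)‖ ≤ ε := by
  classical
  obtain ⟨ρ, hρ0, hρ1, hρ⟩ := Xp.root_gap q hq
  obtain ⟨t, s, C₃, ht, hcore⟩ := Xl.core q r hq hρ0 hρ1 hρ (show 0 < ε / 32 by positivity)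
  obtain ⟨C₄, hvb⟩ := mh_vb3 r K V (show 0 < ε / 32 by positivity)
  obtain ⟨C₂, hfool⟩ := foolI3 r K V (show 0 < ε / 8 by positivity)
  obtain ⟨C₅, hC₅⟩ := exists_nat_gt (32 * (k : ℝ) / ε)
  obtain ⟨C, hC⟩ : ∃ C : ℕ, C = C₃ + C₄ + C₅ := ⟨_, rfl⟩
  have hC₅' : 32 * (k : ℝ) ≤ ε * C := by
    rw [div_lt_iff₀ hε] at hC₅
    have h1 : (C₅ : ℝ) ≤ C := by
      rw [hC]
      push_cast
      linarith [(Nat.cast_nonneg C₃ : (0 : ℝ) ≤ C₃), (Nat.cast_nonneg C₄ : (0 : ℝ) ≤ C₄)]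
    linarith only [hC₅, mul_le_mul_of_nonneg_left h1 hε.le]
  have hC₃ : (C₃ : ℝ) ≤ C := by
    rw [hC]
    push_cast
    linarith [(Nat.cast_nonneg C₄ : (0 : ℝ) ≤ C₄), (Nat.cast_nonneg C₅ : (0 : ℝ) ≤ C₅)]
  have hC₄ : (C₄ : ℝ) ≤ C := by
    rw [hC]
    push_cast
    linarith [(Nat.cast_nonneg C₃ : (0 : ℝ) ≤ C₃), (Nat.cast_nonneg C₅ : (0 : ℝ) ≤ C₅)]
  have hcore' : ∀ (n W : ℕ) {ι : Type} [DecidableEq ι] (T : ι → Term n) (M : Finset ι)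
      (ζ : ι → ℂ), Fam r W T M → 1 ≤ W → (∀ m ∈ M, ζ m ^ q = 1) → Red T ζ M →
      ∀ p δ : ℝ, 0 < p → p ≤ 1 → t ≤ p * A1 T M → p * A1 T M ≤ 2 * t → C * p * W ≤ 1 → 0 ≤ δ →
      C * δ * ((n : ℝ) + 1) ^ 2 * 4 ^ W ≤ 1 →
      ∀ {Ω₁ Ω₂ : Type} [Fintype Ω₁] [Nonempty Ω₁] [Fintype Ω₂] [Nonempty Ω₂]
        (Z : Ω₂ → Ω₁ → Cube n) (η : Ω₂ → Finset (Fin n)) (h : Ω₂ → Fin n → Fin (2 ^ s)),
        (∀ ω₂, Bias δ (Z ω₂)) → Src p δ η h →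
        (avg fun ω₂ => avg fun ω₁ =>
          ‖av fun u : Fin (2 ^ s) → Bool => pr T ζ M (mv (Z ω₂ ω₁) (η ω₂) (h ω₂) u)‖) ≤
            ε / 32 := by
    intro n W ι _ T M ζ a1 a2 a3 a4 p δ a5 a6 a7 a8 a9 a10 a11 Ω₁ Ω₂ _ _ _ _ Z η h a12 a13
    refine hcore n W T M ζ a1 a2 a3 a4 p δ a5 a6 a7 a8 (le_trans ?_ a9) a10 (le_trans ?_ a11)
      Z η h a12 a13
    · gcongr
    · gcongr
  have hvb' : ∀ (n W : ℕ) {κ μ : Type}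
      [DecidableEq κ] [DecidableEq μ] (T : κ → Term n) (M : Finset κ) (ξ : κ → ℂ)
      (U : μ → Term n) (H : Finset μ) (ψ : Finset μ → ℂ), Fam r W T M → 1 ≤ W →
      (∀ m ∈ M, ‖ξ m‖ = 1) → en T ξ M ≤ V → (∀ m ∈ H, (U m).S.card ≤ W) →
      ∑ m ∈ H, (1 / 2 : ℝ) ^ (U m).S.card ≤ K → (∀ A, ‖ψ A‖ ≤ 1) →
      ∀ p δ : ℝ, 0 < p → p ≤ 1 → C * p * W ≤ 1 → 0 ≤ δ → C * δ * ((n : ℝ) + 1) ^ 2 * 4 ^ W ≤ 1 →
      ∀ {Ω₁ Ω₂ : Type} [Fintype Ω₁] [Nonempty Ω₁] [Fintype Ω₂] [Nonempty Ω₂] {B : ℕ}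
        (Z : Ω₂ → Ω₁ → Cube n) (η : Ω₂ → Finset (Fin n)) (h : Ω₂ → Fin n → Fin B),
        (∀ ω₂, Bias δ (Z ω₂)) → Src p δ η h →
        (avg fun ω₂ => avg fun ω₁ => avg fun u : Fin B → Bool =>
          ‖hh T ξ M U H ψ (mv (Z ω₂ ω₁) (η ω₂) (h ω₂) u) - hh T ξ M U H ψ (Z ω₂ ω₁)‖) ≤
            ε / 32 := by
    intro n W κ μ _ _ T M ξ U H ψ a1 a2 a3 a4 b1 b2 b3 p δ a5 a6 a9 a10 a11 Ω₁ Ω₂ _ _ _ _ B Z η h
      a12 a13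
    refine hvb n W T M ξ U H ψ a1 a2 a3 a4 b1 b2 b3 p δ a5 a6 (le_trans ?_ a9) a10
      (le_trans ?_ a11) Z η h a12 a13
    · gcongr
    · gcongr
  obtain ⟨C₁, hC₁⟩ : ∃ C₁ : ℕ, C₁ = 2 * t * C + t := ⟨_, rfl⟩
  obtain ⟨K0, hK0⟩ : ∃ K0 : ℕ, K0 = C₂ * ((b + 1) * (C₁ + 1)) + C₂ := ⟨_, rfl⟩
  obtain ⟨c₀, hc₀⟩ : ∃ c₀ : ℝ, c₀ = 2 ^ (C₂ * (C₁ + 2) + C₂ * ((b + 1) * (C₁ + 1))) := ⟨_, rfl⟩
  have hc₀' : 0 ≤ c₀ := by rw [hc₀]; positivity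
  obtain ⟨n₀, hn₀⟩ := exists_nat_gt ((64 + 8 * c₀) / ε + 4 * 2 ^ (2 * (b + 1)) * C)
  refine ⟨s, K0 + (2 * b + 7), max n₀ 1, ?_⟩
  intro n hn Lf hLf Ω₁ Ω₂ _ _ _ _ Y η h hY hYL hS ι κ μ _ _ _ T M ζ T' M' ξ U H ψ hM hMc hζq hM'
    hMc' hξ hen₀ hH hHc hHK hψ
  have hen : en T' ξ M' ≤ V := hen₀
  have hn1 : 1 ≤ n := (le_max_right _ _).trans hn
  have hnn : (n₀ : ℝ) ≤ n := by exact_mod_cast (le_max_left _ _).trans hn
  have hn1' : (1 : ℝ) ≤ n := by exact_mod_cast hn1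
  have hC0 : (0 : ℝ) ≤ C := Nat.cast_nonneg C
  have hbig : (64 + 8 * c₀) / ε + 4 * 2 ^ (2 * (b + 1)) * C ≤ n := hn₀.le.trans hnn
  have hb1 : 64 + 8 * c₀ ≤ ε * n := by
    have h0 : (0 : ℝ) ≤ 4 * 2 ^ (2 * (b + 1)) * C := by positivity
    have h1 : (64 + 8 * c₀) / ε ≤ n := by linarith
    rw [div_le_iff₀ hε] at h1
    linarith
  have hb2 : 4 * 2 ^ (2 * (b + 1)) * (C : ℝ) ≤ n := by
    have h1 : 0 ≤ (64 + 8 * c₀) / ε := by positivity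
    linarith
  obtain ⟨δ, hδ⟩ : ∃ δ : ℝ, δ = 1 / ((n : ℝ) + 1) ^ (K0 + (2 * b + 7)) := ⟨_, rfl⟩
  have hδ0 : 0 ≤ δ := by rw [hδ]; positivity
  -- the numbers
  have e1 : 2 * (n : ℝ) ^ b * ((1 / 2) ^ wb b n + δ) ≤ ε / 16 := by
    have h1 := mb_half b n hn1
    have h2 : δ ≤ 1 / (n : ℝ) ^ (b + 1) := by
      rw [hδ]
      apply one_div_le_one_div_of_le (by positivity)
      calc (n : ℝ) ^ (b + 1) ≤ ((n : ℝ) + 1) ^ (b + 1) :=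
            pow_le_pow_left₀ (by linarith) (by linarith) _
        _ ≤ ((n : ℝ) + 1) ^ (K0 + (2 * b + 7)) := pow_le_pow_right₀ (by linarith) (by omega)
    calc 2 * (n : ℝ) ^ b * ((1 / 2) ^ wb b n + δ) ≤
          2 * (n : ℝ) ^ b * (1 / n ^ (b + 1) + 1 / n ^ (b + 1)) :=
          mul_le_mul_of_nonneg_left (add_le_add h1 h2) (by positivity)
      _ = 4 / n := by
        rw [pow_succ]
        field_simp
        ring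
      _ ≤ ε / 16 := by
        rw [div_le_div_iff₀ (by linarith) (by norm_num)]
        linarith
  have e2 : δ * 2 ^ (C₂ * (C₁ * wb b n + wb b n + 1)) * ((n : ℝ) + 1) ^ C₂ ≤ ε / 8 := by
    rw [mul_assoc]
    have h1 := mb_big C₂ C₁ b n
    have h2 := ma_pow n K0 (K0 + (2 * b + 7)) (by omega) hc₀'
    rw [← hδ] at h2
    calc δ * (2 ^ (C₂ * (C₁ * wb b n + wb b n + 1)) * ((n : ℝ) + 1) ^ C₂) ≤
          δ * (c₀ * ((n : ℝ) + 1) ^ K0) := by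
          have h3 : (0 : ℝ) ≤ ((n : ℝ) + 1) ^ C₂ := by positivity
          have h4 := mul_le_mul_of_nonneg_left (mul_le_mul_of_nonneg_right h1 h3) hδ0
          refine h4.trans (le_of_eq ?_)
          rw [hc₀, hK0, pow_add _ (C₂ * ((b + 1) * (C₁ + 1))) C₂]
          ring
      _ ≤ c₀ / ((n : ℝ) + 1) := h2
      _ ≤ ε / 8 := by
        rw [div_le_div_iff₀ (by linarith) (by norm_num)]
        nlinarith
  have e3 : C * δ * ((n : ℝ) + 1) ^ 2 * 4 ^ wb b n ≤ 1 := by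
    have h1 := mb_four b n
    have h2 := ma_pow n (2 * (b + 1) + 2) (K0 + (2 * b + 7)) (by omega)
      (show (0 : ℝ) ≤ 4 * 2 ^ (2 * (b + 1)) * C by positivity)
    rw [← hδ] at h2
    calc C * δ * ((n : ℝ) + 1) ^ 2 * 4 ^ wb b n ≤
          C * δ * ((n : ℝ) + 1) ^ 2 * (4 * 2 ^ (2 * (b + 1)) * ((n : ℝ) + 1) ^ (2 * (b + 1))) :=
          mul_le_mul_of_nonneg_left h1 (by positivity)
      _ = δ * (4 * 2 ^ (2 * (b + 1)) * C * ((n : ℝ) + 1) ^ (2 * (b + 1) + 2)) := by ring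
      _ ≤ 4 * 2 ^ (2 * (b + 1)) * C / ((n : ℝ) + 1) := h2
      _ ≤ 1 := by
        rw [div_le_one (by linarith)]
        linarith
  -- the strings
  rw [← hδ] at hY hS
  have hff : (fun x => pr T ζ M x * (ψ (hx H U x) * pr T' ξ M' x)) =
      fun x => pr T ζ M x * hh T' ξ M' U H ψ x := rfl
  rw [hff]
  have hnorm : ∀ m ∈ M, ‖ζ m‖ = 1 := fun m hm =>
    Complex.norm_eq_one_of_pow_eq_one (hζq m hm) (by omega)
  have hcd : (M.card : ℝ) ≤ (n : ℝ) ^ b := by exact_mod_cast hMc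
  have hcd' : (M'.card : ℝ) ≤ (n : ℝ) ^ b := by exact_mod_cast hMc'
  have hcdH : (H.card : ℝ) ≤ (n : ℝ) ^ b := by exact_mod_cast hHc
  -- the wide parts
  obtain ⟨N, hN⟩ : ∃ N : Finset ι, N = M.filter fun m => (T m).S.card ≤ wb b n := ⟨_, rfl⟩
  obtain ⟨N', hN'⟩ : ∃ N' : Finset κ, N' = M'.filter fun m => (T' m).S.card ≤ wb b n := ⟨_, rfl⟩
  rw [← hN] at hM
  obtain ⟨L, hL⟩ : ∃ L : Finset μ, L = H.filter fun m => (U m).S.card ≤ wb b n := ⟨_, rfl⟩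
  rw [← hN'] at hM'
  rw [← hL] at hH
  have hLW : ∀ m ∈ L, (U m).S.card ≤ wb b n := by
    intro m hm
    rw [hL] at hm
    exact (Finset.mem_filter.1 hm).2
  have hLK : ∑ m ∈ L, (1 / 2 : ℝ) ^ (U m).S.card ≤ K := by
    refine le_trans (Finset.sum_le_sum_of_subset_of_nonneg ?_ fun m _ _ => by positivity) hHK
    rw [hL]
    exact Finset.filter_subset _ _
  have hU : Bias δ (fun x : Cube n => x) := Xp.Bias.mono Xp.Bias.unif hδ0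
  have hNq : ∀ m ∈ N, ζ m ^ q = 1 := by
    intro m hm
    rw [hN] at hm
    exact hζq m (Finset.mem_filter.1 hm).1
  have hN1' : ∀ m ∈ N, ‖ζ m‖ = 1 := fun m hm =>
    Complex.norm_eq_one_of_pow_eq_one (hNq m hm) (by omega)
  have hN'1 : ∀ m ∈ N', ‖ξ m‖ = 1 := by
    intro m hm
    rw [hN'] at hm
    exact hξ m (Finset.mem_filter.1 hm).1
  have hdrop : ∀ {Ω : Type} [Fintype Ω] [Nonempty Ω] (X : Ω → Cube n), Bias δ X →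
      ‖(av fun ω => pr T ζ M (X ω) * hh T' ξ M' U H ψ (X ω)) -
        av fun ω => pr T ζ N (X ω) * hh T' ξ N' U L ψ (X ω)‖ ≤ ε / 4 := by
    intro Ω _ _ X hX
    have a1 : (avg fun ω => ‖pr T ζ M (X ω) - pr T ζ N (X ω)‖) ≤ ε / 16 := by
      rw [hN]
      exact (mh_drop hnorm hδ0 hcd hX).trans e1
    have a2 : (avg fun ω => ‖pr T' ξ M' (X ω) - pr T' ξ N' (X ω)‖) ≤ ε / 16 := by
      rw [hN']
      exact (mh_drop hξ hδ0 hcd' hX).trans e1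
    have a3 : 2 * (avg fun ω => one (hx H U (X ω) ≠ hx L U (X ω))) ≤ ε / 16 := by
      rw [hL]
      have h1 := hv_drop (U := U) (W := wb b n) hδ0 hcdH hX
      have h2 : 2 * (n : ℝ) ^ b * ((1 / 2) ^ wb b n + δ) =
          2 * ((n : ℝ) ^ b * ((1 / 2) ^ wb b n + δ)) := by ring
      linarith
    have a4 : (avg fun ω => ‖hh T' ξ M' U H ψ (X ω) - hh T' ξ N' U L ψ (X ω)‖) ≤ ε / 8 := by
      refine (avg_mono fun ω => hh_diff2 hξ hN'1 hψ (X ω)).trans ?_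
      rw [avg_add (fun ω => ‖pr T' ξ M' (X ω) - pr T' ξ N' (X ω)‖)
        fun ω => 2 * one (hx H U (X ω) ≠ hx L U (X ω)), avg_mul_left]
      linarith
    refine (mh_two (g := fun ω => pr T ζ M (X ω)) (g' := fun ω => pr T ζ N (X ω))
      (h := fun ω => hh T' ξ M' U H ψ (X ω)) (h' := fun ω => hh T' ξ N' U L ψ (X ω))
      (fun ω => hh_norm hξ hψ _) (fun ω => (ml_norm_pr hN1' _).le) a1 a4).trans ?_
    linarith
  have d1 : ‖Phc Y η h (fun x => pr T ζ M x * hh T' ξ M' U H ψ x) -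
      Phc Y η h (fun x => pr T ζ N x * hh T' ξ N' U L ψ x)‖ ≤ ε / 4 :=
    phc_close Y η h fun t sx => hdrop (fun ω => xo (Y t ω) sx) ((hY t).xo sx)
  have d2 : ‖av (fun x => pr T ζ M x * hh T' ξ M' U H ψ x) -
      av (fun x => pr T ζ N x * hh T' ξ N' U L ψ x)‖ ≤ ε / 4 := hdrop (fun x : Cube n => x) hU
  -- the reduced form
  have hNw : ∀ m ∈ N, (T m).S.card ≤ wb b n := by
    intro m hm
    rw [hN] at hm
    exact (Finset.mem_filter.1 hm).2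
  obtain ⟨T₁, ζ₁, M₁', κ₁, hκ₁, -, hfam, hζ₁, hred, hpr⟩ := reduce hq T ζ N hM hNw hNq
  have hN1 : ∀ m ∈ M₁', ‖ζ₁ m‖ = 1 := fun m hm =>
    Complex.norm_eq_one_of_pow_eq_one (hζ₁ m hm) (by omega)
  -- the empty terms
  obtain ⟨κ₂, hκ₂, hpr₂⟩ := mh_empty (T := T') (M := N') hN'1
  obtain ⟨N'', hN''⟩ : ∃ N'' : Finset κ, N'' = N'.filter fun m => (T' m).S ≠ ∅ := ⟨_, rfl⟩
  rw [← hN''] at hpr₂
  have hfam' : Fam r (wb b n) T' N'' := by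
    refine ⟨fun m hm => ?_, fun i => ?_, fun m hm => ?_⟩
    · rw [hN''] at hm
      exact (Finset.mem_filter.1 hm).2
    · refine le_trans (Finset.card_le_card ?_) (hM' i)
      rw [hN'']
      exact Finset.filter_subset_filter _ (Finset.filter_subset _ _)
    · rw [hN'', hN'] at hm
      exact (Finset.mem_filter.1 (Finset.mem_filter.1 hm).1).2
  have hN''1 : ∀ m ∈ N'', ‖ξ m‖ = 1 := by
    intro m hm
    rw [hN''] at hm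
    exact hN'1 m (Finset.mem_filter.1 hm).1
  have hen' : en T' ξ N'' ≤ V := by
    refine le_trans (en_mono ?_) hen
    rw [hN'', hN']
    exact (Finset.filter_subset _ _).trans (Finset.filter_subset _ _)
  have hpr' : (fun x => pr T ζ N x * hh T' ξ N' U L ψ x) =
      fun x => (κ₁ * κ₂) * (pr T₁ ζ₁ M₁' x * hh T' ξ N'' U L ψ x) := by
    funext x
    unfold hh
    rw [hpr x, hpr₂ x]
    ring
  have hκ : ‖κ₁ * κ₂‖ = 1 := by rw [norm_mul, hκ₁, hκ₂, one_mul]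
  have d3 : ‖Phc Y η h (fun x => pr T ζ N x * hh T' ξ N' U L ψ x) -
      av (fun x => pr T ζ N x * hh T' ξ N' U L ψ x)‖ ≤ ε / 4 := by
    rw [hpr', phc_mul, ma_av_mul_left, ← mul_sub, norm_mul, hκ, one_mul]
    rcases le_total (A1 T₁ M₁') ((C₁ * wb b n : ℕ) : ℝ) with hA | hA
    · refine phc_const Y η h fun t sx => ?_
      have h1 := hfool n (wb b n) (C₁ * wb b n) T₁ M₁' ζ₁ T' N'' ξ U L ψ hfam hA hN1 hfam' hN''1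
        hen' hH hLW hLK hψ (fun ω => xo (Y t ω) sx) δ hδ0 ((hY t).xo sx)
      linarith
    · rw [hC₁] at hA
      have h1 := phc_caseII (k := k) ht hcore' hvb' hfam (by unfold wb; omega) hζ₁ hN1 hred hA
        hfam' hN''1 hen' hLW hLK hψ hδ0 e3 η h hS Y hY Lf (hLf.trans (Nat.mul_le_mul_left _
          (by unfold wb; nlinarith [Nat.zero_le (b * Nat.clog 2 n)]))) hYL hε hC₅'
      have h2 := mh_caseII3 ht hcore' hvb' hfam (by unfold wb; omega) hζ₁ hN1 hred hA hfam' hN''1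
        hen' hLW hLK hψ hδ0 e3 η h hS (fun x : Cube n => x) hU
      rw [ph_unif] at h2
      calc ‖Phc Y η h (fun x => pr T₁ ζ₁ M₁' x * hh T' ξ N'' U L ψ x) -
            av (fun x => pr T₁ ζ₁ M₁' x * hh T' ξ N'' U L ψ x)‖ ≤
            ‖Phc Y η h (fun x => pr T₁ ζ₁ M₁' x * hh T' ξ N'' U L ψ x)‖ +
            ‖av (fun x => pr T₁ ζ₁ M₁' x * hh T' ξ N'' U L ψ x)‖ := norm_sub_le _ _
        _ ≤ ε / 4 := by linarith
  have h12 := norm_sub_le_norm_sub_add_norm_sub (Phc Y η h (fun x => pr T ζ M x * hh T' ξ M' U H ψ x))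
    (Phc Y η h (fun x => pr T ζ N x * hh T' ξ N' U L ψ x)) (av (fun x => pr T ζ M x * hh T' ξ M' U H ψ x))
  have h13 := norm_sub_le_norm_sub_add_norm_sub (Phc Y η h (fun x => pr T ζ N x * hh T' ξ N' U L ψ x))
    (av (fun x => pr T ζ N x * hh T' ξ N' U L ψ x)) (av (fun x => pr T ζ M x * hh T' ξ M' U H ψ x))
  rw [norm_sub_rev (av (fun x => pr T ζ N x * hh T' ξ N' U L ψ x))] at h13
  linarith

theorem gxc (r q b k i : ℕ) (hq : 0 < q) (K V : ℝ) {ε : ℝ} (hε : 0 < ε) : ∃ s KK n₀ : ℕ,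
    ∀ n ≥ n₀, ∀ L : Finset (Fin n), L.card ≤ k * Nat.clog 2 n →
    ∀ {Ω₁ Ω₂ : Type} [Fintype Ω₁] [Nonempty Ω₁] [Fintype Ω₂] [Nonempty Ω₂]
      (Y : Cube n → Ω₁ → Cube n)
      (η : Fin (Nat.clog 2 n + 2 ^ i * r + 1) → Ω₂ → Finset (Fin n))
      (h : Ω₂ → Fin n → Fin (2 ^ s)),
      (∀ t, Bias (1 / ((n : ℝ) + 1) ^ KK) (Y t)) →
      (∀ t t', (∀ i ∈ L, t i = t' i) → Y t = Y t') →
      (∀ l : Fin (Nat.clog 2 n + 2 ^ i * r + 1),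
        Src ((1 / 2 : ℝ) ^ (l : ℕ)) (1 / ((n : ℝ) + 1) ^ KK) (η l) h) →
      ∀ f ∈ BPy q r b K V i n, ‖Phc Y η h f - av f‖ ≤ ε := by
  classical
  obtain ⟨s, KK, n₀, H⟩ := gxc0 (2 ^ i * r) q (b + 1) k hq (2 ^ i * K) (2 ^ i * V) hε
  refine ⟨s, KK, max n₀ (2 ^ i), ?_⟩
  rintro n hn L hL Ω₁ Ω₂ _ _ _ _ Y η h hY hYL hS f ⟨ι, κ, μ, _, _, _, T, ζ, T', ξ, U, ψ,
    ⟨a1, a2, a3⟩, ⟨b1, b2, b3, b4⟩, ⟨c1, c2, c3, c4⟩, rfl⟩
  have h1 : 2 ^ i * n ^ b ≤ n ^ (b + 1) := by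
    rw [pow_succ, mul_comm (n ^ b) n]
    exact Nat.mul_le_mul_right _ ((le_max_right _ _).trans hn)
  have h2 := H n ((le_max_left _ _).trans hn) L hL Y η h hY hYL hS T univ ζ T' univ ξ U univ ψ a2
    (by rw [Finset.card_univ]; exact a1.trans h1) (fun m _ => a3 m) b2
    (by rw [Finset.card_univ]; exact b1.trans h1) (fun m _ => b3 m) b4 c2
    (by rw [Finset.card_univ]; exact c1.trans h1) c3 c4
  exact h2

end Pool.Agent.MP_ca1109_lc.Xd
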