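import Pool.Agent.MP_ca1109_lc.Xd.CZ
import Pool.Agent.MP_ca1109_lc.Xd.GC
import Pool.Agent.MP_ca1109_lc.Xp.GN

/-!
# Row GL: the generator at the leaves of a decision tree
-/

namespace Pool.Agent.MP_ca1109_lc.Xd

open Finset Pool.Agent.H66 Pool.Agent.MP_ca1109_lc.Mpg Pool.Agent.MP_ca1109_lc.Agp
open Pool.Agent.MP_ca1109_lc.Dnf (Cube ch one Term)
open Pool.Agent.MP_ca1109_lc.Xp (Sp Bias xo Src mv gx ma_av_mul_left ma_av_sub ma_norm_av ma_av_close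
  ma_clog)
open Pool.Agent.MP_ca1109_lc.Xl (Tr)
open Pool.Agent.MP_ca1109_lc.Xv (Chain BPy bpy_chain na_eq_av)

variable {n : ℕ}

theorem gl_sb_xo (L : Finset (Fin n)) (w x s : Cube n) :
    sb L (xo w s) (xo x s) = xo (sb L w x) s := by
  funext i
  by_cases hi : i ∈ L
  · simp [sb, hi, xo]
  · simp [sb, hi, xo]

theorem gl_tr_xo (L : Finset (Fin n)) (a x s : Cube n) : Tr L a (xo x s) ↔ Tr L (xo a s) x := by
  refine forall₂_congr fun i _ => ?_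
  show xor (x i) (s i) = a i ↔ x i = xor (a i) (s i)
  cases x i <;> cases s i <;> cases a i <;> decide

/-- The leaf of the shifted string. -/
theorem gl_lf_xo (L : Finset (Fin n)) (a : Cube n) (f : Cube n → ℂ) (x s : Cube n) :
    lf L a f (xo x s) = lf L (xo a s) (fun z => f (xo z s)) x := by
  have h1 : one (Tr L a (xo x s)) = one (Tr L (xo a s) x) := by
    by_cases h : Tr L a (xo x s)
    · rw [Dnf.one_true h, Dnf.one_true ((gl_tr_xo L a x s).1 h)]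
    · rw [Dnf.one_false h, Dnf.one_false fun h' => h ((gl_tr_xo L a x s).2 h')]
  have h2 : (av fun w : Cube n => f (sb L w (xo x s))) = av fun w : Cube n => f (xo (sb L w x) s) := by
    rw [← Xp.av_xo (fun w : Cube n => f (sb L w (xo x s))) s]
    congr 1
    funext w
    rw [gl_sb_xo]
  unfold lf
  rw [h1, h2]

theorem gl_src {Ω : Type} [Fintype Ω] {B : ℕ} {p δ δ' : ℝ} {η : Ω → Finset (Fin n)}
    {h : Ω → Fin n → Fin B} (hη : Src p δ η h) (hδ : δ ≤ δ') : Src p δ' η h :=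
  ⟨fun D => (hη.sub D).trans hδ, fun i j hij => (hη.col i j hij).trans (by linarith)⟩

theorem gl_bias {Ω : Type} [Fintype Ω] {δ δ' : ℝ} {Y : Ω → Cube n} (hY : Bias δ Y) (hδ : δ ≤ δ') :
    Bias δ' Y := fun S hS => (hY S hS).trans hδ

/-- **Row GL.** -/
theorem gl (r q b k i : ℕ) (hq : 0 < q) (K V : ℝ) {ε : ℝ} (hε : 0 < ε) :
    LFooled (BPy q r b K V i) k ε := by
  classical
  obtain ⟨s, KK, n₁, H⟩ := gxc r q b k i hq K V (show 0 < ε / 4 by positivity)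
  obtain ⟨E, G, hG, hgen⟩ := Xp.xgen (2 ^ i * r) s (KK + (k + 1))
  obtain ⟨n₂, hn₂⟩ := exists_nat_gt ((2 : ℝ) ^ k * (2 + 2 / ε))
  refine ⟨E, G, hG, max n₁ n₂, fun n hn L a hL f hf => ?_⟩
  have hn1 : n₁ ≤ n := (le_max_left _ _).trans hn
  have hn2 : (n₂ : ℝ) ≤ n := by exact_mod_cast (le_max_right _ _).trans hn
  have hn0 : (0 : ℝ) ≤ n := Nat.cast_nonneg n
  have hp0 : (0 : ℝ) < (n : ℝ) + 1 := by linarith
  have hp1 : (1 : ℝ) ≤ (n : ℝ) + 1 := by linarith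
  obtain ⟨M₁, M₂, hM₁, hM₂, Y, η, h, hY, hS, hf'⟩ := hgen n
  have : Nonempty (Fin M₁) := ⟨⟨0, hM₁⟩⟩
  have : Nonempty (Fin M₂) := ⟨⟨0, hM₂⟩⟩
  obtain ⟨δ, hδ⟩ : ∃ δ : ℝ, δ = 1 / ((n : ℝ) + 1) ^ (KK + (k + 1)) := ⟨_, rfl⟩
  rw [← hδ] at hY hS
  have hδ0 : 0 ≤ δ := by rw [hδ]; positivity
  -- the numbers
  have hbig : (2 : ℝ) ^ k * (2 + 2 / ε) ≤ (n : ℝ) + 1 := by linarith
  have h2k : (0 : ℝ) < 2 ^ k := by positivity
  have hb1 : (2 : ℝ) ^ k * 2 ≤ (n : ℝ) + 1 := by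
    have h3 : (0 : ℝ) ≤ 2 ^ k * (2 / ε) := by positivity
    nlinarith
  have hb2 : (2 : ℝ) ^ k * (2 / ε) ≤ (n : ℝ) + 1 := by nlinarith
  have hL2 : (2 : ℝ) ^ L.card ≤ 2 ^ k * ((n : ℝ) + 1) ^ k := by
    calc (2 : ℝ) ^ L.card ≤ 2 ^ (k * Nat.clog 2 n) := pow_le_pow_right₀ (by norm_num) hL
      _ = ((2 : ℝ) ^ Nat.clog 2 n) ^ k := by rw [mul_comm, pow_mul]
      _ ≤ (2 * ((n : ℝ) + 1)) ^ k := pow_le_pow_left₀ (by positivity) (ma_clog n) k
      _ = 2 ^ k * ((n : ℝ) + 1) ^ k := mul_pow _ _ _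
  have hδL : δ * 2 ^ L.card ≤ 2 ^ k / ((n : ℝ) + 1) * (1 / ((n : ℝ) + 1) ^ KK) := by
    calc δ * 2 ^ L.card ≤ δ * (2 ^ k * ((n : ℝ) + 1) ^ k) := mul_le_mul_of_nonneg_left hL2 hδ0
      _ = 2 ^ k / ((n : ℝ) + 1) * (1 / ((n : ℝ) + 1) ^ KK) := by
        rw [hδ, pow_add, pow_add, pow_one]
        field_simp
  have hKK : 1 / ((n : ℝ) + 1) ^ KK ≤ 1 := by
    rw [div_le_one (by positivity)]
    exact one_le_pow₀ hp1
  have hKK0 : 0 ≤ 1 / ((n : ℝ) + 1) ^ KK := by positivity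
  have hq1 : (2 : ℝ) ^ k / ((n : ℝ) + 1) ≤ 1 / 2 := by
    rw [div_le_iff₀ hp0]
    linarith
  have hq2 : (2 : ℝ) ^ k / ((n : ℝ) + 1) ≤ ε / 2 := by
    rw [div_le_iff₀ hp0]
    have h3 : (2 : ℝ) ^ k * (2 / ε) * (ε / 2) = 2 ^ k := by field_simp
    nlinarith
  have hδL1 : δ * 2 ^ L.card ≤ 1 / 2 := hδL.trans (by nlinarith)
  have hδL2 : δ * 2 ^ L.card ≤ ε / 2 := hδL.trans (by nlinarith)
  have hδL3 : 2 ^ (L.card + 1) * δ ≤ 1 / ((n : ℝ) + 1) ^ KK := by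
    have h3 : 2 ^ (L.card + 1) * δ = 2 * (δ * 2 ^ L.card) := by ring
    rw [h3]
    nlinarith
  have hδK : δ ≤ 1 / ((n : ℝ) + 1) ^ KK := by
    have h3 : (1 : ℝ) ≤ 2 ^ (L.card + 1) := one_le_pow₀ (by norm_num)
    nlinarith
  -- the conditioned string
  obtain ⟨hP, Ω', i1, i2, Y', hY', hloc, hlf⟩ := cz hδ0 hY L hδL1
  have hnorm : ∀ x, ‖f x‖ ≤ 1 := (bpy_chain hq).norm i n f hf
  have key := H n hn1 L hL (fun t => Y' (xo a t)) η h (fun t => gl_bias (hY' _) hδL3)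
    (fun t t' ht => hloc _ _ fun j hj => by
      show xor (a j) (t j) = xor (a j) (t' j)
      rw [ht j hj])
    (fun l => gl_src (hS l) hδK) f hf
  have hav : (av fun p : Fin (2 ^ E n) => lf L a f (out G n p)) =
      av fun v : Fin (Nat.clog 2 n + 2 ^ i * r + 1) → Fin (2 ^ s) → Bool => av fun ω₂ =>
        av fun ω₁ => lf L a f (gx (Y ω₁) (fun l => η l ω₂) (h ω₂) v) := by
    rw [← hf' (lf L a f)]
    exact (na_eq_av (2 ^ E n) fun p => lf L a f (out G n p)).symm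
  have hin : ∀ (v : Fin (Nat.clog 2 n + 2 ^ i * r + 1) → Fin (2 ^ s) → Bool) (ω₂ : Fin M₂),
      ‖(av fun ω₁ => lf L a f (gx (Y ω₁) (fun l => η l ω₂) (h ω₂) v)) -
        (1 / 2) ^ L.card * av fun ω₁ : Ω' =>
          f (xo (Y' (xo a (gx (fun _ => false) (fun l => η l ω₂) (h ω₂) v)) ω₁)
            (gx (fun _ => false) (fun l => η l ω₂) (h ω₂) v))‖ ≤ δ := by
    intro v ω₂
    obtain ⟨t, ht⟩ : ∃ t : Cube n, t = gx (fun _ => false) (fun l => η l ω₂) (h ω₂) v := ⟨_, rfl⟩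
    have h1 : (av fun ω₁ => lf L a f (gx (Y ω₁) (fun l => η l ω₂) (h ω₂) v)) =
        av fun ω₁ => lf L (xo a t) (fun z => f (xo z t)) (Y ω₁) := by
      congr 1
      funext ω₁
      rw [Xp.gx_xo (Y ω₁) (fun l => η l ω₂) (h ω₂) v, ← ht, gl_lf_xo]
    rw [h1, hlf, ← ht]
    have h2 : ‖av fun ω' => f (xo (Y' (xo a t) ω') t)‖ ≤ 1 := ma_norm_av fun ω' => hnorm _
    have h3 := hP (xo a t)
    have h4 : ((avg fun ω => one (Tr L (xo a t) (Y ω)) : ℝ) : ℂ) *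
        (av fun ω' => f (xo (Y' (xo a t) ω') t)) -
        (1 / 2) ^ L.card * (av fun ω' => f (xo (Y' (xo a t) ω') t)) =
        (((avg fun ω => one (Tr L (xo a t) (Y ω))) - (1 / 2) ^ L.card : ℝ) : ℂ) *
          av fun ω' => f (xo (Y' (xo a t) ω') t) := by
      push_cast
      ring
    rw [h4, norm_mul, Complex.norm_real, Real.norm_eq_abs]
    calc |(avg fun ω => one (Tr L (xo a t) (Y ω))) - (1 / 2) ^ L.card| *
        ‖av fun ω' => f (xo (Y' (xo a t) ω') t)‖ ≤ δ * 1 :=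
          mul_le_mul h3 h2 (norm_nonneg _) hδ0
      _ = δ := mul_one _
  have hPhc : (1 / 2 : ℂ) ^ L.card * Phc (fun t => Y' (xo a t)) η h f =
      av fun v : Fin (Nat.clog 2 n + 2 ^ i * r + 1) → Fin (2 ^ s) → Bool => av fun ω₂ =>
        (1 / 2) ^ L.card * av fun ω₁ : Ω' =>
          f (xo (Y' (xo a (gx (fun _ => false) (fun l => η l ω₂) (h ω₂) v)) ω₁)
            (gx (fun _ => false) (fun l => η l ω₂) (h ω₂) v)) := by
    unfold Phc
    simp only [ma_av_mul_left]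
  have h1 : ‖(av fun p : Fin (2 ^ E n) => lf L a f (out G n p)) -
      (1 / 2) ^ L.card * Phc (fun t => Y' (xo a t)) η h f‖ ≤ δ := by
    rw [hav, hPhc]
    exact ma_av_close fun v => ma_av_close fun ω₂ => hin v ω₂
  have h2 : ‖(1 / 2 : ℂ) ^ L.card * Phc (fun t => Y' (xo a t)) η h f -
      (1 / 2) ^ L.card * av f‖ ≤ (1 / 2) ^ L.card * (ε / 4) := by
    rw [← mul_sub, norm_mul]
    refine mul_le_mul (le_of_eq ?_) key (norm_nonneg _) (by positivity)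
    rw [norm_pow]
    norm_num
  have h3 : δ ≤ ε / 2 * (1 / 2) ^ L.card := by
    have h4 : δ = δ * 2 ^ L.card * (1 / 2) ^ L.card := by
      rw [mul_assoc, ← mul_pow]
      norm_num
    rw [h4]
    exact mul_le_mul_of_nonneg_right hδL2 (by positivity)
  have h5 : (0 : ℝ) < (1 / 2) ^ L.card := by positivity
  calc ‖(av fun p : Fin (2 ^ E n) => lf L a f (out G n p)) - (1 / 2) ^ L.card * av f‖ ≤
      ‖(av fun p : Fin (2 ^ E n) => lf L a f (out G n p)) -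
        (1 / 2) ^ L.card * Phc (fun t => Y' (xo a t)) η h f‖ +
      ‖(1 / 2 : ℂ) ^ L.card * Phc (fun t => Y' (xo a t)) η h f - (1 / 2) ^ L.card * av f‖ :=
        norm_sub_le_norm_sub_add_norm_sub _ _ _
    _ ≤ ε * (1 / 2) ^ L.card := by nlinarith

end Pool.Agent.MP_ca1109_lc.Xd
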