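import Pool.Agent.MP_ca1109_lc.Xd.BC0
import Pool.Agent.MP_ca1109_lc.Xd.BH0
import Pool.Agent.MP_ca1109_lc.Xd.GL

/-!
# Products of unimodular weights of large energy at the leaves of a decision tree
-/


namespace Pool.Agent.MP_ca1109_lc.Xd

open Finset Pool.Agent.H66 Pool.Agent.MP_ca1109_lc.Mpg Pool.Agent.MP_ca1109_lc.Agp
open Pool.Agent.MP_ca1109_lc.Xp (Bias xo Miss Hs mq uv gq gq_xo gq_update qgen cut' cs_step
  parseval_step av_update Fam pr Rd)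
open Pool.Agent.MP_ca1109_lc.Xg
open Pool.Agent.MP_ca1109_lc.Dnf (Cube ch one E mix one_nonneg one_le one_true one_false)

variable {n : ℕ}

/-! ## The sources fool the products of large energy -/

theorem bgx (r k : ℕ) {ε : ℝ} (hε : 0 < ε) : ∃ (c K n₀ : ℕ) (C : ℝ), 0 ≤ C ∧
    ∀ n ≥ n₀, ∀ D : Finset (Fin n), D.card ≤ k * Nat.clog 2 n →
    ∀ {Ω₁ Ω₂ Ω₃ : Type} [Fintype Ω₁] [Nonempty Ω₁] [Fintype Ω₂] [Nonempty Ω₂]
      [Fintype Ω₃] [Nonempty Ω₃] (Y : Cube n → Ω₁ → Cube n)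
      (η : Fin (Nat.clog 2 n + r + 1) → Ω₂ → Finset (Fin n))
      (H : Ω₃ → Fin n → Fin c → Bool),
      (∀ t, Bias (1 / ((n : ℝ) + 1) ^ K) (Y t)) →
      (∀ t t', (∀ i ∈ D, t i = t' i) → Y t = Y t') →
      (∀ (l : Fin (Nat.clog 2 n + r + 1)) (s : ℕ),
        Miss s ((1 / 2 : ℝ) ^ ((l : ℕ) + 1)) (2 ^ s / ((n : ℝ) + 1) ^ K) (η l)) →
      Hs ((1 / 2) ^ c + 1 / ((n : ℝ) + 1) ^ K) H →
      ∀ f ∈ Big r C n, ‖Pqc Y η H f - av f‖ ≤ ε := by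
  classical
  obtain ⟨c, C₁, n₁, t, ht, hcore⟩ := core2 r (show 0 < ε / 16 by positivity)
  obtain ⟨K, hK⟩ : ∃ K : ℕ, K = C₁ + 14 := ⟨_, rfl⟩
  obtain ⟨a, ha⟩ : ∃ a : ℝ, a = 16 * 4 ^ r := ⟨_, rfl⟩
  have ha0 : 0 ≤ a := by rw [ha]; positivity
  obtain ⟨n₀, hn₀⟩ := exists_nat_gt (a + a * C₁ + a * (4 * ((r : ℝ) + 1) ^ 2) +
    (8 * r * (1 + a)) / ε + 128 * k / ε)
  obtain ⟨D₀, hD₀⟩ : ∃ D₀ : ℝ, D₀ = 64 * k * t / ε := ⟨_, rfl⟩
  have hD₀0 : 0 ≤ D₀ := by rw [hD₀]; positivity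
  have hk0 : (0 : ℝ) ≤ k := Nat.cast_nonneg _
  have hr0 : (0 : ℝ) ≤ r := Nat.cast_nonneg _
  refine ⟨c, K, max n₁ (max n₀ 1), 8 * r + 8 * t + 4 * D₀ + 8, by positivity, ?_⟩
  rintro n hn D hD Ω₁ Ω₂ Ω₃ _ _ _ _ _ _ Y₀ η H hY₀ hYD₀ hη hH f ⟨M, ζ, s₀, hM, h0, hζ, hen, rfl⟩
  have hn1 : n₁ ≤ n := (le_max_left _ _).trans hn
  have hn0 : n₀ ≤ n := (le_max_left _ _).trans ((le_max_right _ _).trans hn)
  have hn3 : 1 ≤ n := (le_max_right _ _).trans ((le_max_right _ _).trans hn)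
  have hnn : (n₀ : ℝ) ≤ n := by exact_mod_cast hn0
  have hnr : (1 : ℝ) ≤ n := by exact_mod_cast hn3
  have hC₁0 : (0 : ℝ) ≤ C₁ := Nat.cast_nonneg _
  have hbig := hn₀.le.trans hnn
  have g1 : (0 : ℝ) ≤ a * C₁ := by positivity
  have g2 : (0 : ℝ) ≤ a * (4 * ((r : ℝ) + 1) ^ 2) := by positivity
  have g3 : (0 : ℝ) ≤ (8 * r * (1 + a)) / ε := by positivity
  have g4 : (0 : ℝ) ≤ 128 * k / ε := by positivity
  -- the widths and the errors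
  obtain ⟨W, hW⟩ : ∃ W : ℕ, W = 2 * Nat.clog 2 n := ⟨_, rfl⟩
  obtain ⟨δ, hδ⟩ : ∃ δ : ℝ, δ = 2 ^ (2 * (W + r)) / ((n : ℝ) + 1) ^ K := ⟨_, rfl⟩
  have hδ0 : 0 ≤ δ := by rw [hδ]; positivity
  have hδ' : 1 / ((n : ℝ) + 1) ^ K ≤ δ := by
    rw [hδ]
    exact div_le_div_of_nonneg_right (one_le_pow₀ (by norm_num)) (by positivity)
  have hδ2 : δ = 2 ^ (2 * (2 * Nat.clog 2 n + r)) / ((n : ℝ) + 1) ^ K := by rw [hδ, hW]
  have e2 : C₁ * δ * (n : ℝ) ^ C₁ ≤ 1 := by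
    have h1 := yma_err n r C₁ K (by omega) hC₁0 (X := C₁ * (n : ℝ) ^ C₁) (by positivity)
      (mul_le_mul_of_nonneg_left (pow_le_pow_left₀ (by linarith) (by linarith) _) hC₁0)
    rw [← hδ2, ← ha] at h1
    calc C₁ * δ * (n : ℝ) ^ C₁ = δ * (C₁ * (n : ℝ) ^ C₁) := by ring
      _ ≤ a * C₁ / ((n : ℝ) + 1) := h1
      _ ≤ 1 := by
        rw [div_le_one (by linarith)]
        linarith
  have e3 : ∀ N : ℕ, N ≤ r * n → δ * ((N : ℝ) + 1) ^ 2 * ((W : ℝ) + 1) ^ 2 ≤ 1 := by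
    intro N hN
    have hN' : (N : ℝ) ≤ r * n := by exact_mod_cast hN
    have hN0 : (0 : ℝ) ≤ N := Nat.cast_nonneg _
    have hW0 : (0 : ℝ) ≤ W := Nat.cast_nonneg _
    have hW' : (W : ℝ) ≤ 2 * n := by
      rw [hW]
      exact_mod_cast Nat.mul_le_mul_left 2 (yma_clog_le n)
    have h2 : ((N : ℝ) + 1) ^ 2 ≤ (((r : ℝ) + 1) * ((n : ℝ) + 1)) ^ 2 :=
      pow_le_pow_left₀ (by linarith) (by nlinarith) 2
    have h3 : ((W : ℝ) + 1) ^ 2 ≤ (2 * ((n : ℝ) + 1)) ^ 2 :=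
      pow_le_pow_left₀ (by linarith) (by linarith) 2
    have h1 := yma_err n r 4 K (by omega) (show (0 : ℝ) ≤ 4 * ((r : ℝ) + 1) ^ 2 by positivity)
      (X := ((N : ℝ) + 1) ^ 2 * ((W : ℝ) + 1) ^ 2) (by positivity) (by
        calc ((N : ℝ) + 1) ^ 2 * ((W : ℝ) + 1) ^ 2 ≤
              (((r : ℝ) + 1) * ((n : ℝ) + 1)) ^ 2 * (2 * ((n : ℝ) + 1)) ^ 2 :=
              mul_le_mul h2 h3 (by positivity) (by positivity)
          _ = 4 * ((r : ℝ) + 1) ^ 2 * ((n : ℝ) + 1) ^ 4 := by ring)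
    rw [← hδ2, ← ha] at h1
    calc δ * ((N : ℝ) + 1) ^ 2 * ((W : ℝ) + 1) ^ 2 =
          δ * (((N : ℝ) + 1) ^ 2 * ((W : ℝ) + 1) ^ 2) := by ring
      _ ≤ a * (4 * ((r : ℝ) + 1) ^ 2) / ((n : ℝ) + 1) := h1
      _ ≤ 1 := by
        rw [div_le_one (by linarith)]
        linarith
  have e4 : ∀ N : ℕ, N ≤ r * n → 2 * (N : ℝ) * ((1 / 2) ^ W + δ) ≤ ε / 4 := by
    intro N hN
    have hN' : (N : ℝ) ≤ r * n := by exact_mod_cast hN
    have h1 : ((1 : ℝ) / 2) ^ W ≤ 1 / n ^ 2 := by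
      have h2 : ((1 : ℝ) / 2) ^ W = 1 / ((2 : ℝ) ^ Nat.clog 2 n) ^ 2 := by
        rw [hW, one_div_pow, mul_comm 2 (Nat.clog 2 n), pow_mul]
      rw [h2]
      apply one_div_le_one_div_of_le (by positivity)
      exact pow_le_pow_left₀ (by linarith) (yma_clog' n) 2
    have h3 : δ ≤ a / n ^ 2 := by
      have h4 := yma_err n r 1 K (by omega) zero_le_one (X := (n : ℝ)) (by linarith)
        (by rw [one_mul, pow_one]; linarith)
      rw [← hδ2, ← ha, mul_one] at h4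
      rw [le_div_iff₀ (by positivity)]
      have h5 : δ * n * (n : ℝ) ≤ a / ((n : ℝ) + 1) * n :=
        mul_le_mul_of_nonneg_right h4 (by linarith)
      have h6 : a / ((n : ℝ) + 1) * n ≤ a := by
        rw [div_mul_eq_mul_div, div_le_iff₀ (by linarith)]
        nlinarith
      calc δ * (n : ℝ) ^ 2 = δ * n * n := by ring
        _ ≤ a := h5.trans h6
    have h7 : (8 * r * (1 + a)) ≤ ε * n := by
      have h8 : (8 * r * (1 + a)) / ε ≤ n := by linarith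
      rw [div_le_iff₀ hε] at h8
      linarith
    calc 2 * (N : ℝ) * ((1 / 2) ^ W + δ) ≤ 2 * (r * n) * (1 / n ^ 2 + a / n ^ 2) := by
          refine mul_le_mul (by linarith) (add_le_add h1 h3) (by positivity) (by positivity)
      _ = 2 * r * (1 + a) / n := by
          field_simp
      _ ≤ ε / 4 := by
          rw [div_le_div_iff₀ (by linarith) (by norm_num)]
          linarith
  -- the strings
  obtain ⟨Y, hYe⟩ : ∃ Y : Cube n → Ω₁ → Cube n, Y = fun t ω => xo (Y₀ t ω) s₀ := ⟨_, rfl⟩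
  have hYD : ∀ t t', (∀ i ∈ D, t i = t' i) → Y t = Y t' := by
    intro t t' htt
    rw [hYe]
    funext ω
    show xo (Y₀ t ω) s₀ = xo (Y₀ t' ω) s₀
    rw [hYD₀ t t' htt]
  have hY' : ∀ t, Bias δ (Y t) := by
    intro t
    rw [hYe]
    exact (Bias.mono (hY₀ t) hδ').xo s₀
  have hU : Bias δ (fun x : Cube n => x) := Bias.mono Bias.unif hδ0
  have hH' : Hs ((1 / 2) ^ c + δ) H := fun Q hQ => (hH Q hQ).trans (by linarith)
  have hf' : Pqc Y₀ η H (fun x => Xp.pr ζ M (xo x s₀)) = Pqc Y η H (Xp.pr ζ M) := by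
    unfold Pqc
    rw [hYe]
    simp only [bg_xo_comm _ s₀]
  have hfu : av (fun x : Cube n => Xp.pr ζ M (xo x s₀)) = av (Xp.pr ζ M) := Xp.av_xo _ s₀
  rw [hf', hfu]
  have hPc := yma_card h0 hM
  -- the wide monomials
  obtain ⟨N, hN⟩ : ∃ N, N = M.filter fun m => m.card ≤ W := ⟨_, rfl⟩
  have hNs : N ⊆ M := by rw [hN]; exact Finset.filter_subset _ _
  have hNζ : ∀ m ∈ N, ‖ζ m‖ = 1 := fun m hm => hζ m (hNs hm)
  have hNr : Xp.Rd r N := yma_rd hM hNs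
  have hN0 : ∀ m ∈ N, m ≠ ∅ := fun m hm => h0 m (hNs hm)
  have hNw : ∀ m ∈ N, m.card ≤ W := fun m hm => by
    rw [hN] at hm
    exact (Finset.mem_filter.1 hm).2
  have hNc := yma_card hN0 hNr
  have d1 : ‖Pqc Y η H (Xp.pr ζ M) - Pqc Y η H (Xp.pr ζ N)‖ ≤ ε / 4 := by
    refine (pqc_close Y η H fun t s => ?_).trans (e4 _ hPc)
    rw [hN]
    exact cut' hζ (fun ω => xo (Y t ω) s) hδ0 ((hY' t).xo s)
  have d2 : ‖av (Xp.pr ζ M) - av (Xp.pr ζ N)‖ ≤ ε / 4 := by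
    refine le_trans ?_ (e4 _ hPc)
    rw [hN]
    exact cut' hζ (fun x : Cube n => x) hδ0 hU
  -- the level
  have hgap0 : ∀ m ∈ N, 0 ≤ gap ζ m := fun m _ => by unfold gap; positivity
  have hgap1 : ∀ m ∈ N, gap ζ m ≤ 1 := fun m hm => gap_le (hNζ m hm)
  obtain ⟨A, hA⟩ : ∃ A : ℝ, A = ∑ m ∈ N, (m.card : ℝ) * (1 / 2 : ℝ) ^ m.card * ‖1 - ζ m‖ ^ 2 :=
    ⟨_, rfl⟩
  obtain ⟨cl, hcl⟩ : ∃ cl : ℝ, cl = (Nat.clog 2 n : ℝ) := ⟨_, rfl⟩
  have hcl0 : 0 ≤ cl := by rw [hcl]; positivity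
  have hWr : (W : ℝ) = 2 * cl := by rw [hW, hcl]; push_cast; ring
  have hAl : (8 * t + 4 * D₀ + 8) * (cl + 1) ≤ A := by
    have h1 := bg_cut hM h0 hζ
    rw [← hW, ← hN, ← hA] at h1
    rw [← hcl] at hen
    nlinarith
  have hmw : t < mw (1 / 2) (gap ζ) N := by
    have h1 := bg_mw (p := 1 / 2) (ζ := ζ) (by norm_num) (by norm_num) hNw
    rw [← hA, hWr] at h1
    have h2 : 4 * (1 + 2 * cl * (1 / 2)) * mw (1 / 2) (gap ζ) N =
      4 * (cl + 1) * mw (1 / 2) (gap ζ) N := by ring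
    rw [h2] at h1
    by_contra hcon
    rw [not_lt] at hcon
    have h3 : 4 * (cl + 1) * mw (1 / 2) (gap ζ) N ≤ 4 * (cl + 1) * t :=
      mul_le_mul_of_nonneg_left hcon (by positivity)
    have h4 : (4 * t + 2 * D₀ + 4) * (cl + 1) ≤ 4 * t * (cl + 1) := by nlinarith
    nlinarith
  have hL : N.card ≤ 2 ^ (Nat.clog 2 n + r + 1) := by
    have h1 : n ≤ 2 ^ Nat.clog 2 n := Nat.le_pow_clog one_lt_two n
    have h2 : r ≤ 2 ^ r := Nat.lt_two_pow_self.le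
    calc N.card ≤ r * n := hNc
      _ ≤ 2 ^ r * 2 ^ Nat.clog 2 n := Nat.mul_le_mul h2 h1
      _ = 2 ^ (Nat.clog 2 n + r) := by rw [pow_add, mul_comm]
      _ ≤ 2 ^ (Nat.clog 2 n + r + 1) := Nat.pow_le_pow_right (by norm_num) (by omega)
  obtain ⟨l, hl, hl1, hl2⟩ := level ht hgap0 hgap1 hL hmw
  obtain ⟨p, hp⟩ : ∃ p : ℝ, p = (1 / 2) ^ (l + 1) := ⟨_, rfl⟩
  rw [← hp] at hl1 hl2
  have hp0 : (0 : ℝ) ≤ p := by rw [hp]; positivity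
  have hp1 : p ≤ 1 / 2 := by
    rw [hp]
    calc (1 / 2 : ℝ) ^ (l + 1) ≤ (1 / 2) ^ 1 :=
          pow_le_pow_of_le_one (by norm_num) (by norm_num) (by omega)
      _ = 1 / 2 := pow_one _
  have hpc : (D₀ + 1) * (p * (cl + 1)) ≤ t := by
    have h1 := bg_mw (p := p) (ζ := ζ) hp0 (by linarith) hNw
    rw [← hA, hWr] at h1
    have h2 : p * ((8 * t + 4 * D₀ + 8) * (cl + 1)) ≤ p * A := mul_le_mul_of_nonneg_left hAl hp0
    have h3 : 4 * (1 + 2 * cl * p) * mw p (gap ζ) N ≤ 4 * (1 + 2 * cl * p) * t :=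
      mul_le_mul_of_nonneg_left hl2 (by positivity)
    have h4 : 0 ≤ p * t := by positivity
    nlinarith
  have hmiss : Miss (2 * (W + r)) p δ (η ⟨l, hl⟩) := by
    rw [hδ, hp]
    exact hη ⟨l, hl⟩ (2 * (W + r))
  have hfam : Xp.Fam r W N := ⟨hN0, hNr, hNw⟩
  -- the leaf is not met
  have hhit : (avg fun ω₂ => one (¬ Disjoint (η ⟨l, hl⟩ ω₂) D)) ≤ ε / 32 := by
    have h1 := miss_hit (hη ⟨l, hl⟩ 1) D
    rw [← hp, pow_one] at h1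
    have h2 : (D.card : ℝ) ≤ k * cl := by rw [hcl]; exact_mod_cast hD
    have h3 : (2 : ℝ) / ((n : ℝ) + 1) ^ K ≤ 2 / ((n : ℝ) + 1) ^ 2 := by
      apply div_le_div_of_nonneg_left (by norm_num) (by positivity)
      exact pow_le_pow_right₀ (by linarith) (by omega)
    have h4 : cl ≤ n := by
      rw [hcl]
      exact_mod_cast yma_clog_le n
    have h5 : (k : ℝ) * cl * (2 / ((n : ℝ) + 1) ^ 2) ≤ ε / 64 := by
      have h6 : 128 * k ≤ ε * n := by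
        have h8 : 128 * k / ε ≤ n := by linarith
        rw [div_le_iff₀ hε] at h8
        linarith
      calc (k : ℝ) * cl * (2 / ((n : ℝ) + 1) ^ 2) ≤ k * n * (2 / ((n : ℝ) + 1) ^ 2) :=
            mul_le_mul_of_nonneg_right (mul_le_mul_of_nonneg_left h4 hk0) (by positivity)
        _ = 2 * k * n / ((n : ℝ) + 1) ^ 2 := by ring
        _ ≤ ε / 64 := by
          rw [div_le_div_iff₀ (by positivity) (by norm_num)]
          have h9 : 128 * k * (n : ℝ) ≤ ε * n * n := mul_le_mul_of_nonneg_right h6 (by linarith)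
          nlinarith
    have h7 : (k : ℝ) * cl * p ≤ ε / 64 := by
      have h8 : (k : ℝ) * cl * p * (D₀ + 1) ≤ k * t := by
        have h9 : (k : ℝ) * ((D₀ + 1) * (p * (cl + 1))) ≤ k * t := mul_le_mul_of_nonneg_left hpc hk0
        have h10 : (0 : ℝ) ≤ k * ((D₀ + 1) * p) := by positivity
        nlinarith
      have h9 : (k : ℝ) * t ≤ ε / 64 * (D₀ + 1) := by
        have : (k : ℝ) * t = ε / 64 * D₀ := by
          rw [hD₀]
          field_simp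
        nlinarith
      exact le_of_mul_le_mul_right (h8.trans h9) (by positivity)
    calc (avg fun ω₂ => one (¬ Disjoint (η ⟨l, hl⟩ ω₂) D)) ≤
          D.card * (p + 2 / ((n : ℝ) + 1) ^ K) := h1
      _ ≤ k * cl * (p + 2 / ((n : ℝ) + 1) ^ 2) := by
          refine mul_le_mul h2 (by linarith) (by positivity) (by positivity)
      _ = k * cl * p + k * cl * (2 / ((n : ℝ) + 1) ^ 2) := by ring
      _ ≤ ε / 32 := by linarith
  have k1 : ‖Pqc Y η H (Xp.pr ζ N)‖ ≤ ε / 8 := by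
    have h1 := pqc_level Y η H ⟨l, hl⟩ (f := Xp.pr ζ N) (ε := ε / 16) (ε' := ε / 32) D
      (fun x => (yma_norm_pr hNζ x).le) hYD hhit fun sh =>
        hcore n hn1 W N ζ hfam hNζ p δ hp0 hp1 hl1 hl2 hδ0 e2
          (e3 _ hNc) (fun ω₂ ω₃ => Y (sh ω₂ ω₃)) (η ⟨l, hl⟩) H sh (fun ω₂ ω₃ => hY' _) hmiss hH'
    linarith
  have k2 : ‖av (Xp.pr ζ N)‖ ≤ ε / 16 := by
    have h1 := hcore n hn1 W N ζ hfam hNζ p δ hp0 hp1 hl1 hl2 hδ0 e2
      (e3 _ hNc) (fun _ _ x => x) (η ⟨l, hl⟩) H (fun _ _ _ => false) (fun _ _ => hU) hmiss hH'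
    have h2 : (av fun ω₂ : Ω₂ => av fun ω₃ : Ω₃ => av fun x : Cube n =>
        av fun b : Fin c → Bool =>
        Xp.pr ζ N (mq (xo x fun _ => false) (η ⟨l, hl⟩ ω₂) (uv b (H ω₃)))) = av (Xp.pr ζ N) := by
      have h3 : ∀ (ω₂ : Ω₂) (ω₃ : Ω₃), (av fun x : Cube n => av fun b : Fin c → Bool =>
          Xp.pr ζ N (mq (xo x fun _ => false) (η ⟨l, hl⟩ ω₂) (uv b (H ω₃)))) =
          av (Xp.pr ζ N) := by
        intro ω₂ ω₃
        rw [av_comm]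
        simp only [yma_unif]
        exact yma_av_const _
      simp only [h3]
      rw [yma_av_const, yma_av_const]
    rw [h2] at h1
    exact h1
  have d3 : ‖Pqc Y η H (Xp.pr ζ N) - av (Xp.pr ζ N)‖ ≤ ε / 4 := by
    refine (norm_sub_le _ _).trans ?_
    linarith
  calc ‖Pqc Y η H (Xp.pr ζ M) - av (Xp.pr ζ M)‖
      = ‖(Pqc Y η H (Xp.pr ζ M) - Pqc Y η H (Xp.pr ζ N)) +
          (Pqc Y η H (Xp.pr ζ N) - av (Xp.pr ζ N)) - (av (Xp.pr ζ M) - av (Xp.pr ζ N))‖ := by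
        congr 1
        ring
    _ ≤ ‖(Pqc Y η H (Xp.pr ζ M) - Pqc Y η H (Xp.pr ζ N)) +
          (Pqc Y η H (Xp.pr ζ N) - av (Xp.pr ζ N))‖ +
          ‖av (Xp.pr ζ M) - av (Xp.pr ζ N)‖ := norm_sub_le _ _
    _ ≤ (‖Pqc Y η H (Xp.pr ζ M) - Pqc Y η H (Xp.pr ζ N)‖ +
          ‖Pqc Y η H (Xp.pr ζ N) - av (Xp.pr ζ N)‖) +
          ‖av (Xp.pr ζ M) - av (Xp.pr ζ N)‖ := add_le_add (norm_add_le _ _) le_rfl
    _ ≤ ε := by linarith

/-! ## The leaves -/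

theorem bg_norm {r : ℕ} {C : ℝ} {f : Cube n → ℂ} (hf : f ∈ Big r C n) (x : Cube n) : ‖f x‖ ≤ 1 := by
  obtain ⟨M, ζ, s, -, -, hζ, -, rfl⟩ := hf
  exact (yma_norm_pr hζ _).le

/-- **Row BG.** -/
theorem big (r k : ℕ) {ε : ℝ} (hε : 0 < ε) : ∃ C : ℝ, 0 ≤ C ∧ LFooled (Big r C) k ε := by
  classical
  obtain ⟨c, KK, n₁, C, hC, Hx⟩ := bgx r k (show 0 < ε / 4 by positivity)
  obtain ⟨E, G, hG, hgen⟩ := qgen r c (KK + (k + 1))
  obtain ⟨n₂, hn₂⟩ := exists_nat_gt ((2 : ℝ) ^ k * (2 + 2 / ε))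
  refine ⟨C, hC, E, G, hG, max n₁ n₂, fun n hn L a hL f hf => ?_⟩
  have hn1 : n₁ ≤ n := (le_max_left _ _).trans hn
  have hn2 : (n₂ : ℝ) ≤ n := by exact_mod_cast (le_max_right _ _).trans hn
  have hn0 : (0 : ℝ) ≤ n := Nat.cast_nonneg n
  have hp0 : (0 : ℝ) < (n : ℝ) + 1 := by linarith
  have hp1 : (1 : ℝ) ≤ (n : ℝ) + 1 := by linarith
  obtain ⟨M₁, M₂, M₃, hM₁, hM₂, hM₃, Y, η, H, hY, hη, hH, hf'⟩ := hgen n
  have : Nonempty (Fin M₁) := ⟨⟨0, hM₁⟩⟩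
  have : Nonempty (Fin M₂) := ⟨⟨0, hM₂⟩⟩
  have : Nonempty (Fin M₃) := ⟨⟨0, hM₃⟩⟩
  obtain ⟨δ, hδ⟩ : ∃ δ : ℝ, δ = 1 / ((n : ℝ) + 1) ^ (KK + (k + 1)) := ⟨_, rfl⟩
  rw [← hδ] at hY hH
  have hδ0 : 0 ≤ δ := by rw [hδ]; positivity
  -- the numbers
  have hbig : (2 : ℝ) ^ k * (2 + 2 / ε) ≤ (n : ℝ) + 1 := by linarith
  have h2k : (0 : ℝ) < 2 ^ k := by positivity
  have hb1 : (2 : ℝ) ^ k * 2 ≤ (n : ℝ) + 1 := by
    have h3 : (0 : ℝ) ≤ 2 ^ k * (2 / ε) := by positivity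
    nlinarith
  have hb2 : (2 : ℝ) ^ k * (2 / ε) ≤ (n : ℝ) + 1 := by nlinarith
  have hL2 : (2 : ℝ) ^ L.card ≤ 2 ^ k * ((n : ℝ) + 1) ^ k := by
    calc (2 : ℝ) ^ L.card ≤ 2 ^ (k * Nat.clog 2 n) := pow_le_pow_right₀ (by norm_num) hL
      _ = ((2 : ℝ) ^ Nat.clog 2 n) ^ k := by rw [mul_comm, pow_mul]
      _ ≤ (2 * ((n : ℝ) + 1)) ^ k := pow_le_pow_left₀ (by positivity) (Xp.ma_clog n) k
      _ = 2 ^ k * ((n : ℝ) + 1) ^ k := mul_pow _ _ _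
  have hδL : δ * 2 ^ L.card ≤ 2 ^ k / ((n : ℝ) + 1) * (1 / ((n : ℝ) + 1) ^ KK) := by
    calc δ * 2 ^ L.card ≤ δ * (2 ^ k * ((n : ℝ) + 1) ^ k) := mul_le_mul_of_nonneg_left hL2 hδ0
      _ = 2 ^ k / ((n : ℝ) + 1) * (1 / ((n : ℝ) + 1) ^ KK) := by
        rw [hδ, pow_add, pow_add, pow_one]
        field_simp
  have hKK : 1 / ((n : ℝ) + 1) ^ KK ≤ 1 := by
    rw [div_le_one (by positivity)]
    exact one_le_pow₀ hp1
  have hKK0 : 0 ≤ 1 / ((n : ℝ) + 1) ^ KK := by positivity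
  have hq1 : (2 : ℝ) ^ k / ((n : ℝ) + 1) ≤ 1 / 2 := by
    rw [div_le_iff₀ hp0]
    linarith
  have hq2 : (2 : ℝ) ^ k / ((n : ℝ) + 1) ≤ ε / 2 := by
    rw [div_le_iff₀ hp0]
    have h3 : (2 : ℝ) ^ k * (2 / ε) * (ε / 2) = 2 ^ k := by field_simp
    nlinarith
  have hδL1 : δ * 2 ^ L.card ≤ 1 / 2 := hδL.trans (by nlinarith)
  have hδL2 : δ * 2 ^ L.card ≤ ε / 2 := hδL.trans (by nlinarith)
  have hδL3 : 2 ^ (L.card + 1) * δ ≤ 1 / ((n : ℝ) + 1) ^ KK := by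
    have h3 : 2 ^ (L.card + 1) * δ = 2 * (δ * 2 ^ L.card) := by ring
    rw [h3]
    nlinarith
  have hδK : δ ≤ 1 / ((n : ℝ) + 1) ^ KK := by
    have h3 : (1 : ℝ) ≤ 2 ^ (L.card + 1) := one_le_pow₀ (by norm_num)
    nlinarith
  have hηK : ∀ (l : Fin (Nat.clog 2 n + r + 1)) (s : ℕ),
      Miss s ((1 / 2 : ℝ) ^ ((l : ℕ) + 1)) (2 ^ s / ((n : ℝ) + 1) ^ KK) (η l) := by
    intro l s A hA
    refine (hη l s A hA).trans ?_
    rw [div_eq_mul_one_div, div_eq_mul_one_div ((2 : ℝ) ^ s), ← hδ]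
    exact mul_le_mul_of_nonneg_left hδK (by positivity)
  have hHK : Hs ((1 / 2) ^ c + 1 / ((n : ℝ) + 1) ^ KK) H := fun Q hQ =>
    (hH Q hQ).trans (by linarith)
  -- the conditioned string
  obtain ⟨hP, Ω', i1, i2, Y', hY', hloc, hlf⟩ := cz hδ0 hY L hδL1
  have hnorm : ∀ x, ‖f x‖ ≤ 1 := bg_norm hf
  have key := Hx n hn1 L hL (fun t => Y' (xo a t)) η H (fun t => gl_bias (hY' _) hδL3)
    (fun t t' ht => hloc _ _ fun j hj => by
      show xor (a j) (t j) = xor (a j) (t' j)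
      rw [ht j hj])
    hηK hHK f hf
  have hav : (av fun p : Fin (2 ^ E n) => lf L a f (out G n p)) =
      av fun b : Fin (Nat.clog 2 n + r + 1) → Fin c → Bool => av fun ω₂ => av fun ω₃ =>
        av fun ω₁ => lf L a f (gq (Y ω₁) (fun l => η l ω₂) (H ω₃) b) := by
    rw [← hf' (lf L a f)]
    exact (Xv.na_eq_av (2 ^ E n) fun p => lf L a f (out G n p)).symm
  have hin : ∀ (b : Fin (Nat.clog 2 n + r + 1) → Fin c → Bool) (ω₂ : Fin M₂) (ω₃ : Fin M₃),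
      ‖(av fun ω₁ => lf L a f (gq (Y ω₁) (fun l => η l ω₂) (H ω₃) b)) -
        (1 / 2) ^ L.card * av fun ω₁ : Ω' =>
          f (xo (Y' (xo a (gq (fun _ => false) (fun l => η l ω₂) (H ω₃) b)) ω₁)
            (gq (fun _ => false) (fun l => η l ω₂) (H ω₃) b))‖ ≤ δ := by
    intro b ω₂ ω₃
    obtain ⟨t, ht⟩ : ∃ t : Cube n, t = gq (fun _ => false) (fun l => η l ω₂) (H ω₃) b := ⟨_, rfl⟩
    have h1 : (av fun ω₁ => lf L a f (gq (Y ω₁) (fun l => η l ω₂) (H ω₃) b)) =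
        av fun ω₁ => lf L (xo a t) (fun z => f (xo z t)) (Y ω₁) := by
      congr 1
      funext ω₁
      rw [gq_xo (Y ω₁), ← ht, gl_lf_xo]
    rw [h1, hlf, ← ht]
    have h2 : ‖av fun ω' => f (xo (Y' (xo a t) ω') t)‖ ≤ 1 := Xp.ma_norm_av fun ω' => hnorm _
    have h3 := hP (xo a t)
    have h4 : ((avg fun ω => one (Xl.Tr L (xo a t) (Y ω)) : ℝ) : ℂ) *
        (av fun ω' => f (xo (Y' (xo a t) ω') t)) -
        (1 / 2) ^ L.card * (av fun ω' => f (xo (Y' (xo a t) ω') t)) =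
        (((avg fun ω => one (Xl.Tr L (xo a t) (Y ω))) - (1 / 2) ^ L.card : ℝ) : ℂ) *
          av fun ω' => f (xo (Y' (xo a t) ω') t) := by
      push_cast
      ring
    rw [h4, norm_mul, Complex.norm_real, Real.norm_eq_abs]
    calc |(avg fun ω => one (Xl.Tr L (xo a t) (Y ω))) - (1 / 2) ^ L.card| *
        ‖av fun ω' => f (xo (Y' (xo a t) ω') t)‖ ≤ δ * 1 :=
          mul_le_mul h3 h2 (norm_nonneg _) hδ0
      _ = δ := mul_one _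
  have hPqc : (1 / 2 : ℂ) ^ L.card * Pqc (fun t => Y' (xo a t)) η H f =
      av fun b : Fin (Nat.clog 2 n + r + 1) → Fin c → Bool => av fun ω₂ => av fun ω₃ =>
        (1 / 2) ^ L.card * av fun ω₁ : Ω' =>
          f (xo (Y' (xo a (gq (fun _ => false) (fun l => η l ω₂) (H ω₃) b)) ω₁)
            (gq (fun _ => false) (fun l => η l ω₂) (H ω₃) b)) := by
    unfold Pqc
    simp only [yma_av_mul_left]
  have h1 : ‖(av fun p : Fin (2 ^ E n) => lf L a f (out G n p)) -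
      (1 / 2) ^ L.card * Pqc (fun t => Y' (xo a t)) η H f‖ ≤ δ := by
    rw [hav, hPqc]
    exact yma_close fun b => yma_close fun ω₂ => yma_close fun ω₃ => hin b ω₂ ω₃
  have h2 : ‖(1 / 2 : ℂ) ^ L.card * Pqc (fun t => Y' (xo a t)) η H f -
      (1 / 2) ^ L.card * av f‖ ≤ (1 / 2) ^ L.card * (ε / 4) := by
    rw [← mul_sub, norm_mul]
    refine mul_le_mul (le_of_eq ?_) key (norm_nonneg _) (by positivity)
    rw [norm_pow]
    norm_num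
  have h3 : δ ≤ ε / 2 * (1 / 2) ^ L.card := by
    have h4 : δ = δ * 2 ^ L.card * (1 / 2) ^ L.card := by
      rw [mul_assoc, ← mul_pow]
      norm_num
    rw [h4]
    exact mul_le_mul_of_nonneg_right hδL2 (by positivity)
  have h5 : (0 : ℝ) < (1 / 2) ^ L.card := by positivity
  calc ‖(av fun p : Fin (2 ^ E n) => lf L a f (out G n p)) - (1 / 2) ^ L.card * av f‖ ≤
      ‖(av fun p : Fin (2 ^ E n) => lf L a f (out G n p)) -
        (1 / 2) ^ L.card * Pqc (fun t => Y' (xo a t)) η H f‖ +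
      ‖(1 / 2 : ℂ) ^ L.card * Pqc (fun t => Y' (xo a t)) η H f - (1 / 2) ^ L.card * av f‖ :=
        norm_sub_le_norm_sub_add_norm_sub _ _ _
    _ ≤ ε * (1 / 2) ^ L.card := by nlinarith

end Pool.Agent.MP_ca1109_lc.Xd
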