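import Pool.Agent.MP_ca1109_lc.Xl.Defs
import Pool.Agent.MP_ca1109_lc.Xp.GX

/-!
# Decision trees on top: definitions

* `sb L w x`: the bits of `x` in `L` are replaced by those of `w`.
* `lf L a f x`: `1[x = a on L]` times the average of `f` over the bits in `L`.
* `Lf 𝒯 k ε X`: at every leaf with at most `k ⌈log₂ n⌉` queries the string `X`, with fresh bits at the
  queried positions, fools the functions in `𝒯`, with relative error `ε`.
* `Phc Y η h f`: the average over the sources, where the first string depends on the second one.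
-/

namespace Pool.Agent.MP_ca1109_lc.Xd

open Finset Pool.Agent.MP_ca1109_lc.Mpg Pool.Agent.MP_ca1109_lc.Agp
open Pool.Agent.MP_ca1109_lc.Dnf (Cube ch one Term)
open Pool.Agent.MP_ca1109_lc.Xp (Sp Bias xo Src mv gx)
open Pool.Agent.MP_ca1109_lc.Xl (Tr)

variable {n : ℕ}

/-- The bits of `x` in `L` are replaced by those of `w`. -/
def sb (L : Finset (Fin n)) (w x : Cube n) : Cube n := fun i => if i ∈ L then w i else x i

/-- `1[x = a on L]` times the average of `f` over the bits in `L`. -/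
noncomputable def lf (L : Finset (Fin n)) (a : Cube n) (f : Cube n → ℂ) (x : Cube n) : ℂ :=
  ((one (Tr L a x) : ℝ) : ℂ) * av fun w : Cube n => f (sb L w x)

/-- At every leaf with at most `k ⌈log₂ n⌉` queries the string `X`, with fresh bits at the queried
positions, fools the functions in `𝒯`, with relative error `ε`. -/
def Lf (𝒯 : Set (Cube n → ℂ)) (k : ℕ) (ε : ℝ) {Ω : Type*} [Fintype Ω] (X : Ω → Cube n) : Prop :=
  ∀ (L : Finset (Fin n)) (a : Cube n), L.card ≤ k * Nat.clog 2 n → ∀ f ∈ 𝒯,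
    ‖av (fun ω => lf L a f (X ω)) - (1 / 2) ^ L.card * av f‖ ≤ ε * (1 / 2) ^ L.card

/-- An explicit generator with logarithmic seeds for the leaves. -/
def LFooled (𝒯 : ∀ n : ℕ, Set ((Fin n → Bool) → ℂ)) (k : ℕ) (ε : ℝ) : Prop :=
  ∃ E G, NG E G ∧ ∃ n₀ : ℕ, ∀ n ≥ n₀, Lf (𝒯 n) k ε (fun p : Fin (2 ^ E n) => out G n p)

/-- The average over the sources; the string `Y t` depends on the sum `t` of the moves. -/
noncomputable def Phc {L B : ℕ} {Ω₁ Ω₂ : Type} [Fintype Ω₁] [Fintype Ω₂] (Y : Cube n → Ω₁ → Cube n)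
    (η : Fin L → Ω₂ → Finset (Fin n)) (h : Ω₂ → Fin n → Fin B) (f : Cube n → ℂ) : ℂ :=
  av fun v : Fin L → Fin B → Bool => av fun ω₂ => av fun ω₁ =>
    f (xo (Y (gx (fun _ => false) (fun l => η l ω₂) (h ω₂) v) ω₁)
      (gx (fun _ => false) (fun l => η l ω₂) (h ω₂) v))

end Pool.Agent.MP_ca1109_lc.Xd
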