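import Pool.Agent.MP_ca1109_lc.Xd.VL
import Pool.Agent.MP_ca1109_lc.Xd.GL
import Pool.Agent.MP_ca1109_lc.Xd.CZ
import Pool.Agent.MP_ca1109_lc.Xa.FU
import Pool.Agent.MP_ca1109_lc.Xv.GP
import Pool.Agent.MP_ca1109_lc.Xv.CB

/-!
# Decision trees on top: the leaves, all products
-/

namespace Pool.Agent.MP_ca1109_lc.Xd

open Finset Pool.Agent.H66 Pool.Agent.MP_ca1109_lc.Mpg Pool.Agent.MP_ca1109_lc.Agp
open Pool.Agent.MP_ca1109_lc.Dnf (Cube ch one Term)
open Pool.Agent.MP_ca1109_lc.Xl (Tr pr Rd wb)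
open Pool.Agent.MP_ca1109_lc.Xt (BP rd_sub)
open Pool.Agent.MP_ca1109_lc.Xg (hx)
open Pool.Agent.MP_ca1109_lc.Xp (ma_norm_av ma_av_const ma_av_mul_left)
open Pool.Agent.MP_ca1109_lc.Xa (FP PB fu_card)
open Pool.Agent.MP_ca1109_lc.Xv (Chain vio BPy bpy_chain ypr_coe yrd_coe yhx_coe)

variable {n : ℕ}

theorem fl_rd {ι : Type} [IsEmpty ι] (r : ℕ) (T : ι → Term n) (M : Finset ι) : Rd r T M := by
  intro i
  rw [Finset.eq_empty_of_isEmpty (M.filter fun m => i ∈ (T m).S), Finset.card_empty]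
  exact Nat.zero_le _

theorem fl_one {q r b : ℕ} {K V : ℝ} (hK : 0 ≤ K) (hV : 0 ≤ V) (i n : ℕ) :
    (fun _ => 1) ∈ BPy q r b K V i n := by
  classical
  refine ⟨Empty, Empty, Empty, inferInstance, inferInstance, inferInstance, Empty.elim, Empty.elim,
    Empty.elim, Empty.elim, Empty.elim, fun _ => 1, ⟨?_, fl_rd _ _ _, fun m => m.elim⟩,
    ⟨?_, fl_rd _ _ _, fun m => m.elim, ?_⟩, ⟨?_, fl_rd _ _ _, ?_, fun A => ?_⟩, ?_⟩
  · simp
  · simp
  · simp only [Finset.univ_eq_empty, Finset.sum_empty]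
    positivity
  · simp
  · simp only [Finset.univ_eq_empty, Finset.sum_empty]
    positivity
  · exact norm_one.le
  · funext x
    unfold Xl.pr
    simp

/-- The generator fools all products at the leaves. -/
theorem fl_gen (a d r q k : ℕ) (K V : ℝ) {ε : ℝ} (hq : 0 < q) (hK : 0 ≤ K) (hV : 0 ≤ V)
    (hε : 0 < ε) : LFooled (fun n => {f | PB (vio a d n) r q K V f}) k ε := by
  classical
  obtain ⟨E, G, hNG, n₀, HG⟩ := low_freeL (bpy_chain hq (r := r) (b := 2) (K := K) (V := V))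
    (fun i n => fl_one hK hV i n) (fun i ε hε => gl r q 2 k i hq K V hε) 0 a d hε
  refine ⟨E, G, hNG, max n₀ r, fun n hn L t hL f hf => ?_⟩
  have hn0 : n₀ ≤ n := (le_max_left _ _).trans hn
  have hnr : r ≤ n := (le_max_right _ _).trans hn
  have hcard : ∀ {ι : Type} {T : ι → Term n} {M : Finset ι}, Rd r T M →
      (∀ m ∈ M, (T m).S ≠ ∅) → M.card ≤ n ^ 2 := by
    intro ι T M hM h0
    refine (fu_card hM h0).trans ?_
    rw [pow_two]
    exact Nat.mul_le_mul_left _ hnr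
  obtain ⟨u, hu, ι, i1, T, M, ζ, g, h1, h2, h3, h4, h5⟩ := hf
  obtain ⟨A, hA, hu1⟩ := hu
  obtain ⟨κ, i2, T', z, J, ψ, k1, k2, k3, k4, k5, k6, k7⟩ := h4
  have hT' : Rd r T' (univ : Finset κ) := k2
  have hJ : Rd r T' J := rd_sub hT' (subset_univ _)
  have hne : ∀ m, (T' m).S ≠ ∅ := fun m => nonempty_iff_ne_empty.1 (k1 m)
  have a1 : Rd r T (M.filter fun m => (T m).S.card ≤ wb (2 + 1) n) := rd_sub h1 (filter_subset _ _)
  have c1 : Rd r T' (J.filter fun m => (T' m).S.card ≤ wb (2 + 1) n) :=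
    rd_sub hJ (filter_subset _ _)
  have hg : (fun x => pr T ζ M x * (ψ (hx J T' x) * pr T' z univ x)) ∈ BPy q r 2 K V 0 n := by
    refine ⟨M, κ, J, inferInstance, inferInstance, inferInstance, fun m => T m, fun m => ζ m,
      T', z, fun m => T' m,
      fun A => ψ (A.map (Function.Embedding.subtype _)), ⟨?_, ?_, fun m => h3 m m.2⟩,
      ⟨?_, ?_, fun m => k3 m, ?_⟩, ⟨?_, ?_, ?_, fun A => k4 _⟩, ?_⟩
    · rw [Fintype.card_coe, pow_zero, one_mul]
      exact hcard h1 h2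
    · rw [pow_zero, one_mul]
      exact yrd_coe a1
    · rw [pow_zero, one_mul, ← Finset.card_univ]
      exact hcard hT' fun m _ => hne m
    · rw [pow_zero, one_mul]
      exact rd_sub hT' (filter_subset _ _)
    · rw [pow_zero, one_mul]
      exact k5
    · rw [Fintype.card_coe, pow_zero, one_mul]
      exact hcard hJ fun m _ => hne m
    · rw [pow_zero, one_mul]
      exact yrd_coe c1
    · rw [pow_zero, one_mul]
      refine le_trans (le_of_eq ?_) k6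
      exact Finset.sum_coe_sort J fun m => (1 / 2 : ℝ) ^ (T' m).S.card
    · funext x
      rw [ypr_coe T ζ M x, ← yhx_coe T' J x]
  have hm : f ∈ {f : (Fin n → Bool) → ℂ | ∃ A ∈ lowDeg (Fin n) Bool (ZMod (2 ^ a)) d,
      ∃ g ∈ BPy q r 2 K V 0 n, f = fun x => ph (2 ^ a) (A x) * g x} := by
    refine ⟨A, hA, _, hg, ?_⟩
    funext x
    rw [h5, hu1, k7]
    congr 2
  have h := HG n hn0 L t hL f hm
  exact h

/-- The products are bounded by one. -/
theorem fl_norm {a d r q : ℕ} (hq : 0 < q) {K V : ℝ} {f : Cube n → ℂ}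
    (hf : PB (vio a d n) r q K V f) (x : Cube n) : ‖f x‖ ≤ 1 := by
  classical
  obtain ⟨u, hu, ι, i1, T, M, ζ, g, h1, h2, h3, h4, h5⟩ := hf
  obtain ⟨A, hA, hu1⟩ := hu
  obtain ⟨κ, i2, T', z, J, ψ, k1, k2, k3, k4, k5, k6, k7⟩ := h4
  have e1 : ‖pr T ζ M x‖ = 1 := Xl.ml_norm_pr (fun m hm =>
    Complex.norm_eq_one_of_pow_eq_one (h3 m hm) hq.ne') x
  have e2 : ‖ph (2 ^ a) (A x)‖ = 1 := by
    exact norm_ph _ _
  have e3 : ‖g x‖ ≤ 1 := by
    rw [k7]
    unfold Pb.tt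
    rw [norm_mul, norm_prod]
    have e4 : ∏ j, ‖(if (T' j).Sat x then z j else (1 : ℂ))‖ = 1 := by
      refine Finset.prod_eq_one fun j _ => ?_
      split_ifs
      · exact k3 j
      · exact norm_one
    rw [e4, mul_one]
    exact k4 _
  rw [h5, hu1, norm_mul, norm_mul, e1, e2, one_mul, one_mul]
  exact e3

/-- The conditional strings fool all products. -/
theorem fl_cond {U : Submonoid (Cube n → ℂ)} {r q k : ℕ} {K V ε : ℝ} (hK : 0 ≤ K) (hV : 0 ≤ V)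
    (hε : 0 ≤ ε) (hε1 : ε ≤ 1 / 2) {Ω : Type} [Fintype Ω] [Nonempty Ω] {X : Ω → Cube n}
    (hX : Lf {f | PB U r q K V f} k ε X) (hf : ∀ f, PB U r q K V f → ∀ x, ‖f x‖ ≤ 1)
    (L : Finset (Fin n)) (hL : L.card ≤ k * Nat.clog 2 n) (t : Cube n) :
    |(avg fun ω => one (Tr L t (X ω))) - (1 / 2) ^ L.card| ≤ ε * (1 / 2) ^ L.card ∧
    ∃ (Ω' : Type) (_ : Fintype Ω') (_ : Nonempty Ω') (X' : Ω' → Cube n),
      FP U r q K V (4 * ε) X' ∧ ∀ f : Cube n → ℂ, av (fun ω => lf L t f (X ω)) =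
        ((avg fun ω => one (Tr L t (X ω)) : ℝ) : ℂ) * av fun ω' => f (X' ω') := by
  obtain ⟨P, hP⟩ : ∃ P : ℝ, P = avg fun ω => one (Tr L t (X ω)) := ⟨_, rfl⟩
  obtain ⟨D, hD⟩ : ∃ D : ℝ, D = (1 / 2) ^ L.card := ⟨_, rfl⟩
  have hD0 : 0 < D := by rw [hD]; positivity
  have hDc : ((1 / 2 : ℂ)) ^ L.card = ((D : ℝ) : ℂ) := by
    rw [hD]
    push_cast
    ring
  have h1 : (av fun ω => lf L t (fun _ => 1) (X ω)) = ((P : ℝ) : ℂ) := by
    have h2 : ∀ x : Cube n, lf L t (fun _ => 1) x = ((one (Tr L t x) : ℝ) : ℂ) := by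
      intro x
      unfold lf
      rw [ma_av_const, mul_one]
    simp only [h2]
    rw [hP]
    unfold av avg
    push_cast
    rfl
  have h2 := hX L t hL (fun _ => 1) (PB.one r q hK hV)
  rw [h1, ma_av_const, mul_one, hDc, ← hD, ← Complex.ofReal_sub, Complex.norm_real,
    Real.norm_eq_abs] at h2
  have h3 : D / 2 ≤ P := by
    have h4 := (abs_le.1 h2).1
    nlinarith
  have h4 : 0 < P := by linarith
  obtain ⟨Ω', i1, i2, X', hX'⟩ := cond X L t (by rw [← hP]; exact h4)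
  rw [← hP] at hX' ⊢
  rw [← hD]
  refine ⟨h2, Ω', i1, i2, X', fun f hfp => ?_, hX'⟩
  have h5 := hX L t hL f hfp
  rw [hX', hDc, ← hD] at h5
  have h6 : ‖av f‖ ≤ 1 := ma_norm_av fun x => hf f hfp x
  have h7 : ‖((P : ℝ) : ℂ) * (av (fun ω' => f (X' ω')) - av f)‖ ≤ 2 * ε * D := by
    have h8 : ((P : ℝ) : ℂ) * (av (fun ω' => f (X' ω')) - av f) =
        (((P : ℝ) : ℂ) * av (fun ω' => f (X' ω')) - ((D : ℝ) : ℂ) * av f) +
          (((D - P : ℝ)) : ℂ) * av f := by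
      push_cast
      ring
    rw [h8]
    refine (norm_add_le _ _).trans ?_
    have h9 : ‖(((D - P : ℝ)) : ℂ) * av f‖ ≤ ε * D := by
      rw [norm_mul, Complex.norm_real, Real.norm_eq_abs, abs_sub_comm]
      calc |P - D| * ‖av f‖ ≤ |P - D| * 1 := mul_le_mul_of_nonneg_left h6 (abs_nonneg _)
        _ ≤ ε * D := by rw [mul_one]; exact h2
    linarith
  rw [norm_mul, Complex.norm_real, Real.norm_eq_abs, abs_of_pos h4] at h7
  by_contra hlt
  rw [not_le] at hlt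
  have h10 : D / 2 * (4 * ε) < P * ‖av (fun ω' => f (X' ω')) - av f‖ := by
    calc D / 2 * (4 * ε) ≤ P * (4 * ε) := mul_le_mul_of_nonneg_right h3 (by positivity)
      _ < P * ‖av (fun ω' => f (X' ω')) - av f‖ := mul_lt_mul_of_pos_left hlt h4
  linarith

end Pool.Agent.MP_ca1109_lc.Xd
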