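import Pool.Agent.MP_ca1109_lc.Xu.Tree

/-!
# Gates restricted to a subcube, and the leaves of a decision tree

* `fx L a x`: the bits in `L` are replaced by those of `a`.
* `Gate.fx`, `GateTest.fx`: functions of gates stay in the class.
* `Tree.leaves`: a function computed by a decision tree of depth `D` agrees on each cell of a
  partition into at most `2 ^ D` subcubes of codimension at most `D` with a function in the class.
-/

namespace Pool.Agent.MP_ca1109_lc.Xd

open Finset
open Pool.Agent.MP_ca1109_lc.Xu (litSum Gate GateTest Tree TreeTest)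

variable {n : ℕ}

/-- The bits in `L` are replaced by those of `a`. -/
def fx (L : Finset (Fin n)) (a x : Fin n → Bool) : Fin n → Bool := fun i => if i ∈ L then a i else x i

theorem fx_self {L : Finset (Fin n)} {a x : Fin n → Bool} (h : ∀ i ∈ L, x i = a i) :
    fx L a x = x := by
  funext i
  unfold fx
  split_ifs with hi
  · exact (h i hi).symm
  · rfl

theorem fx_mem {L : Finset (Fin n)} {a x : Fin n → Bool} {i : Fin n} (hi : i ∈ L) :
    fx L a x i = a i := if_pos hi

theorem fx_notMem {L : Finset (Fin n)} {a x : Fin n → Bool} {i : Fin n} (hi : i ∉ L) :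
    fx L a x i = x i := if_neg hi

open Classical in
/-- The variables of the restricted conjunctions. -/
noncomputable def rS (L : Finset (Fin n)) (a : Fin n → Bool) {N : ℕ} (S : Fin N → Finset (Fin n))
    (y : Fin N → Fin n → Bool) (m : Fin N) : Finset (Fin n) :=
  if ∀ i ∈ S m, i ∈ L → a i = y m i then S m \ L else ∅

open Classical in
/-- The coefficients of the restricted conjunctions. -/
noncomputable def rc {Γ : Type*} [Zero Γ] (L : Finset (Fin n)) (a : Fin n → Bool) {N : ℕ}
    (S : Fin N → Finset (Fin n)) (y : Fin N → Fin n → Bool) (c : Fin N → Γ) (m : Fin N) : Γ :=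
  if ∀ i ∈ S m, i ∈ L → a i = y m i then c m else 0

theorem rS_mem {L : Finset (Fin n)} {a : Fin n → Bool} {N : ℕ} {S : Fin N → Finset (Fin n)}
    {y : Fin N → Fin n → Bool} {m : Fin N} {i : Fin n} (h : i ∈ rS L a S y m) :
    (∀ i ∈ S m, i ∈ L → a i = y m i) ∧ i ∈ S m ∧ i ∉ L := by
  unfold rS at h
  by_cases hc : ∀ i ∈ S m, i ∈ L → a i = y m i
  · rw [if_pos hc, mem_sdiff] at h
    exact ⟨hc, h⟩
  · rw [if_neg hc] at h
    exact absurd h (notMem_empty i)

theorem rS_card {L : Finset (Fin n)} {a : Fin n → Bool} {N : ℕ} {S : Fin N → Finset (Fin n)}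
    {y : Fin N → Fin n → Bool} {m : Fin N} : (rS L a S y m).card ≤ (S m).card :=
  card_le_card fun _ h => (rS_mem h).2.1

theorem litSum_fx {Γ : Type*} [AddCommMonoid Γ] (L : Finset (Fin n)) (a : Fin n → Bool) {N : ℕ}
    (S : Fin N → Finset (Fin n)) (y : Fin N → Fin n → Bool) (c : Fin N → Γ) (x : Fin n → Bool) :
    litSum S y c (fx L a x) = litSum (rS L a S y) y (rc L a S y c) x := by
  unfold litSum
  refine sum_congr rfl fun m _ => ?_
  by_cases hc : ∀ i ∈ S m, i ∈ L → a i = y m i
  · have h1 : rS L a S y m = S m \ L := if_pos hc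
    have h2 : rc L a S y c m = c m := if_pos hc
    have h3 : (∀ i ∈ S m, fx L a x i = y m i) ↔ ∀ i ∈ rS L a S y m, x i = y m i := by
      rw [h1]
      constructor
      · intro h i hi
        rw [mem_sdiff] at hi
        rw [← fx_notMem (a := a) (x := x) hi.2]
        exact h i hi.1
      · intro h i hi
        by_cases hL : i ∈ L
        · rw [fx_mem hL]
          exact hc i hi hL
        · rw [fx_notMem hL]
          exact h i (mem_sdiff.2 ⟨hi, hL⟩)
    rw [h2]
    by_cases h4 : ∀ i ∈ S m, fx L a x i = y m i
    · rw [if_pos h4, if_pos (h3.1 h4)]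
    · rw [if_neg h4, if_neg fun h5 => h4 (h3.2 h5)]
  · have h2 : rc L a S y c m = 0 := if_neg hc
    have h4 : ¬ ∀ i ∈ S m, fx L a x i = y m i := by
      intro h
      refine hc fun i hi hL => ?_
      rw [← h i hi, fx_mem hL]
    rw [if_neg h4, h2, ite_self]

/-- Restricted gates. -/
theorem Gate.fx {q d r B : ℕ} {g : (Fin n → Bool) → Bool} (h : Gate q d r B g)
    (L : Finset (Fin n)) (a : Fin n → Bool) : Gate q d r B fun x => g (fx L a x) := by
  obtain ⟨N, S, y, h⟩ := h
  refine ⟨N, rS L a S y, y, ?_⟩
  rcases h with ⟨G, i1, i2, c, A, hq, hA, hr, hg⟩ | ⟨w, θ, hw, hr, hg⟩ | ⟨w, θ, s, hs, hr, hg⟩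
  · refine Or.inl ⟨G, i1, i2, rc L a S y c, A, hq, hA, fun i => ?_, fun x => ?_⟩
    · refine (Set.ncard_le_ncard ?_ (Set.toFinite _)).trans (hr i)
      rintro m ⟨h1, h2⟩
      have h3 := rS_mem h1
      refine ⟨h3.2.1, ?_⟩
      rcases h2 with h2 | h2
      · exact Or.inl (h2.trans_le rS_card)
      · refine Or.inr ?_
        have h4 : rc L a S y c m = c m := if_pos h3.1
        rwa [h4] at h2
    · rw [hg, litSum_fx]
  · refine Or.inr (Or.inl ⟨rc L a S y w, θ, fun m => ?_, fun i => ?_, fun x => ?_⟩)
    · unfold rc
      split_ifs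
      · exact hw m
      · rw [abs_zero]
        exact Int.natCast_nonneg B
    · refine (Set.ncard_le_ncard ?_ (Set.toFinite _)).trans (hr i)
      intro m h1
      exact (rS_mem h1).2.1
    · rw [hg, litSum_fx]
  · refine Or.inr (Or.inr ⟨rc L a S y w, θ, s, hs, fun i => ?_, fun x => ?_⟩)
    · refine (Set.ncard_le_ncard ?_ (Set.toFinite _)).trans (hr i)
      intro m h1
      exact (rS_mem h1).2.1
    · rw [hg, litSum_fx]

theorem GateTest.fx {q d r B k : ℕ} {f : (Fin n → Bool) → Bool} (h : GateTest q d r B k n f)
    (L : Finset (Fin n)) (a : Fin n → Bool) : GateTest q d r B k n fun x => f (fx L a x) := by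
  obtain ⟨g, F, hg, hf⟩ := h
  exact ⟨fun j x => g j (Xd.fx L a x), F, fun j => Gate.fx (hg j) L a, fun x => hf _⟩

/-- The leaves of a decision tree. -/
theorem Tree.leaves {P : ((Fin n → Bool) → Bool) → Prop} (D : ℕ) :
    ∀ f : (Fin n → Bool) → Bool, Tree P D f →
    ∃ (ι : Type) (_ : Fintype ι) (L : ι → Finset (Fin n)) (a : ι → Fin n → Bool)
      (g : ι → (Fin n → Bool) → Bool), Fintype.card ι ≤ 2 ^ D ∧ (∀ t, (L t).card ≤ D) ∧
      (∀ t, P (g t)) ∧ (∀ x : Fin n → Bool, ∃! t, ∀ i ∈ L t, x i = a t i) ∧
      ∀ (t : ι) (x : Fin n → Bool), (∀ i ∈ L t, x i = a t i) → f x = g t x := by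
  classical
  induction D with
  | zero =>
    intro f hf
    refine ⟨Unit, inferInstance, fun _ => ∅, fun _ _ => true, fun _ => f, by simp, by simp,
      fun _ => hf, fun x => ⟨(), by simp, fun _ _ => rfl⟩, fun _ _ _ => rfl⟩
  | succ D ih =>
    intro f hf
    obtain ⟨i, g, hg, hfx⟩ := hf
    choose κ i1 L a h hc hL hP hex hval using fun b => ih (g b) (hg b)
    -- the consistent leaves of the two subtrees
    refine ⟨{t : (b : Bool) × κ b // i ∈ L t.1 t.2 → a t.1 t.2 i = t.1}, inferInstance,
      fun t => insert i (L t.1.1 t.1.2), fun t => Function.update (a t.1.1 t.1.2) i t.1.1,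
      fun t => h t.1.1 t.1.2, ?_, fun t => ?_, fun t => hP _ _, fun x => ?_, fun t x hx => ?_⟩
    · refine (Fintype.card_subtype_le _).trans ?_
      rw [Fintype.card_sigma, Fintype.sum_bool, pow_succ]
      have h1 := hc true
      have h2 := hc false
      omega
    · refine (card_insert_le _ _).trans ?_
      exact Nat.succ_le_succ (hL _ _)
    · -- exactly one leaf
      obtain ⟨t, ht, huniq⟩ := hex (x i) x
      refine ⟨⟨⟨x i, t⟩, fun hi => (ht i hi).symm⟩, ?_, ?_⟩
      · intro j hj
        rcases eq_or_ne j i with rfl | hji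
        · show x j = Function.update (a (x j) t) j (x j) j
          rw [Function.update_self]
        · have hj' : j ∈ L (x i) t := by
            rcases mem_insert.1 hj with h1 | h1
            · exact absurd h1 hji
            · exact h1
          show x j = Function.update (a (x i) t) i (x i) j
          rw [Function.update_of_ne hji]
          exact ht j hj'
      · rintro ⟨⟨b, t'⟩, hb⟩ ht'
        have hxi : x i = b := by
          have h1 := ht' i (mem_insert_self _ _)
          have h2 : x i = Function.update (a b t') i b i := h1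
          rw [Function.update_self] at h2
          exact h2
        subst hxi
        have h3 : t' = t := by
          refine huniq t' fun j hj => ?_
          rcases eq_or_ne j i with rfl | hji
          · exact (hb hj).symm
          · have h4 : x j = Function.update (a (x i) t') i (x i) j :=
              ht' j (mem_insert_of_mem hj)
            rwa [Function.update_of_ne hji] at h4
        subst h3
        rfl
    · obtain ⟨⟨b, t⟩, hb⟩ := t
      have hxi : x i = b := by
        have h2 : x i = Function.update (a b t) i b i := hx i (mem_insert_self _ _)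
        rw [Function.update_self] at h2
        exact h2
      rw [hfx, hxi]
      refine hval b t x fun j hj => ?_
      rcases eq_or_ne j i with rfl | hji
      · rw [hxi]
        exact (hb hj).symm
      · have h4 : x j = Function.update (a b t) i b j := hx j (mem_insert_of_mem hj)
        rwa [Function.update_of_ne hji] at h4

end Pool.Agent.MP_ca1109_lc.Xd
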