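import Pool.Agent.MP_ca1109_lc.Xa.FP

/-!
# Decision trees on top: every string which fools the products fools the functions of `k` gates
-/

namespace Pool.Agent.MP_ca1109_lc.Xd

open Finset Pool.Agent.H66 Pool.Agent.MP_ca1109_lc.Mpg Pool.Agent.MP_ca1109_lc.Agp
open Pool.Agent.MP_ca1109_lc.Dnf (Cube one Term)
open Pool.Agent.MP_ca1109_lc.Xa (PB FP Gt apx_gt xpb_bool)

/-- Every string which fools the products fools the functions of `k` gates. -/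
theorem str_gt (r q B k : ℕ) (hq : 0 < q) {ε : ℝ} (hε : 0 < ε) : ∃ (R Q : ℕ) (K V ε₀ : ℝ),
    0 < Q ∧ 0 ≤ K ∧ 0 ≤ V ∧ 0 < ε₀ ∧ ∀ (n : ℕ) (U : Submonoid (Cube n → ℂ))
      (g : Fin k → Cube n → Bool) (F : (Fin k → Bool) → Bool), (∀ j, Gt U r q B (g j)) →
      ∀ {Ω : Type} [Fintype Ω] [Nonempty Ω] (X : Ω → Cube n), FP U R Q K V ε₀ X →
        |(avg fun ω => ind (F fun j => g j (X ω))) - avg fun x : Cube n => ind (F fun j => g j x)| ≤
          ε := by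
  classical
  obtain ⟨Q, K, V, C, ε₀, hQ, hK, hV, hC, hε₀, hg⟩ := apx_gt r q B hq
    (ε₁ := ε / (4 * (2 ^ k * (3 ^ k * ((k : ℝ) + 1))))) (by positivity)
  obtain ⟨ε₂, hε₂⟩ : ∃ ε₂ : ℝ, ε₂ = min ε₀ (ε / (2 * (2 ^ k * (1 + C) ^ k))) := ⟨_, rfl⟩
  have hε₂0 : 0 < ε₂ := by rw [hε₂]; exact lt_min hε₀ (by positivity)
  have hε₂1 : ε₂ ≤ ε₀ := by rw [hε₂]; exact min_le_left _ _
  have hε₂2 : ε₂ ≤ ε / (2 * (2 ^ k * (1 + C) ^ k)) := by rw [hε₂]; exact min_le_right _ _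
  refine ⟨k * r + r, Q, k * K + K, k * V + V, ε₂, hQ, by positivity, by positivity, hε₂0, ?_⟩
  intro n U g F hgate Ω _ _ X hX
  choose Gj h01 hPC happ using fun j => hg n U (g j) (hgate j)
  have hkK : 0 ≤ (k : ℝ) * K := by positivity
  have hkV : 0 ≤ (k : ℝ) * V := by positivity
  have key := xpb_bool (ε₁ := ε / (4 * (2 ^ k * (3 ^ k * ((k : ℝ) + 1))))) hε₂0.le hK hV hC
    F g Gj h01 hPC (hX.mono (Nat.le_add_right _ _) dvd_rfl (by linarith) (by linarith) le_rfl)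
    (fun j => happ j (fun x : Cube n => x) (FP.id _ _ _ _ hε₀.le))
    (fun j => happ j _ (hX.mono (Nat.le_add_left _ _) dvd_rfl (by linarith) (by linarith) hε₂1))
  refine key.trans ?_
  have e3 : 2 * (2 ^ k * (3 ^ k * ((k : ℝ) * (ε / (4 * (2 ^ k * (3 ^ k * ((k : ℝ) + 1)))))))) ≤
      ε / 2 := by
    rw [show 2 * (2 ^ k * (3 ^ k * ((k : ℝ) * (ε / (4 * (2 ^ k * (3 ^ k * ((k : ℝ) + 1)))))))) =
      ε / 2 * ((k : ℝ) / ((k : ℝ) + 1)) by field_simp; ring]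
    have : (k : ℝ) / ((k : ℝ) + 1) ≤ 1 := by
      rw [div_le_one (by positivity)]
      linarith
    nlinarith
  have e4 : 2 ^ k * (1 + C) ^ k * ε₂ ≤ ε / 2 := by
    calc 2 ^ k * (1 + C) ^ k * ε₂ ≤ 2 ^ k * (1 + C) ^ k * (ε / (2 * (2 ^ k * (1 + C) ^ k))) :=
          mul_le_mul_of_nonneg_left hε₂2 (by positivity)
      _ = ε / 2 := by field_simp
  linarith

end Pool.Agent.MP_ca1109_lc.Xd
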