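import Pool.Agent.MP_ca1109_lc.Xd.Defs
import Pool.Agent.MP_ca1109_lc.Xu.Tree

/-!
# From the leaves to the tree
-/

namespace Pool.Agent.MP_ca1109_lc.Xd

open Finset Pool.Agent.MP_ca1109_lc.Mpg Pool.Agent.MP_ca1109_lc.Agp
open Pool.Agent.MP_ca1109_lc.Dnf (Cube ch one Term)
open Pool.Agent.MP_ca1109_lc.Xl (Tr)
open Pool.Agent.MP_ca1109_lc.Xu (Tree)

variable {n : ℕ}

/-- The subcube is split by one more query. -/
theorem tr_split {L : Finset (Fin n)} {a : Cube n} {i : Fin n} (hi : i ∉ L) (x : Cube n)
    (φ : Bool → ℝ) : one (Tr L a x) * φ (x i) =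
      one (Tr (insert i L) (Function.update a i true) x) * φ true +
        one (Tr (insert i L) (Function.update a i false) x) * φ false := by
  have h1 : ∀ b : Bool, one (Tr (insert i L) (Function.update a i b) x) =
      one (Tr L a x) * (if x i = b then 1 else 0) := by
    intro b
    have h2 : Tr (insert i L) (Function.update a i b) x ↔ Tr L a x ∧ x i = b := by
      unfold Tr
      constructor
      · intro h
        refine ⟨fun j hj => ?_, ?_⟩
        · have h3 := h j (Finset.mem_insert_of_mem hj)
          rwa [Function.update_of_ne (show j ≠ i from fun e => hi (by rw [← e]; exact hj))] at h3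
        · have h3 := h i (Finset.mem_insert_self i L)
          rwa [Function.update_self] at h3
      · rintro ⟨h, hb⟩ j hj
        rcases Finset.mem_insert.1 hj with rfl | hj
        · rw [Function.update_self, hb]
        · rw [Function.update_of_ne (show j ≠ i from fun e => hi (by rw [← e]; exact hj)), h j hj]
    by_cases hT : Tr L a x
    · by_cases hb : x i = b
      · rw [Dnf.one_true (h2.2 ⟨hT, hb⟩), Dnf.one_true hT, if_pos hb, mul_one]
      · rw [Dnf.one_false (fun h => hb (h2.1 h).2), if_neg hb, mul_zero]
    · rw [Dnf.one_false (fun h => hT (h2.1 h).1), Dnf.one_false hT, zero_mul]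
  rw [h1, h1]
  cases x i <;> simp

/-- From the leaves to the tree. -/
theorem tree_sum {P : (Cube n → Bool) → Prop} {D₀ : ℕ} {ε : ℝ} {Ω : Type} [Fintype Ω] [Nonempty Ω]
    (X : Ω → Cube n)
    (h : ∀ (L : Finset (Fin n)) (a : Cube n), L.card ≤ D₀ → ∀ f, P f →
      |(avg fun ω => one (Tr L a (X ω)) * ind (f (X ω))) -
        avg fun x : Cube n => one (Tr L a x) * ind (f x)| ≤ ε * (1 / 2) ^ L.card) :
    ∀ (D : ℕ) (f : Cube n → Bool), Tree P D f → ∀ (L : Finset (Fin n)) (a : Cube n),
      L.card + D ≤ D₀ → |(avg fun ω => one (Tr L a (X ω)) * ind (f (X ω))) -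
        avg fun x : Cube n => one (Tr L a x) * ind (f x)| ≤ ε * (1 / 2) ^ L.card := by
  intro D
  induction D with
  | zero => exact fun f hf L a hL => h L a hL f hf
  | succ D ih =>
    rintro f ⟨i, g, hg, hf⟩ L a hL
    by_cases hi : i ∈ L
    · have e : ∀ x : Cube n, one (Tr L a x) * ind (f x) = one (Tr L a x) * ind (g (a i) x) := by
        intro x
        by_cases hT : Tr L a x
        · rw [hf x, hT i hi]
        · rw [Dnf.one_false hT, zero_mul, zero_mul]
      simp only [e]
      exact ih (g (a i)) (hg (a i)) L a (by omega)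
    · have e : ∀ x : Cube n, one (Tr L a x) * ind (f x) =
          one (Tr (insert i L) (Function.update a i true) x) * ind (g true x) +
            one (Tr (insert i L) (Function.update a i false) x) * ind (g false x) := by
        intro x
        rw [hf x]
        exact tr_split hi x fun b => ind (g b x)
      have hc : (insert i L).card = L.card + 1 := Finset.card_insert_of_notMem hi
      have h1 := ih (g true) (hg true) (insert i L) (Function.update a i true) (by omega)
      have h2 := ih (g false) (hg false) (insert i L) (Function.update a i false) (by omega)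
      rw [hc, pow_succ] at h1 h2
      simp only [e, avg_add]
      rw [abs_le] at h1 h2 ⊢
      constructor <;> nlinarith [h1.1, h1.2, h2.1, h2.2]

end Pool.Agent.MP_ca1109_lc.Xd
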