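import Pool.Agent.MP_ca1109_lc.Xd.FL
import Pool.Agent.MP_ca1109_lc.Xd.SG
import Pool.Agent.MP_ca1109_lc.Xd.RS
import Pool.Agent.MP_ca1109_lc.Xd.TR
import Pool.Agent.MP_ca1109_lc.Xv.FU
import Pool.Agent.MP_ca1109_lc.Xu.Comb

/-!
# Decision trees of logarithmic depth with functions of gates at the leaves: the theorem
-/

namespace Pool.Agent.MP_ca1109_lc.Xd

open Finset Pool.Agent.H66 Pool.Agent.MP_ca1109_lc.Mpg Pool.Agent.MP_ca1109_lc.Agp
open Pool.Agent.MP_ca1109_lc.Dnf (Cube ch one Term)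
open Pool.Agent.MP_ca1109_lc.Xl (Tr)
open Pool.Agent.MP_ca1109_lc.Xp (ma_norm_av ma_av_const)
open Pool.Agent.MP_ca1109_lc.Xa (FP PB Gt fp_eventually fp_avg_fin)
open Pool.Agent.MP_ca1109_lc.Xv (vio fv_gate)
open Pool.Agent.MP_ca1109_lc.Xu (Comb CombTest Tree)

variable {n : ℕ}

theorem ft_sb (L : Finset (Fin n)) (a w x : Cube n) : fx L a (sb L w x) = fx L a x := by
  funext i
  unfold fx sb
  by_cases hi : i ∈ L
  · rw [if_pos hi, if_pos hi]
  · rw [if_neg hi, if_neg hi, if_neg hi]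

/-- At a leaf the string `X` is replaced by the conditional string. -/
theorem ft_leaf (L : Finset (Fin n)) (a : Cube n) (f : Cube n → Bool) (x : Cube n) :
    lf L a (fun y => ((ind (f (fx L a y)) : ℝ) : ℂ)) x =
      (((one (Tr L a x) * ind (f x) : ℝ)) : ℂ) := by
  unfold lf
  simp only [ft_sb]
  rw [ma_av_const]
  by_cases hT : Tr L a x
  · rw [fx_self (x := x) hT]
    push_cast
    rfl
  · rw [Dnf.one_false hT]
    simp

theorem ft_unif (L : Finset (Fin n)) (a : Cube n) (f : Cube n → Bool) :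
    (avg fun x : Cube n => one (Tr L a x) * ind (f x)) =
      (1 / 2) ^ L.card * avg fun x : Cube n => ind (f (fx L a x)) := by
  have h1 : (fun x : Cube n => one (Tr L a x) * ind (f x)) =
      fun x => (⟨L, a⟩ : Term n).f x * ind (f (fx L a x)) := by
    funext x
    by_cases hT : Tr L a x
    · rw [fx_self (x := x) hT]
      rfl
    · rw [Dnf.one_false hT, zero_mul]
      have h2 : (⟨L, a⟩ : Term n).f x = one (Tr L a x) := rfl
      rw [h2, Dnf.one_false hT, zero_mul]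
  rw [h1, Xp.avg_E, Xp.avg_E,
    Dnf.E_indep (A := L) (B := Lᶜ) disjoint_compl_right (Dnf.on_term (⟨L, a⟩ : Term n)) ?_,
    Dnf.E_term]
  intro x y hxy
  show ind (f (fx L a x)) = ind (f (fx L a y))
  congr 2
  funext i
  unfold fx
  by_cases hi : i ∈ L
  · rw [if_pos hi, if_pos hi]
  · rw [if_neg hi, if_neg hi]
    exact hxy i (mem_compl.2 hi)

theorem ft_ofReal {A : Type*} [Fintype A] (F : A → ℝ) :
    av (fun a => ((F a : ℝ) : ℂ)) = ((avg F : ℝ) : ℂ) := by
  unfold av avg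
  push_cast
  rfl

/-- One explicit generator with logarithmic seeds which at every leaf with at most `e ⌈log₂ n⌉` queries
fools the functions in `P`, with relative error `ε`. -/
def LeafGen (P : ∀ n : ℕ, ((Fin n → Bool) → Bool) → Prop) (e : ℕ) (ε : ℝ) : Prop :=
  ∃ E G, NG E G ∧ ∃ n₀ : ℕ, ∀ n ≥ n₀, ∀ (L : Finset (Fin n)) (a : Cube n),
    L.card ≤ e * Nat.clog 2 n →
    |(avg fun p : Fin (2 ^ E n) => one (Tr L a (out G n p))) - (1 / 2) ^ L.card| ≤
      ε * (1 / 2) ^ L.card ∧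
    ∀ f : Cube n → Bool, P n f →
      |(avg fun p : Fin (2 ^ E n) => one (Tr L a (out G n p)) * ind (f (out G n p))) -
        avg fun x : Cube n => one (Tr L a x) * ind (f x)| ≤ ε * (1 / 2) ^ L.card

/-- The functions of `k` gates at the leaves. -/
theorem leaf_gate (q d r B k e : ℕ) (hq : 0 < q) {ε : ℝ} (hε : 0 < ε) :
    LeafGen (Xu.GateTest q d r B k) e ε := by
  classical
  obtain ⟨R, Q, K, V, ε₀, hQ, hK, hV, hε₀, HS⟩ := str_gt r q B k hq (show 0 < ε / 2 by positivity)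
  obtain ⟨ε₁, hε₁⟩ : ∃ ε₁ : ℝ, ε₁ = min (1 / 2) (min (ε₀ / 4) (ε / 2)) := ⟨_, rfl⟩
  have hε₁0 : 0 < ε₁ := by
    rw [hε₁]
    exact lt_min (by norm_num) (lt_min (by positivity) (by positivity))
  have hε₁1 : ε₁ ≤ 1 / 2 := by rw [hε₁]; exact min_le_left _ _
  have hε₁2 : 4 * ε₁ ≤ ε₀ := by
    have h : ε₁ ≤ ε₀ / 4 := by rw [hε₁]; exact (min_le_right _ _).trans (min_le_left _ _)
    linarith
  have hε₁3 : ε₁ ≤ ε / 2 := by rw [hε₁]; exact (min_le_right _ _).trans (min_le_right _ _)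
  obtain ⟨E, G, hNG, n₀, HG⟩ := fl_gen q d R Q e K V hQ hK hV hε₁0
  refine ⟨E, G, hNG, n₀, fun n hn L a hL => ?_⟩
  have hne : Nonempty (Fin (2 ^ E n)) := ⟨⟨0, by positivity⟩⟩
  have hX := HG n hn
  obtain ⟨hP, Ω', i1, i2, X', hX', hlf⟩ := fl_cond hK hV hε₁0.le hε₁1 hX
    (fun f hf x => fl_norm hQ hf x) L hL a
  obtain ⟨D, hD⟩ : ∃ D : ℝ, D = (1 / 2) ^ L.card := ⟨_, rfl⟩
  have hD0 : 0 < D := by rw [hD]; positivity
  refine ⟨hP.trans (mul_le_mul_of_nonneg_right (by linarith) (by positivity)), fun f hf => ?_⟩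
  obtain ⟨g, F, hg, hgF⟩ := GateTest.fx hf L a
  have h1 := HS n (vio q d n) g F (fun j => fv_gate (hg j)) X'
    (hX'.mono le_rfl dvd_rfl le_rfl le_rfl hε₁2)
  simp only [← hgF] at h1
  have h2 := hlf (fun y => ((ind (f (fx L a y)) : ℝ) : ℂ))
  simp only [ft_leaf] at h2
  rw [ft_ofReal, ft_ofReal, ← Complex.ofReal_mul] at h2
  have h3 := Complex.ofReal_injective h2
  rw [h3, ft_unif]
  obtain ⟨P, hPd⟩ : ∃ P : ℝ, P = avg fun p : Fin (2 ^ E n) => one (Tr L a (out G n p)) :=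
    ⟨_, rfl⟩
  obtain ⟨A', hA'⟩ : ∃ A' : ℝ, A' = avg fun ω' : Ω' => ind (f (fx L a (X' ω'))) := ⟨_, rfl⟩
  obtain ⟨A, hA⟩ : ∃ A : ℝ, A = avg fun x : Cube n => ind (f (fx L a x)) := ⟨_, rfl⟩
  have hA0 : 0 ≤ A' := by
    rw [hA']
    exact avg_nonneg fun ω => by unfold ind; split_ifs <;> norm_num
  have hA1 : A' ≤ 1 := by
    rw [hA']
    refine (avg_mono (g := fun _ => (1 : ℝ)) fun ω => ?_).trans (le_of_eq (avg_const _))
    unfold ind
    split_ifs <;> norm_num
  rw [← hPd, ← hA', ← hA, ← hD]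
  rw [← hPd, ← hD] at hP
  rw [← hA', ← hA] at h1
  have h4 : P * A' - D * A = (P - D) * A' + D * (A' - A) := by ring
  rw [h4]
  refine (abs_add_le _ _).trans ?_
  rw [abs_mul, abs_mul, abs_of_nonneg hA0, abs_of_pos hD0]
  have h5 : |P - D| * A' ≤ ε / 2 * D := by
    calc |P - D| * A' ≤ |P - D| * 1 := mul_le_mul_of_nonneg_left hA1 (abs_nonneg _)
      _ ≤ ε₁ * D := by rw [mul_one]; exact hP
      _ ≤ ε / 2 * D := mul_le_mul_of_nonneg_right hε₁3 hD0.le
  have h6 : D * |A' - A| ≤ D * (ε / 2) := mul_le_mul_of_nonneg_left h1 hD0.le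
  linarith

/-- One explicit generator with logarithmic seeds fools all decision trees of logarithmic depth with
functions of `k` gates at the leaves. -/
theorem final_tree (q d r B k e : ℕ) (hq : 0 < q) {ε : ℝ} (hε : 0 < ε) :
    LogGen (Xu.TreeTest q d r B k e) ε := by
  classical
  obtain ⟨E, G, hNG, n₀, HG⟩ := leaf_gate q d r B k e hq hε
  refine fp_eventually (𝒯 := fun n f => n₀ ≤ n ∧ Xu.TreeTest q d r B k e n f)
    (logGen_of hNG fun n T hT => ?_) n₀ fun n hn T hT => ⟨hn, hT⟩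
  obtain ⟨hn, hT⟩ := hT
  have hne : Nonempty (Fin (2 ^ E n)) := ⟨⟨0, by positivity⟩⟩
  have key := tree_sum (fun p : Fin (2 ^ E n) => out G n p)
    (fun L a hL f hf => (HG n hn L a hL).2 f hf) (e * Nat.log 2 n) T hT ∅
    (fun _ => false) (by
      rw [card_empty, zero_add]
      exact Nat.mul_le_mul_left _ (Nat.log_le_clog 2 n))
  have h0 : ∀ x : Cube n, one (Tr ∅ (fun _ => false) x) = 1 := fun x =>
    Dnf.one_true fun i hi => absurd hi (notMem_empty i)
  simp only [h0, one_mul, card_empty, pow_zero, mul_one] at key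
  have e1 : nr (2 ^ E n) (fun p => ind (T (out G n p))) =
      avg fun p : Fin (2 ^ E n) => ind (T (out G n p)) := by
    rw [← fp_avg_fin]
  rw [e1, prob_eq_avg]
  exact key

/-! ## Sums over subcubes -/

theorem ft_avg_sum {A J : Type*} [Fintype A] [Fintype J] (c : J → ℝ) (F : J → A → ℝ) :
    (avg fun a => ∑ j, c j * F j a) = ∑ j, c j * avg (F j) := by
  unfold avg
  rw [Finset.sum_comm, Finset.sum_div]
  refine Finset.sum_congr rfl fun j _ => ?_
  rw [← Finset.mul_sum, mul_div_assoc]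

/-- From the leaves to the sums. -/
theorem comb_of {P : ∀ n : ℕ, ((Fin n → Bool) → Bool) → Prop} (e M : ℕ)
    (h : ∀ ε : ℝ, 0 < ε → LeafGen P (e + 1) ε) {ε : ℝ} (hε : 0 < ε) :
    LogGen (fun n f => Comb (P n) M (n ^ e) f) ε := by
  classical
  obtain ⟨ε₁, hε₁⟩ : ∃ ε₁ : ℝ, ε₁ = min 1 (ε / (2 * ((M : ℝ) + 1))) := ⟨_, rfl⟩
  have hM0 : (0 : ℝ) ≤ M := Nat.cast_nonneg M
  have hε₁0 : 0 < ε₁ := by
    rw [hε₁]
    exact lt_min one_pos (by positivity)
  have hε₁1 : ε₁ ≤ 1 := by rw [hε₁]; exact min_le_left _ _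
  have hε₁2 : ε₁ * M ≤ ε / 2 := by
    have h1 : ε₁ ≤ ε / (2 * ((M : ℝ) + 1)) := by rw [hε₁]; exact min_le_right _ _
    calc ε₁ * M ≤ ε / (2 * ((M : ℝ) + 1)) * (M + 1) :=
          mul_le_mul h1 (by linarith) hM0 (by positivity)
      _ = ε / 2 := by field_simp
  obtain ⟨E, G, hNG, n₀, HG⟩ := h ε₁ hε₁0
  obtain ⟨n₁, hn₁⟩ := exists_nat_gt (6 * (M : ℝ) / ε)
  refine fp_eventually (𝒯 := fun n f => max n₀ (max n₁ 1) ≤ n ∧ Comb (P n) M (n ^ e) f)
    (logGen_of hNG fun n T hT => ?_) (max n₀ (max n₁ 1)) fun n hn T hT => ⟨hn, hT⟩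
  obtain ⟨hn, N, S, a, c, g, hN, hg, hc, hw, hT⟩ := hT
  have hn0 : n₀ ≤ n := (le_max_left _ _).trans hn
  have hn1 : n₁ ≤ n := (le_max_left _ _).trans ((le_max_right _ _).trans hn)
  have hn2 : 1 ≤ n := (le_max_right _ _).trans ((le_max_right _ _).trans hn)
  have hnr : (1 : ℝ) ≤ n := by exact_mod_cast hn2
  have hne : Nonempty (Fin (2 ^ E n)) := ⟨⟨0, by positivity⟩⟩
  have hf : ∀ x : Cube n, ind (T x) = ∑ j, c j * (one (Tr (S j) (a j) x) * ind (g j x)) := by
    intro x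
    have h1 : ind (T x) = if T x = true then 1 else 0 := rfl
    rw [h1, hT]
    refine Finset.sum_congr rfl fun j _ => ?_
    by_cases h2 : Tr (S j) (a j) x
    · by_cases h3 : g j x = true
      · rw [if_pos ⟨h2, h3⟩, Dnf.one_true h2]
        simp [ind, h3]
      · rw [if_neg fun h4 => h3 h4.2]
        simp [ind, h3]
    · rw [if_neg fun h4 => h2 h4.1, Dnf.one_false h2]
      simp
  have e1 : nr (2 ^ E n) (fun p => ind (T (out G n p))) =
      avg fun p : Fin (2 ^ E n) => ind (T (out G n p)) := by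
    rw [← fp_avg_fin]
  rw [e1, prob_eq_avg]
  simp only [hf]
  rw [ft_avg_sum c fun j (p : Fin (2 ^ E n)) => one (Tr (S j) (a j) (out G n p)) *
    ind (g j (out G n p)), ft_avg_sum c fun j (x : Cube n) => one (Tr (S j) (a j) x) * ind (g j x),
    ← Finset.sum_sub_distrib]
  -- the wide subcubes
  obtain ⟨W, hW⟩ : ∃ W : ℕ, W = (e + 1) * Nat.clog 2 n := ⟨_, rfl⟩
  have hW2 : ((1 : ℝ) / 2) ^ W ≤ 1 / (n : ℝ) ^ (e + 1) := by
    rw [hW, one_div_pow]
    apply one_div_le_one_div_of_le (by positivity)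
    rw [mul_comm, pow_mul]
    exact pow_le_pow_left₀ (by positivity) (Xp.ma_clog' n) _
  have hind : ∀ b : Bool, 0 ≤ ind b ∧ ind b ≤ 1 := by
    intro b
    unfold ind
    split_ifs <;> norm_num
  have hterm : ∀ j, |(avg fun p : Fin (2 ^ E n) => one (Tr (S j) (a j) (out G n p)) *
      ind (g j (out G n p))) - avg fun x : Cube n => one (Tr (S j) (a j) x) * ind (g j x)| ≤
      ε₁ * (1 / 2) ^ (S j).card + 2 * (1 / (n : ℝ) ^ (e + 1)) := by
    intro j
    by_cases hS : (S j).card ≤ W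
    · have h1 := (HG n hn0 (S j) (a j) (by rw [← hW]; exact hS)).2 (g j) (hg j)
      have h2 : (0 : ℝ) ≤ 2 * (1 / (n : ℝ) ^ (e + 1)) := by positivity
      linarith
    · obtain ⟨S', hS', hc'⟩ := Finset.exists_subset_card_eq (not_le.1 hS).le
      have h1 := (HG n hn0 S' (a j) (by rw [hc', hW])).1
      rw [hc'] at h1
      have h2 := (abs_le.1 h1).2
      have h3 : ∀ x : Cube n, one (Tr (S j) (a j) x) * ind (g j x) ≤ one (Tr S' (a j) x) := by
        intro x
        by_cases hT' : Tr (S j) (a j) x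
        · have h4 : Tr S' (a j) x := fun i hi => hT' i (hS' hi)
          rw [Dnf.one_true hT', Dnf.one_true h4, one_mul]
          exact (hind _).2
        · rw [Dnf.one_false hT', zero_mul]
          exact Dnf.one_nonneg _
      have h4 : (avg fun p : Fin (2 ^ E n) => one (Tr (S j) (a j) (out G n p)) *
          ind (g j (out G n p))) ≤ 2 * (1 / (n : ℝ) ^ (e + 1)) := by
        refine (avg_mono fun p : Fin (2 ^ E n) => h3 (out G n p)).trans ?_
        have h5 : ε₁ * (1 / 2 : ℝ) ^ W ≤ 1 * (1 / 2) ^ W :=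
          mul_le_mul_of_nonneg_right hε₁1 (by positivity)
        linarith
      have h5 : (avg fun x : Cube n => one (Tr (S j) (a j) x) * ind (g j x)) ≤
          2 * (1 / (n : ℝ) ^ (e + 1)) := by
        refine (avg_mono h3).trans ?_
        have h6 : (avg fun x : Cube n => one (Tr S' (a j) x)) = (1 / 2) ^ W := by
          rw [Xp.avg_E]
          exact (Dnf.E_term (⟨S', a j⟩ : Term n)).trans (by rw [hc'])
        have h7 : (0 : ℝ) ≤ (1 / 2) ^ W := by positivity
        rw [h6]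
        linarith
      have h6 : 0 ≤ avg fun p : Fin (2 ^ E n) => one (Tr (S j) (a j) (out G n p)) *
          ind (g j (out G n p)) :=
        avg_nonneg fun p => mul_nonneg (Dnf.one_nonneg _) (hind _).1
      have h7 : 0 ≤ avg fun x : Cube n => one (Tr (S j) (a j) x) * ind (g j x) :=
        avg_nonneg fun x => mul_nonneg (Dnf.one_nonneg _) (hind _).1
      have h8 : (0 : ℝ) ≤ ε₁ * (1 / 2) ^ (S j).card := by positivity
      rw [abs_le]
      constructor <;> linarith
  calc |∑ j, (c j * (avg fun p : Fin (2 ^ E n) => one (Tr (S j) (a j) (out G n p)) *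
        ind (g j (out G n p))) - c j * avg fun x : Cube n => one (Tr (S j) (a j) x) *
        ind (g j x))|
      ≤ ∑ j, |c j * (avg fun p : Fin (2 ^ E n) => one (Tr (S j) (a j) (out G n p)) *
        ind (g j (out G n p))) - c j * avg fun x : Cube n => one (Tr (S j) (a j) x) *
        ind (g j x)| := Finset.abs_sum_le_sum_abs _ _
    _ ≤ ∑ j, (ε₁ * (|c j| * (1 / 2) ^ (S j).card) + M * (2 * (1 / (n : ℝ) ^ (e + 1)))) := by
        refine Finset.sum_le_sum fun j _ => ?_
        rw [← mul_sub, abs_mul]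
        have h1 := mul_le_mul_of_nonneg_left (hterm j) (abs_nonneg (c j))
        have h2 : |c j| * (2 * (1 / (n : ℝ) ^ (e + 1))) ≤ M * (2 * (1 / (n : ℝ) ^ (e + 1))) :=
          mul_le_mul_of_nonneg_right (hc j) (by positivity)
        have h3 : |c j| * (ε₁ * (1 / 2) ^ (S j).card + 2 * (1 / (n : ℝ) ^ (e + 1))) =
            ε₁ * (|c j| * (1 / 2) ^ (S j).card) + |c j| * (2 * (1 / (n : ℝ) ^ (e + 1))) := by
          ring
        linarith
    _ = ε₁ * (∑ j, |c j| * (1 / 2) ^ (S j).card) + N * (M * (2 * (1 / (n : ℝ) ^ (e + 1)))) := by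
        rw [Finset.sum_add_distrib, ← Finset.mul_sum, Finset.sum_const, Finset.card_univ,
          Fintype.card_fin, nsmul_eq_mul]
    _ ≤ ε₁ * M + (n : ℝ) ^ e * (M * (2 * (1 / (n : ℝ) ^ (e + 1)))) := by
        have h1 : (N : ℝ) ≤ (n : ℝ) ^ e := by exact_mod_cast hN
        exact add_le_add (mul_le_mul_of_nonneg_left hw hε₁0.le)
          (mul_le_mul_of_nonneg_right h1 (by positivity))
    _ = ε₁ * M + 2 * M / n := by
        rw [pow_succ]
        field_simp
    _ ≤ ε := by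
        have h1 : 2 * (M : ℝ) / n ≤ ε / 2 := by
          have h2 : (n₁ : ℝ) ≤ n := by exact_mod_cast hn1
          have h3 : 6 * (M : ℝ) / ε ≤ n := by linarith
          rw [div_le_iff₀ hε] at h3
          rw [div_le_iff₀ (by linarith)]
          nlinarith
        linarith

/-- One explicit generator with logarithmic seeds fools all sums, over at most `n ^ h` subcubes of any
dimensions, of functions of `k` gates. -/
theorem final_comb (q d r B k h M : ℕ) (hq : 0 < q) {ε : ℝ} (hε : 0 < ε) :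
    LogGen (CombTest q d r B k h M) ε :=
  comb_of h M (fun _ hε => leaf_gate q d r B k (h + 1) hq hε) hε

/-- A function which on every cell of a partition into at most `n ^ h` subcubes agrees with a function
in `P` is such a sum. -/
theorem comb_part {P : ((Fin n → Bool) → Bool) → Prop} {N₀ : ℕ} {f : (Fin n → Bool) → Bool}
    {ι : Type} [Fintype ι] (S : ι → Finset (Fin n)) (a : ι → Fin n → Bool)
    (g : ι → (Fin n → Bool) → Bool) (hι : Fintype.card ι ≤ N₀) (hg : ∀ t, P (g t))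
    (hS : ∀ x : Fin n → Bool, ∃! t, ∀ i ∈ S t, x i = a t i)
    (hf : ∀ (t : ι) (x : Fin n → Bool), (∀ i ∈ S t, x i = a t i) → f x = g t x) :
    Comb P 1 N₀ f := by
  classical
  obtain ⟨φ⟩ : Nonempty (Fin (Fintype.card ι) ≃ ι) := ⟨(Fintype.equivFin ι).symm⟩
  have hcount : ∀ x : Cube n, (∑ t : ι, one (Tr (S t) (a t) x)) = 1 := by
    intro x
    obtain ⟨t, ht, hu⟩ := hS x
    rw [Finset.sum_eq_single t]
    · exact Dnf.one_true ht
    · intro t' _ hne
      exact Dnf.one_false fun h => hne (hu t' h)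
    · exact fun h => absurd (mem_univ t) h
  refine ⟨Fintype.card ι, fun j => S (φ j), fun j => a (φ j), fun _ => 1, fun j => g (φ j), hι,
    fun j => hg _, fun j => by simp, ?_, fun x => ?_⟩
  · rw [Equiv.sum_comp φ fun t => |(1 : ℝ)| * (1 / 2) ^ (S t).card]
    have h1 : ∀ t : ι, |(1 : ℝ)| * (1 / 2 : ℝ) ^ (S t).card =
        avg fun x : Cube n => one (Tr (S t) (a t) x) := by
      intro t
      rw [abs_one, one_mul, Xp.avg_E]
      exact (Dnf.E_term (⟨S t, a t⟩ : Term n)).symm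
    simp only [h1]
    rw [← avg_sum]
    simp only [hcount]
    rw [avg_const]
    exact_mod_cast le_rfl
  · rw [Equiv.sum_comp φ fun t => if (∀ i ∈ S t, x i = a t i) ∧ g t x = true then (1 : ℝ) else 0]
    obtain ⟨t, ht, hu⟩ := hS x
    rw [Finset.sum_eq_single t, hf t x ht]
    · by_cases h : g t x = true
      · rw [if_pos h, if_pos ⟨ht, h⟩]
      · rw [if_neg h, if_neg fun h' => h h'.2]
    · intro t' _ hne
      exact if_neg fun h => hne (hu t' h.1)
    · exact fun h => absurd (mem_univ t) h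

/-- Decision trees are such sums. -/
theorem comb_tree {P : ((Fin n → Bool) → Bool) → Prop} {D : ℕ} {f : (Fin n → Bool) → Bool}
    (h : Tree P D f) : Comb P 1 (2 ^ D) f := by
  obtain ⟨ι, i1, S, a, g, h1, -, h3, h4, h5⟩ := Tree.leaves D f h
  exact comb_part S a g h1 h3 h4 h5

end Pool.Agent.MP_ca1109_lc.Xd
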