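import Pool.Agent.MP_ca1109_lc.Xd.WD
import Pool.Agent.MP_ca1109_lc.Xd.GL
import Pool.Agent.MP_ca1109_lc.Xt.BP

/-!
# Row MX: weights of bounded order times unimodular weights of bounded mass, at the leaves
-/

namespace Pool.Agent.MP_ca1109_lc.Xd

open Finset Pool.Agent.H66 Pool.Agent.MP_ca1109_lc.Mpg Pool.Agent.MP_ca1109_lc.Agp
open Pool.Agent.MP_ca1109_lc.Dnf (Cube ch one Term)
open Pool.Agent.MP_ca1109_lc.Xp (Sp Bias xo fl Src mv Ph gx ph_unif gx_update av_update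
  ma_norm_av ma_av_sub ma_av_mul_left ma_av_diff ma_av_close ma_av_const ma_clog ma_clog' ma_pow
  ma_level)
open Pool.Agent.MP_ca1109_lc.Xl (Tr pr Rd Fam A1 Red wb mb_half mb_four mb_big ml_factor ml_norm_pr
  ml_pr_one ml_sum ml_drop A1_le_card card_le reduce tm avg_tm_bias)
open Pool.Agent.MP_ca1109_lc.Xt (pr_disj rd_disj)
open Pool.Agent.MP_ca1109_lc.Xv (na_eq_av)

variable {n : ℕ} {ι κ : Type} [DecidableEq ι] [DecidableEq κ]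

theorem mx_unif {L B : ℕ} {Ω₂ : Type} [Fintype Ω₂] [Nonempty Ω₂]
    (η : Fin L → Ω₂ → Finset (Fin n)) (h : Ω₂ → Fin n → Fin B) (f : Cube n → ℂ) :
    Phc (fun _ x => x) η h f = av f := by
  unfold Phc
  have h1 : ∀ s : Cube n, (av fun ω₁ : Cube n => f (xo ω₁ s)) = av f := fun s => Xp.av_xo f s
  simp only [h1, ma_av_const]

/-! ## The second case -/

theorem phc_caseIIg {q r k : ℕ} {ε ε' ε₃ : ℝ} {t s C : ℕ} (ht : 1 ≤ t)
    (hcore : ∀ (n W : ℕ) {ι : Type} [DecidableEq ι] (T : ι → Term n) (M : Finset ι)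
      (ζ : ι → ℂ), Fam r W T M → 1 ≤ W → (∀ m ∈ M, ζ m ^ q = 1) → Red T ζ M →
      ∀ p δ : ℝ, 0 < p → p ≤ 1 → t ≤ p * A1 T M → p * A1 T M ≤ 2 * t → C * p * W ≤ 1 → 0 ≤ δ →
      C * δ * ((n : ℝ) + 1) ^ 2 * 4 ^ W ≤ 1 →
      ∀ {Ω₁ Ω₂ : Type} [Fintype Ω₁] [Nonempty Ω₁] [Fintype Ω₂] [Nonempty Ω₂]
        (Z : Ω₂ → Ω₁ → Cube n) (η : Ω₂ → Finset (Fin n)) (h : Ω₂ → Fin n → Fin (2 ^ s)),
        (∀ ω₂, Bias δ (Z ω₂)) → Src p δ η h →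
        (avg fun ω₂ => avg fun ω₁ =>
          ‖av fun u : Fin (2 ^ s) → Bool => pr T ζ M (mv (Z ω₂ ω₁) (η ω₂) (h ω₂) u)‖) ≤ ε)
    {n W : ℕ} {T : ι → Term n} {M : Finset ι} {ζ : ι → ℂ} (hM : Fam r W T M)
    (hW : 1 ≤ W) (hζ : ∀ m ∈ M, ζ m ^ q = 1) (hζ1 : ∀ m ∈ M, ‖ζ m‖ = 1) (hR : Red T ζ M)
    (hA : (((2 * t * C + t) * W : ℕ) : ℝ) ≤ A1 T M)
    {g : Cube n → ℂ} (hg : ∀ x, ‖g x‖ ≤ 1)
    {δ : ℝ} (hδ : 0 ≤ δ)
    (hCδ : C * δ * ((n : ℝ) + 1) ^ 2 * 4 ^ W ≤ 1)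
    (hvb : ∀ p : ℝ, 0 < p → p ≤ 1 → C * p * W ≤ 1 →
      ∀ {Ω₁ Ω₂ : Type} [Fintype Ω₁] [Nonempty Ω₁] [Fintype Ω₂] [Nonempty Ω₂] {B : ℕ}
        (Z : Ω₂ → Ω₁ → Cube n) (η : Ω₂ → Finset (Fin n)) (h : Ω₂ → Fin n → Fin B),
        (∀ ω₂, Bias δ (Z ω₂)) → Src p δ η h →
        (avg fun ω₂ => avg fun ω₁ => avg fun u : Fin B → Bool =>
          ‖g (mv (Z ω₂ ω₁) (η ω₂) (h ω₂) u) - g (Z ω₂ ω₁)‖) ≤ ε')
    {Ω₂ : Type} [Fintype Ω₂] [Nonempty Ω₂]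
    (η : Fin (Nat.clog 2 n + r + 1) → Ω₂ → Finset (Fin n)) (h : Ω₂ → Fin n → Fin (2 ^ s))
    (hS : ∀ l : Fin (Nat.clog 2 n + r + 1), Src ((1 / 2 : ℝ) ^ (l : ℕ)) δ (η l) h)
    {Ω₁ : Type} [Fintype Ω₁] [Nonempty Ω₁] (Y : Cube n → Ω₁ → Cube n) (hY : ∀ t, Bias δ (Y t))
    (Lf : Finset (Fin n)) (hLf : Lf.card ≤ k * W)
    (hYL : ∀ t t', (∀ i ∈ Lf, t i = t' i) → Y t = Y t') (hε₃ : 0 < ε₃)
    (hC₅ : 32 * (k : ℝ) ≤ ε₃ * C) :
    ‖Phc Y η h (fun x => pr T ζ M x * g x)‖ ≤ ε + ε' + ε₃ / 16 := by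
  have hW' : (1 : ℝ) ≤ W := by exact_mod_cast hW
  have ht' : (1 : ℝ) ≤ t := by exact_mod_cast ht
  have hC' : (0 : ℝ) ≤ C := Nat.cast_nonneg C
  push_cast at hA
  have hA1 : (t : ℝ) ≤ A1 T M := by
    have h1 : (0 : ℝ) ≤ 2 * t * C * W := by positivity
    have h2 : (t : ℝ) * 1 ≤ t * W := mul_le_mul_of_nonneg_left hW' (by linarith)
    linarith only [hA, h1, h2]
  obtain ⟨l, h1, h2, h3⟩ := ma_level ht hA1
  -- the level exists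
  have hl : l < Nat.clog 2 n + r + 1 := by
    have h4 : A1 T M ≤ r * n := (A1_le_card T M).trans (by exact_mod_cast card_le hM.ne hM.rd)
    have h5 : (2 : ℝ) ^ l ≤ 2 ^ (Nat.clog 2 n + r) := by
      refine h3.trans (h4.trans ?_)
      rw [pow_add, mul_comm]
      have h6 : (r : ℝ) ≤ 2 ^ r := by exact_mod_cast Nat.lt_two_pow_self.le
      exact mul_le_mul (ma_clog' n) h6 (Nat.cast_nonneg _) (by positivity)
    have h7 : l ≤ Nat.clog 2 n + r := (pow_le_pow_iff_right₀ (by norm_num)).1 h5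
    omega
  have hp : (0 : ℝ) < (1 / 2) ^ l := by positivity
  have hp1 : ((1 : ℝ) / 2) ^ l ≤ 1 := pow_le_one₀ (by norm_num) (by norm_num)
  have hCp : (C : ℝ) * (1 / 2) ^ l * W ≤ 1 := by
    have h4 : 2 * t * (C * (1 / 2 : ℝ) ^ l * W) ≤ 2 * t * 1 := by
      calc 2 * t * (C * (1 / 2 : ℝ) ^ l * W) = (1 / 2 : ℝ) ^ l * (2 * t * C * W) := by ring
        _ ≤ (1 / 2 : ℝ) ^ l * A1 T M := by
          refine mul_le_mul_of_nonneg_left ?_ hp.le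
          have h5 : (0 : ℝ) ≤ t * W := by positivity
          linarith only [hA, h5]
        _ ≤ 2 * t * 1 := by linarith
    exact le_of_mul_le_mul_left h4 (by linarith)
  rw [phc_level Y η h ⟨l, hl⟩]
  refine ma_norm_av fun v => ?_
  obtain ⟨s₀, hs₀⟩ : ∃ s₀ : Ω₂ → Cube n, s₀ = fun ω₂ =>
      gx (fun _ => false) (fun l => η l ω₂) (h ω₂) (Function.update v ⟨l, hl⟩ fun _ => false) :=
    ⟨_, rfl⟩
  obtain ⟨Z, hZ⟩ : ∃ Z : Ω₂ → Ω₁ → Cube n, Z = fun ω₂ ω₁ => xo (Y (s₀ ω₂) ω₁) (s₀ ω₂) :=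
    ⟨_, rfl⟩
  have hZb : ∀ ω₂, Bias δ (Z ω₂) := fun ω₂ => by
    rw [hZ]
    exact (hY _).xo _
  have key := hcore n W T M ζ hM hW hζ hR ((1 / 2) ^ l) δ hp hp1 h1 h2 hCp hδ hCδ
    Z (η ⟨l, hl⟩) h hZb (hS ⟨l, hl⟩)
  have key2 := hvb ((1 / 2) ^ l) hp hp1 hCp Z (η ⟨l, hl⟩) h hZb (hS ⟨l, hl⟩)
  have h5 : ∀ ω₂ ω₁, ‖av fun u : Fin (2 ^ s) → Bool =>
      pr T ζ M (mv (Z ω₂ ω₁) (η ⟨l, hl⟩ ω₂) (h ω₂) u) *
        g (mv (Z ω₂ ω₁) (η ⟨l, hl⟩ ω₂) (h ω₂) u)‖ ≤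
      ‖av fun u : Fin (2 ^ s) → Bool => pr T ζ M (mv (Z ω₂ ω₁) (η ⟨l, hl⟩ ω₂) (h ω₂) u)‖ +
        avg fun u : Fin (2 ^ s) → Bool =>
          ‖g (mv (Z ω₂ ω₁) (η ⟨l, hl⟩ ω₂) (h ω₂) u) - g (Z ω₂ ω₁)‖ := by
    intro ω₂ ω₁
    have h6 : ‖(av fun u : Fin (2 ^ s) → Bool =>
        pr T ζ M (mv (Z ω₂ ω₁) (η ⟨l, hl⟩ ω₂) (h ω₂) u) *
          g (mv (Z ω₂ ω₁) (η ⟨l, hl⟩ ω₂) (h ω₂) u)) -
        av fun u : Fin (2 ^ s) → Bool =>
          g (Z ω₂ ω₁) * pr T ζ M (mv (Z ω₂ ω₁) (η ⟨l, hl⟩ ω₂) (h ω₂) u)‖ ≤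
        avg fun u : Fin (2 ^ s) → Bool =>
          ‖g (mv (Z ω₂ ω₁) (η ⟨l, hl⟩ ω₂) (h ω₂) u) - g (Z ω₂ ω₁)‖ := by
      refine ma_av_diff fun u => ?_
      rw [mul_comm (g (Z ω₂ ω₁)), ← mul_sub, norm_mul, ml_norm_pr hζ1, one_mul]
    rw [ma_av_mul_left] at h6
    have h7 : ‖g (Z ω₂ ω₁) *
        av fun u : Fin (2 ^ s) → Bool => pr T ζ M (mv (Z ω₂ ω₁) (η ⟨l, hl⟩ ω₂) (h ω₂) u)‖ ≤
        ‖av fun u : Fin (2 ^ s) → Bool => pr T ζ M (mv (Z ω₂ ω₁) (η ⟨l, hl⟩ ω₂) (h ω₂) u)‖ := by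
      rw [norm_mul]
      exact mul_le_of_le_one_left (norm_nonneg _) (hg _)
    have h8 := norm_sub_norm_le (av fun u : Fin (2 ^ s) → Bool =>
        pr T ζ M (mv (Z ω₂ ω₁) (η ⟨l, hl⟩ ω₂) (h ω₂) u) *
          g (mv (Z ω₂ ω₁) (η ⟨l, hl⟩ ω₂) (h ω₂) u))
        (g (Z ω₂ ω₁) *
        av fun u : Fin (2 ^ s) → Bool => pr T ζ M (mv (Z ω₂ ω₁) (η ⟨l, hl⟩ ω₂) (h ω₂) u))
    linarith
  obtain ⟨F, hF⟩ : ∃ F : Cube n → ℂ, F = fun x => pr T ζ M x * g x := ⟨_, rfl⟩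
  have hF1 : ∀ x, ‖F x‖ ≤ 1 := fun x => by
    rw [hF]
    show ‖pr T ζ M x * g x‖ ≤ 1
    rw [norm_mul, ml_norm_pr hζ1, one_mul]
    exact hg _
  have h9 : ∀ ω₂, ‖av fun u : Fin (2 ^ s) → Bool => av fun ω₁ =>
      F (xo (Y (mv (s₀ ω₂) (η ⟨l, hl⟩ ω₂) (h ω₂) u) ω₁) (mv (s₀ ω₂) (η ⟨l, hl⟩ ω₂) (h ω₂) u))‖ ≤
      (avg fun ω₁ => ‖av fun u : Fin (2 ^ s) → Bool =>
        F (mv (Z ω₂ ω₁) (η ⟨l, hl⟩ ω₂) (h ω₂) u)‖) + one (¬ Disjoint Lf (η ⟨l, hl⟩ ω₂)) := by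
    intro ω₂
    by_cases hd : Disjoint Lf (η ⟨l, hl⟩ ω₂)
    · rw [Dnf.one_false (not_not.2 hd), add_zero]
      have h11 : ∀ u : Fin (2 ^ s) → Bool, Y (mv (s₀ ω₂) (η ⟨l, hl⟩ ω₂) (h ω₂) u) = Y (s₀ ω₂) :=
        fun u => hYL _ _ fun i hi => mv_off _ _ _ (Finset.disjoint_left.1 hd hi)
      have h12 : (av fun u : Fin (2 ^ s) → Bool => av fun ω₁ =>
          F (xo (Y (mv (s₀ ω₂) (η ⟨l, hl⟩ ω₂) (h ω₂) u) ω₁)
            (mv (s₀ ω₂) (η ⟨l, hl⟩ ω₂) (h ω₂) u))) =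
          av fun ω₁ => av fun u : Fin (2 ^ s) → Bool =>
            F (mv (Z ω₂ ω₁) (η ⟨l, hl⟩ ω₂) (h ω₂) u) := by
        rw [av_comm]
        congr 1
        funext ω₁
        congr 1
        funext u
        rw [h11, hZ, xo_mv]
      rw [h12]
      exact norm_av_le _
    · rw [Dnf.one_true hd]
      have h11 : ‖av fun u : Fin (2 ^ s) → Bool => av fun ω₁ =>
          F (xo (Y (mv (s₀ ω₂) (η ⟨l, hl⟩ ω₂) (h ω₂) u) ω₁)
            (mv (s₀ ω₂) (η ⟨l, hl⟩ ω₂) (h ω₂) u))‖ ≤ 1 :=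
        ma_norm_av fun u => ma_norm_av fun ω₁ => hF1 _
      have h12 : 0 ≤ avg fun ω₁ => ‖av fun u : Fin (2 ^ s) → Bool =>
          F (mv (Z ω₂ ω₁) (η ⟨l, hl⟩ ω₂) (h ω₂) u)‖ := avg_nonneg fun ω₁ => norm_nonneg _
      linarith
  have h10 : (avg fun ω₂ => avg fun ω₁ => ‖av fun u : Fin (2 ^ s) → Bool =>
        F (mv (Z ω₂ ω₁) (η ⟨l, hl⟩ ω₂) (h ω₂) u)‖) ≤ ε + ε' := by
    rw [hF]
    refine (avg_mono fun ω₂ => avg_mono fun ω₁ => h5 ω₂ ω₁).trans ?_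
    simp only [avg_add]
    exact add_le_add key key2
  have h13 : (avg fun ω₂ => one (¬ Disjoint Lf (η ⟨l, hl⟩ ω₂))) ≤ ε₃ / 16 := by
    have h14 := src_disj (hS ⟨l, hl⟩) Lf
    have hLf' : (Lf.card : ℝ) ≤ k * W := by exact_mod_cast hLf
    have hk : (0 : ℝ) ≤ k := Nat.cast_nonneg k
    have h15 : (k : ℝ) * W * (1 / 2) ^ l ≤ ε₃ / 32 := by
      have h16 : ε₃ * (C * (1 / 2 : ℝ) ^ l * W) ≤ ε₃ * 1 := mul_le_mul_of_nonneg_left hCp hε₃.le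
      have h17 : 32 * (k : ℝ) * ((1 / 2 : ℝ) ^ l * W) ≤ ε₃ * C * ((1 / 2 : ℝ) ^ l * W) :=
        mul_le_mul_of_nonneg_right hC₅ (by positivity)
      linarith
    have h18 : (k : ℝ) * W * δ ≤ ε₃ / 32 := by
      have h19 : (W : ℝ) ≤ 4 ^ W := by exact_mod_cast (Nat.lt_pow_self (by norm_num)).le
      have h20 : ε₃ * (C * δ * ((n : ℝ) + 1) ^ 2 * 4 ^ W) ≤ ε₃ * 1 :=
        mul_le_mul_of_nonneg_left hCδ hε₃.le
      have h21 : 32 * (k : ℝ) * (δ * W) ≤ ε₃ * C * (δ * W) :=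
        mul_le_mul_of_nonneg_right hC₅ (by positivity)
      have h22 : (1 : ℝ) ≤ ((n : ℝ) + 1) ^ 2 := one_le_pow₀ (by linarith [(Nat.cast_nonneg n : (0 : ℝ) ≤ n)])
      have h23 : δ * W ≤ δ * (((n : ℝ) + 1) ^ 2 * 4 ^ W) := by
        refine mul_le_mul_of_nonneg_left ?_ hδ
        calc (W : ℝ) ≤ 4 ^ W := h19
          _ = 1 * 4 ^ W := (one_mul _).symm
          _ ≤ ((n : ℝ) + 1) ^ 2 * 4 ^ W := mul_le_mul_of_nonneg_right h22 (by positivity)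
      have h24 : ε₃ * C * (δ * W) ≤ ε₃ * C * (δ * (((n : ℝ) + 1) ^ 2 * 4 ^ W)) :=
        mul_le_mul_of_nonneg_left h23 (by positivity)
      linarith
    have h25 : (Lf.card : ℝ) * ((1 / 2) ^ l + δ) ≤ k * W * ((1 / 2) ^ l + δ) :=
      mul_le_mul_of_nonneg_right hLf' (by positivity)
    have h26 : (k : ℝ) * W * ((1 / 2) ^ l + δ) = k * W * (1 / 2) ^ l + k * W * δ := by ring
    linarith
  have h27 : ‖av fun ω₂ => av fun u : Fin (2 ^ s) → Bool => av fun ω₁ =>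
      F (xo (Y (mv (s₀ ω₂) (η ⟨l, hl⟩ ω₂) (h ω₂) u) ω₁) (mv (s₀ ω₂) (η ⟨l, hl⟩ ω₂) (h ω₂) u))‖ ≤
      ε + ε' + ε₃ / 16 := by
    refine (norm_av_le _).trans ((avg_mono h9).trans ?_)
    rw [avg_add]
    exact add_le_add h10 h13
  rw [hs₀, hF] at h27
  exact h27

/-! ## Weights of bounded mass hardly change in a sparse level -/

theorem mx_comm {A B : Type*} [Fintype A] [Fintype B] (f : A → B → ℝ) :
    (avg fun a => avg fun b => f a b) = avg fun b => avg fun a => f a b := by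
  unfold avg
  rw [← Finset.sum_div, ← Finset.sum_div, Finset.sum_comm, div_div, div_div, mul_comm]

theorem mx_tr_mv {B : ℕ} {S : Finset (Fin n)} {a : Cube n} {η : Finset (Fin n)} (z : Cube n)
    (h : Fin n → Fin B) (u : Fin B → Bool) (hd : Disjoint S η) :
    Tr S a (mv z η h u) ↔ Tr S a z := by
  refine forall₂_congr fun i hi => ?_
  rw [mv_off z h u (Finset.disjoint_left.1 hd hi)]

theorem mx_diff {B : ℕ} {T : κ → Term n} {ξ : κ → ℂ} {N : Finset κ} (hξ : ∀ m ∈ N, ‖ξ m‖ = 1)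
    (η : Finset (Fin n)) (z : Cube n) (h : Fin n → Fin B) (u : Fin B → Bool) :
    ‖pr T ξ N (mv z η h u) - pr T ξ N z‖ ≤
      ∑ m ∈ N, one (¬ Disjoint (T m).S η) *
        (2 * tm (T m).S (T m).a (mv z η h u) + 2 * tm (T m).S (T m).a z) := by
  classical
  induction N using Finset.induction_on with
  | empty => simp [pr]
  | insert a N ha ih =>
    have h1 : ‖ξ a‖ = 1 := hξ a (Finset.mem_insert_self _ _)
    have h2 : ∀ m ∈ N, ‖ξ m‖ = 1 := fun m hm => hξ m (Finset.mem_insert_of_mem hm)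
    have h3 : ∀ x, pr T ξ (insert a N) x =
        (if Tr (T a).S (T a).a x then ξ a else 1) * pr T ξ N x := by
      intro x
      unfold pr
      rw [Finset.prod_insert ha]
    rw [h3, h3, Finset.sum_insert ha]
    have h5 : ‖(if Tr (T a).S (T a).a (mv z η h u) then ξ a else (1 : ℂ)) -
        (if Tr (T a).S (T a).a z then ξ a else 1)‖ ≤ one (¬ Disjoint (T a).S η) *
        (2 * tm (T a).S (T a).a (mv z η h u) + 2 * tm (T a).S (T a).a z) := by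
      have h6 : ‖ξ a - 1‖ ≤ 2 := by
        calc ‖ξ a - 1‖ ≤ ‖ξ a‖ + ‖(1 : ℂ)‖ := norm_sub_le _ _
          _ = 2 := by rw [h1, norm_one]; norm_num
      by_cases hd : Disjoint (T a).S η
      · rw [Dnf.one_false (not_not.2 hd), zero_mul]
        have h7 := mx_tr_mv (a := (T a).a) z h u hd
        by_cases h8 : Tr (T a).S (T a).a z
        · rw [if_pos h8, if_pos (h7.2 h8), sub_self, norm_zero]
        · rw [if_neg h8, if_neg fun h9 => h8 (h7.1 h9), sub_self, norm_zero]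
      · rw [Dnf.one_true hd, one_mul]
        unfold tm
        by_cases h8 : Tr (T a).S (T a).a z
        · by_cases h9 : Tr (T a).S (T a).a (mv z η h u)
          · rw [if_pos h8, if_pos h9, sub_self, norm_zero, Dnf.one_true h8, Dnf.one_true h9]
            norm_num
          · rw [if_pos h8, if_neg h9, norm_sub_rev, Dnf.one_true h8, Dnf.one_false h9]
            linarith
        · by_cases h9 : Tr (T a).S (T a).a (mv z η h u)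
          · rw [if_neg h8, if_pos h9, Dnf.one_false h8, Dnf.one_true h9]
            linarith
          · rw [if_neg h8, if_neg h9, sub_self, norm_zero, Dnf.one_false h8, Dnf.one_false h9]
            norm_num
    have h10 : ‖(if Tr (T a).S (T a).a z then ξ a else (1 : ℂ))‖ ≤ 1 := by
      split_ifs
      · exact h1.le
      · exact norm_one.le
    have h11 : ‖pr T ξ N (mv z η h u)‖ ≤ 1 := (ml_norm_pr h2 _).le
    calc ‖(if Tr (T a).S (T a).a (mv z η h u) then ξ a else (1 : ℂ)) * pr T ξ N (mv z η h u) -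
          (if Tr (T a).S (T a).a z then ξ a else 1) * pr T ξ N z‖
        = ‖((if Tr (T a).S (T a).a (mv z η h u) then ξ a else (1 : ℂ)) -
          (if Tr (T a).S (T a).a z then ξ a else 1)) * pr T ξ N (mv z η h u) +
          (if Tr (T a).S (T a).a z then ξ a else 1) * (pr T ξ N (mv z η h u) - pr T ξ N z)‖ := by
          congr 1
          ring
      _ ≤ ‖((if Tr (T a).S (T a).a (mv z η h u) then ξ a else (1 : ℂ)) -
          (if Tr (T a).S (T a).a z then ξ a else 1)) * pr T ξ N (mv z η h u)‖ +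
          ‖(if Tr (T a).S (T a).a z then ξ a else (1 : ℂ)) *
            (pr T ξ N (mv z η h u) - pr T ξ N z)‖ := norm_add_le _ _
      _ ≤ _ := by
        rw [norm_mul, norm_mul]
        refine add_le_add ?_ ?_
        · exact (mul_le_of_le_one_right (norm_nonneg _) h11).trans h5
        · exact (mul_le_of_le_one_left (norm_nonneg _) h10).trans (ih h2)

theorem mx_mv_xo {B : ℕ} (z : Cube n) (η : Finset (Fin n)) (h : Fin n → Fin B) (u : Fin B → Bool) :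
    mv z η h u = xo z (fun i => decide (i ∈ η) && u (h i)) := rfl

theorem vbm {r C : ℕ} {c₀ ε : ℝ} (hc₀ : 0 ≤ c₀) (hC1 : 1 ≤ C) (hCε : 8 * (c₀ + r) ≤ ε * C)
    {n W : ℕ} {T : κ → Term n} {N : Finset κ} {ξ : κ → ℂ} (hN : Fam r W T N) (hW : 1 ≤ W)
    (hξ : ∀ m ∈ N, ‖ξ m‖ = 1) (hA : A1 T N ≤ c₀ * W) {δ : ℝ} (hδ : 0 ≤ δ)
    (hCδ : C * δ * ((n : ℝ) + 1) ^ 2 * 4 ^ W ≤ 1) (p : ℝ) (hp : 0 < p)
    (hCp : C * p * W ≤ 1)
    {Ω₁ Ω₂ : Type} [Fintype Ω₁] [Nonempty Ω₁] [Fintype Ω₂] [Nonempty Ω₂] {B : ℕ}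
    (Z : Ω₂ → Ω₁ → Cube n) (η : Ω₂ → Finset (Fin n)) (h : Ω₂ → Fin n → Fin B)
    (hZ : ∀ ω₂, Bias δ (Z ω₂)) (hS : Src p δ η h) :
    (avg fun ω₂ => avg fun ω₁ => avg fun u : Fin B → Bool =>
      ‖pr T ξ N (mv (Z ω₂ ω₁) (η ω₂) (h ω₂) u) - pr T ξ N (Z ω₂ ω₁)‖) ≤ ε := by
  classical
  have hW' : (1 : ℝ) ≤ W := by exact_mod_cast hW
  have hC' : (1 : ℝ) ≤ C := by exact_mod_cast hC1
  have hn0 : (0 : ℝ) ≤ n := Nat.cast_nonneg n
  have hr0 : (0 : ℝ) ≤ r := Nat.cast_nonneg r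
  -- the inner average
  have h1 : ∀ ω₂, (avg fun ω₁ => avg fun u : Fin B → Bool =>
      ‖pr T ξ N (mv (Z ω₂ ω₁) (η ω₂) (h ω₂) u) - pr T ξ N (Z ω₂ ω₁)‖) ≤
      ∑ m ∈ N, (4 * ((1 / 2) ^ (T m).S.card + δ)) * one (¬ Disjoint (T m).S (η ω₂)) := by
    intro ω₂
    rw [mx_comm]
    have h2 : ∀ u : Fin B → Bool, (avg fun ω₁ =>
        ‖pr T ξ N (mv (Z ω₂ ω₁) (η ω₂) (h ω₂) u) - pr T ξ N (Z ω₂ ω₁)‖) ≤
        ∑ m ∈ N, (4 * ((1 / 2) ^ (T m).S.card + δ)) * one (¬ Disjoint (T m).S (η ω₂)) := by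
      intro u
      refine (avg_mono fun ω₁ => mx_diff hξ (η ω₂) (Z ω₂ ω₁) (h ω₂) u).trans ?_
      rw [avg_sum]
      refine Finset.sum_le_sum fun m _ => ?_
      rw [avg_mul_left, avg_add (fun ω₁ => 2 * tm (T m).S (T m).a (mv (Z ω₂ ω₁) (η ω₂) (h ω₂) u))
        fun ω₁ => 2 * tm (T m).S (T m).a (Z ω₂ ω₁), avg_mul_left, avg_mul_left]
      have h3 := (abs_le.1 (avg_tm_bias hδ (hZ ω₂) (T m).S (T m).a)).2
      have h4 := (abs_le.1 (avg_tm_bias hδ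
        ((hZ ω₂).xo (fun i => decide (i ∈ η ω₂) && u (h ω₂ i))) (T m).S (T m).a)).2
      have h5 : (avg fun ω₁ => tm (T m).S (T m).a (mv (Z ω₂ ω₁) (η ω₂) (h ω₂) u)) =
          avg fun ω₁ => tm (T m).S (T m).a
            (xo (Z ω₂ ω₁) (fun i => decide (i ∈ η ω₂) && u (h ω₂ i))) := rfl
      rw [h5, mul_comm]
      refine mul_le_mul_of_nonneg_right ?_ (Dnf.one_nonneg _)
      linarith
    exact (avg_mono h2).trans (le_of_eq (avg_const _))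
  refine (avg_mono h1).trans ?_
  rw [avg_sum]
  simp only [avg_mul_left]
  have h6 : ∀ m ∈ N, 4 * ((1 / 2 : ℝ) ^ (T m).S.card + δ) *
      (avg fun ω₂ => one (¬ Disjoint (T m).S (η ω₂))) ≤
      4 * (p + δ) * ((T m).S.card * (1 / 2) ^ (T m).S.card) + 4 * (p + δ) * (δ * W) := by
    intro m hm
    have h7 := src_disj hS (T m).S
    have h8 : ((T m).S.card : ℝ) ≤ W := by exact_mod_cast hN.wd m hm
    have h9 : (0 : ℝ) ≤ 4 * ((1 / 2 : ℝ) ^ (T m).S.card + δ) := by positivity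
    calc 4 * ((1 / 2 : ℝ) ^ (T m).S.card + δ) * (avg fun ω₂ => one (¬ Disjoint (T m).S (η ω₂)))
        ≤ 4 * ((1 / 2 : ℝ) ^ (T m).S.card + δ) * ((T m).S.card * (p + δ)) :=
          mul_le_mul_of_nonneg_left h7 h9
      _ = 4 * (p + δ) * ((T m).S.card * (1 / 2) ^ (T m).S.card) +
          4 * (p + δ) * (δ * (T m).S.card) := by ring
      _ ≤ _ := by
        have h10 : δ * (T m).S.card ≤ δ * W := mul_le_mul_of_nonneg_left h8 hδ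
        have h11 : 4 * (p + δ) * (δ * (T m).S.card) ≤ 4 * (p + δ) * (δ * W) :=
          mul_le_mul_of_nonneg_left h10 (by positivity)
        linarith
  refine (Finset.sum_le_sum h6).trans ?_
  rw [Finset.sum_add_distrib, ← Finset.mul_sum, Finset.sum_const, nsmul_eq_mul]
  have hcard : (N.card : ℝ) ≤ r * n := by exact_mod_cast card_le hN.ne hN.rd
  have h12 : (∑ m ∈ N, ((T m).S.card : ℝ) * (1 / 2) ^ (T m).S.card) ≤ c₀ * W := hA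
  -- the numbers
  have h13 : (W : ℝ) ≤ 4 ^ W := by exact_mod_cast (Nat.lt_pow_self (by norm_num)).le
  have h14 : (1 : ℝ) ≤ ((n : ℝ) + 1) ^ 2 := one_le_pow₀ (by linarith)
  have h15 : C * δ * W ≤ 1 := by
    refine le_trans ?_ hCδ
    rw [mul_assoc (C * δ : ℝ)]
    refine mul_le_mul_of_nonneg_left ?_ (by positivity)
    calc (W : ℝ) ≤ 4 ^ W := h13
      _ = 1 * 4 ^ W := (one_mul _).symm
      _ ≤ ((n : ℝ) + 1) ^ 2 * 4 ^ W := mul_le_mul_of_nonneg_right h14 (by positivity)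
  have h16 : δ * n ≤ 1 := by
    have h17 : δ * n ≤ C * δ * (((n : ℝ) + 1) ^ 2 * 4 ^ W) := by
      have h18 : (n : ℝ) ≤ ((n : ℝ) + 1) ^ 2 * 4 ^ W := by
        have h19 : (1 : ℝ) ≤ 4 ^ W := one_le_pow₀ (by norm_num)
        have h20 : (0 : ℝ) ≤ n := Nat.cast_nonneg n
        have h21 : (n : ℝ) ≤ ((n : ℝ) + 1) ^ 2 := by linarith only [h20, mul_nonneg h20 h20]
        exact h21.trans (le_mul_of_one_le_right (by positivity) h19)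
      calc δ * n ≤ δ * (((n : ℝ) + 1) ^ 2 * 4 ^ W) := mul_le_mul_of_nonneg_left h18 hδ
        _ = 1 * (δ * (((n : ℝ) + 1) ^ 2 * 4 ^ W)) := (one_mul _).symm
        _ ≤ C * (δ * (((n : ℝ) + 1) ^ 2 * 4 ^ W)) :=
          mul_le_mul_of_nonneg_right hC' (by positivity)
        _ = C * δ * (((n : ℝ) + 1) ^ 2 * 4 ^ W) := by ring
    refine h17.trans (le_trans (le_of_eq (by ring)) hCδ)
  have h20 : C * ((p + δ) * W) ≤ 2 := by
    have : C * ((p + δ) * W) = C * p * W + C * δ * W := by ring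
    linarith
  have h21 : (N.card : ℝ) * (4 * (p + δ) * (δ * W)) ≤ 4 * ((p + δ) * W) * r := by
    calc (N.card : ℝ) * (4 * (p + δ) * (δ * W)) ≤ (r * n) * (4 * (p + δ) * (δ * W)) :=
          mul_le_mul_of_nonneg_right hcard (by positivity)
      _ = 4 * ((p + δ) * W) * r * (δ * n) := by ring
      _ ≤ 4 * ((p + δ) * W) * r * 1 := mul_le_mul_of_nonneg_left h16 (by positivity)
      _ = 4 * ((p + δ) * W) * r := mul_one _
  have h22 : 4 * (p + δ) * (∑ m ∈ N, ((T m).S.card : ℝ) * (1 / 2) ^ (T m).S.card) ≤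
      4 * ((p + δ) * W) * c₀ := by
    calc 4 * (p + δ) * (∑ m ∈ N, ((T m).S.card : ℝ) * (1 / 2) ^ (T m).S.card) ≤
          4 * (p + δ) * (c₀ * W) := mul_le_mul_of_nonneg_left h12 (by positivity)
      _ = 4 * ((p + δ) * W) * c₀ := by ring
  have h23 : C * (4 * ((p + δ) * W) * (c₀ + r)) ≤ C * ε := by
    have h24 : C * (4 * ((p + δ) * W) * (c₀ + r)) = 4 * (c₀ + r) * (C * ((p + δ) * W)) := by ring
    rw [h24]
    have h25 : 4 * (c₀ + r) * (C * ((p + δ) * W)) ≤ 4 * (c₀ + r) * 2 :=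
      mul_le_mul_of_nonneg_left h20 (by positivity)
    linarith
  have h26 : 4 * ((p + δ) * W) * (c₀ + r) ≤ ε := le_of_mul_le_mul_left h23 (by linarith)
  have h27 : 4 * ((p + δ) * W) * (c₀ + r) = 4 * ((p + δ) * W) * c₀ + 4 * ((p + δ) * W) * r := by
    ring
  linarith

/-! ## The sources -/

theorem gxm (r Q k : ℕ) (hQ : 0 < Q) {c₁ : ℝ} (hc₁ : 0 ≤ c₁) {ε : ℝ} (hε : 0 < ε) : ∃ s KK n₀ : ℕ,
    ∀ n ≥ n₀, ∀ Lf : Finset (Fin n), Lf.card ≤ k * Nat.clog 2 n →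
    ∀ {Ω₁ Ω₂ : Type} [Fintype Ω₁] [Nonempty Ω₁] [Fintype Ω₂] [Nonempty Ω₂]
      (Y : Cube n → Ω₁ → Cube n)
      (η : Fin (Nat.clog 2 n + r + 1) → Ω₂ → Finset (Fin n))
      (h : Ω₂ → Fin n → Fin (2 ^ s)),
      (∀ t, Bias (1 / ((n : ℝ) + 1) ^ KK) (Y t)) →
      (∀ t t', (∀ i ∈ Lf, t i = t' i) → Y t = Y t') →
      (∀ l : Fin (Nat.clog 2 n + r + 1),
        Src ((1 / 2 : ℝ) ^ (l : ℕ)) (1 / ((n : ℝ) + 1) ^ KK) (η l) h) →
      ∀ {ι κ : Type} [DecidableEq ι] [DecidableEq κ]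
      (T : ι → Term n) (M : Finset ι) (ζ : ι → ℂ) (T' : κ → Term n) (M' : Finset κ) (ξ : κ → ℂ),
      Rd r T M → (∀ m ∈ M, (T m).S ≠ ∅) → (∀ m ∈ M, ζ m ^ Q = 1) →
      Rd r T' M' → (∀ m ∈ M', (T' m).S ≠ ∅) → (∀ m ∈ M', ‖ξ m‖ = 1) →
      A1 T' M' ≤ c₁ * ((Nat.clog 2 n : ℝ) + 1) →
      ‖Phc Y η h (fun x => pr T ζ M x * pr T' ξ M' x) -
        av fun x => pr T ζ M x * pr T' ξ M' x‖ ≤ ε := by
  classical
  obtain ⟨ρ, hρ0, hρ1, hρ⟩ := Xp.root_gap Q hQ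
  obtain ⟨t, s, C₃, ht, hcore⟩ := Xl.core Q r hQ hρ0 hρ1 hρ (show 0 < ε / 32 by positivity)
  obtain ⟨C₂, hfool⟩ := Xl.foolI (r + r) (show 0 < ε / 8 by positivity)
  obtain ⟨C₄, hC₄'⟩ := exists_nat_gt (8 * (c₁ + r) / (ε / 32))
  obtain ⟨C₅, hC₅⟩ := exists_nat_gt (32 * (k : ℝ) / ε)
  obtain ⟨C, hC⟩ : ∃ C : ℕ, C = C₃ + C₄ + C₅ + 1 := ⟨_, rfl⟩
  have hC1 : 1 ≤ C := by omega
  have hC₅' : 32 * (k : ℝ) ≤ ε * C := by
    rw [div_lt_iff₀ hε] at hC₅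
    have h1 : (C₅ : ℝ) ≤ C := by exact_mod_cast (show C₅ ≤ C by omega)
    linarith only [hC₅, mul_le_mul_of_nonneg_left h1 hε.le]
  have hC₄ : 8 * (c₁ + r) ≤ ε / 32 * C := by
    rw [div_lt_iff₀ (by positivity)] at hC₄'
    have h1 : (C₄ : ℝ) ≤ C := by exact_mod_cast (show C₄ ≤ C by omega)
    have h2 : 0 < ε / 32 := by positivity
    linarith only [hC₄', mul_le_mul_of_nonneg_left h1 h2.le]
  have hC₃ : (C₃ : ℝ) ≤ C := by exact_mod_cast (show C₃ ≤ C by omega)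
  have hcore' : ∀ (n W : ℕ) {ι : Type} [DecidableEq ι] (T : ι → Term n) (M : Finset ι)
      (ζ : ι → ℂ), Fam r W T M → 1 ≤ W → (∀ m ∈ M, ζ m ^ Q = 1) → Red T ζ M →
      ∀ p δ : ℝ, 0 < p → p ≤ 1 → t ≤ p * A1 T M → p * A1 T M ≤ 2 * t → C * p * W ≤ 1 → 0 ≤ δ →
      C * δ * ((n : ℝ) + 1) ^ 2 * 4 ^ W ≤ 1 →
      ∀ {Ω₁ Ω₂ : Type} [Fintype Ω₁] [Nonempty Ω₁] [Fintype Ω₂] [Nonempty Ω₂]
        (Z : Ω₂ → Ω₁ → Cube n) (η : Ω₂ → Finset (Fin n)) (h : Ω₂ → Fin n → Fin (2 ^ s)),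
        (∀ ω₂, Bias δ (Z ω₂)) → Src p δ η h →
        (avg fun ω₂ => avg fun ω₁ =>
          ‖av fun u : Fin (2 ^ s) → Bool => pr T ζ M (mv (Z ω₂ ω₁) (η ω₂) (h ω₂) u)‖) ≤
            ε / 32 := by
    intro n W ι _ T M ζ a1 a2 a3 a4 p δ a5 a6 a7 a8 a9 a10 a11 Ω₁ Ω₂ _ _ _ _ Z η h a12 a13
    refine hcore n W T M ζ a1 a2 a3 a4 p δ a5 a6 a7 a8 (le_trans ?_ a9) a10 (le_trans ?_ a11)
      Z η h a12 a13
    · gcongr
    · gcongr
  obtain ⟨c₂, hc₂⟩ : ∃ c₂ : ℕ, c₂ = ⌈c₁⌉₊ := ⟨_, rfl⟩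
  have hc₂' : c₁ ≤ c₂ := by rw [hc₂]; exact Nat.le_ceil _
  obtain ⟨C₁, hC₁⟩ : ∃ C₁ : ℕ, C₁ = 2 * t * C + t := ⟨_, rfl⟩
  obtain ⟨C₆, hC₆⟩ : ∃ C₆ : ℕ, C₆ = C₁ + c₂ := ⟨_, rfl⟩
  obtain ⟨K0, hK0⟩ : ∃ K0 : ℕ, K0 = C₂ * ((2 + 1) * (C₆ + 1)) := ⟨_, rfl⟩
  obtain ⟨c₀, hc₀⟩ : ∃ c₀ : ℝ, c₀ = 2 ^ (C₂ * (C₆ + 2) + C₂ * ((2 + 1) * (C₆ + 1))) := ⟨_, rfl⟩
  have hc₀' : 0 ≤ c₀ := by rw [hc₀]; positivity
  obtain ⟨n₀, hn₀⟩ := exists_nat_gt ((64 + 8 * c₀) / ε + 4 * 2 ^ (2 * (2 + 1)) * C)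
  refine ⟨s, K0 + (2 * 2 + 7), max (max n₀ 1) r, ?_⟩
  intro n hn Lf hLf Ω₁ Ω₂ _ _ _ _ Y η h hY hYL hS ι κ _ _ T M ζ T' M' ξ hM hne hζq hM' hne' hξ
    hA1
  have hn1 : 1 ≤ n := (le_max_right _ _).trans ((le_max_left _ _).trans hn)
  have hnr : r ≤ n := (le_max_right _ _).trans hn
  have hnn : (n₀ : ℝ) ≤ n := by
    exact_mod_cast (le_max_left _ _).trans ((le_max_left _ _).trans hn)
  have hn1' : (1 : ℝ) ≤ n := by exact_mod_cast hn1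
  have hC0 : (0 : ℝ) ≤ C := Nat.cast_nonneg C
  have hbig : (64 + 8 * c₀) / ε + 4 * 2 ^ (2 * (2 + 1)) * C ≤ n := hn₀.le.trans hnn
  have hb1 : 64 + 8 * c₀ ≤ ε * n := by
    have h0 : (0 : ℝ) ≤ 4 * 2 ^ (2 * (2 + 1)) * C := by positivity
    have h1 : (64 + 8 * c₀) / ε ≤ n := by linarith
    rw [div_le_iff₀ hε] at h1
    linarith
  have hb2 : 4 * 2 ^ (2 * (2 + 1)) * (C : ℝ) ≤ n := by
    have h1 : 0 ≤ (64 + 8 * c₀) / ε := by positivity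
    exact (le_add_of_nonneg_left h1).trans hbig
  obtain ⟨δ, hδ⟩ : ∃ δ : ℝ, δ = 1 / ((n : ℝ) + 1) ^ (K0 + (2 * 2 + 7)) := ⟨_, rfl⟩
  have hδ0 : 0 ≤ δ := by rw [hδ]; positivity
  -- the numbers
  have e1 : 2 * (n : ℝ) ^ 2 * ((1 / 2) ^ wb 2 n + δ) ≤ ε / 16 := by
    have h1 := mb_half 2 n hn1
    have h2 : δ ≤ 1 / (n : ℝ) ^ (2 + 1) := by
      rw [hδ]
      apply one_div_le_one_div_of_le (by positivity)
      calc (n : ℝ) ^ (2 + 1) ≤ ((n : ℝ) + 1) ^ (2 + 1) :=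
            pow_le_pow_left₀ (by linarith) (by linarith) _
        _ ≤ ((n : ℝ) + 1) ^ (K0 + (2 * 2 + 7)) := pow_le_pow_right₀ (by linarith) (by omega)
    calc 2 * (n : ℝ) ^ 2 * ((1 / 2) ^ wb 2 n + δ) ≤
          2 * (n : ℝ) ^ 2 * (1 / n ^ (2 + 1) + 1 / n ^ (2 + 1)) :=
          mul_le_mul_of_nonneg_left (add_le_add h1 h2) (by positivity)
      _ = 4 / n := by
        rw [pow_succ]
        field_simp
        ring
      _ ≤ ε / 16 := by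
        rw [div_le_div_iff₀ (by linarith) (by norm_num)]
        linarith
  have e2 : δ * 2 ^ (C₂ * (C₆ * wb 2 n + wb 2 n + 1)) ≤ ε / 8 := by
    have h1 := mb_big C₂ C₆ 2 n
    have h2 := ma_pow n K0 (K0 + (2 * 2 + 7)) (by omega) hc₀'
    rw [← hδ] at h2
    calc δ * 2 ^ (C₂ * (C₆ * wb 2 n + wb 2 n + 1)) ≤ δ * (c₀ * ((n : ℝ) + 1) ^ K0) := by
          refine mul_le_mul_of_nonneg_left (h1.trans (le_of_eq ?_)) hδ0
          rw [hc₀, hK0]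
      _ ≤ c₀ / ((n : ℝ) + 1) := h2
      _ ≤ ε / 8 := by
        rw [div_le_div_iff₀ (by linarith) (by norm_num)]
        nlinarith
  have e3 : C * δ * ((n : ℝ) + 1) ^ 2 * 4 ^ wb 2 n ≤ 1 := by
    have h1 := mb_four 2 n
    have h2 := ma_pow n (2 * (2 + 1) + 2) (K0 + (2 * 2 + 7)) (by omega)
      (show (0 : ℝ) ≤ 4 * 2 ^ (2 * (2 + 1)) * C by positivity)
    rw [← hδ] at h2
    calc C * δ * ((n : ℝ) + 1) ^ 2 * 4 ^ wb 2 n ≤
          C * δ * ((n : ℝ) + 1) ^ 2 * (4 * 2 ^ (2 * (2 + 1)) * ((n : ℝ) + 1) ^ (2 * (2 + 1))) :=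
          mul_le_mul_of_nonneg_left h1 (by positivity)
      _ = δ * (4 * 2 ^ (2 * (2 + 1)) * C * ((n : ℝ) + 1) ^ (2 * (2 + 1) + 2)) := by ring
      _ ≤ 4 * 2 ^ (2 * (2 + 1)) * C / ((n : ℝ) + 1) := h2
      _ ≤ 1 := by
        rw [div_le_one (by linarith)]
        linarith
  -- the strings
  rw [← hδ] at hY hS
  have hnorm : ∀ m ∈ M, ‖ζ m‖ = 1 := fun m hm =>
    Complex.norm_eq_one_of_pow_eq_one (hζq m hm) (by omega)
  have hcard : ∀ {ι : Type} [DecidableEq ι] {T : ι → Term n} {M : Finset ι}, Rd r T M →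
      (∀ m ∈ M, (T m).S ≠ ∅) → (M.card : ℝ) ≤ (n : ℝ) ^ 2 := by
    intro ι _ T M hM h0
    have h1 : M.card ≤ r * n := card_le h0 hM
    have h2 : M.card ≤ n ^ 2 := by
      rw [pow_two]
      exact h1.trans (Nat.mul_le_mul_right _ hnr)
    exact_mod_cast h2
  have hcd := hcard hM hne
  have hcd' := hcard hM' hne'
  -- the wide parts
  obtain ⟨N, hN⟩ : ∃ N : Finset ι, N = M.filter fun m => (T m).S.card ≤ wb 2 n := ⟨_, rfl⟩
  obtain ⟨N', hN'⟩ : ∃ N' : Finset κ, N' = M'.filter fun m => (T' m).S.card ≤ wb 2 n := ⟨_, rfl⟩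
  have hU : Bias δ (fun x : Cube n => x) := Xp.Bias.mono Xp.Bias.unif hδ0
  have hNM : N ⊆ M := by rw [hN]; exact Finset.filter_subset _ _
  have hNM' : N' ⊆ M' := by rw [hN']; exact Finset.filter_subset _ _
  have hNq : ∀ m ∈ N, ζ m ^ Q = 1 := fun m hm => hζq m (hNM hm)
  have hN1' : ∀ m ∈ N, ‖ζ m‖ = 1 := fun m hm => hnorm m (hNM hm)
  have hN'1 : ∀ m ∈ N', ‖ξ m‖ = 1 := fun m hm => hξ m (hNM' hm)
  have hdrop : ∀ {Ω : Type} [Fintype Ω] [Nonempty Ω] (X : Ω → Cube n), Bias δ X →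
      ‖(av fun ω => pr T ζ M (X ω) * pr T' ξ M' (X ω)) -
        av fun ω => pr T ζ N (X ω) * pr T' ξ N' (X ω)‖ ≤ ε / 4 := by
    intro Ω _ _ X hX
    have a1 : (avg fun ω => ‖pr T ζ M (X ω) - pr T ζ N (X ω)‖) ≤ ε / 16 := by
      rw [hN]
      exact (Xa.mh_drop hnorm hδ0 hcd hX).trans e1
    have a2 : (avg fun ω => ‖pr T' ξ M' (X ω) - pr T' ξ N' (X ω)‖) ≤ ε / 16 := by
      rw [hN']
      exact (Xa.mh_drop hξ hδ0 hcd' hX).trans e1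
    refine (Xa.mh_two (g := fun ω => pr T ζ M (X ω)) (g' := fun ω => pr T ζ N (X ω))
      (h := fun ω => pr T' ξ M' (X ω)) (h' := fun ω => pr T' ξ N' (X ω))
      (fun ω => (ml_norm_pr hξ _).le) (fun ω => (ml_norm_pr hN1' _).le) a1 a2).trans ?_
    linarith
  have d1 : ‖Phc Y η h (fun x => pr T ζ M x * pr T' ξ M' x) -
      Phc Y η h (fun x => pr T ζ N x * pr T' ξ N' x)‖ ≤ ε / 4 :=
    phc_close Y η h fun t sx => hdrop (fun ω => xo (Y t ω) sx) ((hY t).xo sx)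
  have d2 : ‖av (fun x => pr T ζ M x * pr T' ξ M' x) -
      av (fun x => pr T ζ N x * pr T' ξ N' x)‖ ≤ ε / 4 := hdrop (fun x : Cube n => x) hU
  -- the reduced form
  have hNw : ∀ m ∈ N, (T m).S.card ≤ wb 2 n := by
    intro m hm
    rw [hN] at hm
    exact (Finset.mem_filter.1 hm).2
  have hNr : Rd r T N := fun i => (Finset.card_le_card (Finset.filter_subset_filter _ hNM)).trans
    (hM i)
  obtain ⟨T₁, ζ₁, M₁', κ₁, hκ₁, -, hfam, hζ₁, hred, hpr⟩ := reduce hQ T ζ N hNr hNw hNq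
  have hN1 : ∀ m ∈ M₁', ‖ζ₁ m‖ = 1 := fun m hm =>
    Complex.norm_eq_one_of_pow_eq_one (hζ₁ m hm) (by omega)
  have hfam' : Fam r (wb 2 n) T' N' := by
    refine ⟨fun m hm => hne' m (hNM' hm), fun i => ?_, fun m hm => ?_⟩
    · exact (Finset.card_le_card (Finset.filter_subset_filter _ hNM')).trans (hM' i)
    · rw [hN'] at hm
      exact (Finset.mem_filter.1 hm).2
  have hwb : (Nat.clog 2 n : ℝ) + 1 ≤ (wb 2 n : ℕ) := by
    have : Nat.clog 2 n + 1 ≤ wb 2 n := by unfold wb; omega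
    exact_mod_cast this
  have hA1' : A1 T' N' ≤ c₁ * (wb 2 n : ℕ) := by
    have h1 : A1 T' N' ≤ A1 T' M' := by
      unfold Xl.A1
      exact Finset.sum_le_sum_of_subset_of_nonneg hNM' fun m _ _ => by positivity
    exact h1.trans (hA1.trans (mul_le_mul_of_nonneg_left hwb hc₁))
  have hpr' : (fun x => pr T ζ N x * pr T' ξ N' x) =
      fun x => κ₁ * (pr T₁ ζ₁ M₁' x * pr T' ξ N' x) := by
    funext x
    rw [hpr x]
    ring
  have d3 : ‖Phc Y η h (fun x => pr T ζ N x * pr T' ξ N' x) -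
      av (fun x => pr T ζ N x * pr T' ξ N' x)‖ ≤ ε / 4 := by
    rw [hpr', phc_mul, ma_av_mul_left, ← mul_sub, norm_mul, hκ₁, one_mul]
    rcases le_total (A1 T₁ M₁') ((C₁ * wb 2 n : ℕ) : ℝ) with hA | hA
    · refine phc_const Y η h fun t sx => ?_
      have hfam2 : Fam (r + r) (wb 2 n) (Sum.elim T₁ T') (M₁'.disjSum N') := by
        refine ⟨?_, rd_disj hfam.rd hfam'.rd, ?_⟩
        · rintro (m | m) hm
          · exact hfam.ne m (inl_mem_disjSum.1 hm)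
          · exact hfam'.ne m (inr_mem_disjSum.1 hm)
        · rintro (m | m) hm
          · exact hfam.wd m (inl_mem_disjSum.1 hm)
          · exact hfam'.wd m (inr_mem_disjSum.1 hm)
      have hA2 : A1 (Sum.elim T₁ T') (M₁'.disjSum N') ≤ ((C₆ * wb 2 n : ℕ) : ℝ) := by
        have h1 : A1 (Sum.elim T₁ T') (M₁'.disjSum N') = A1 T₁ M₁' + A1 T' N' := by
          unfold Xl.A1
          rw [Finset.sum_disjSum]
          rfl
        rw [h1, hC₆]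
        push_cast at hA ⊢
        have h2 : c₁ * (wb 2 n : ℕ) ≤ c₂ * (wb 2 n : ℕ) :=
          mul_le_mul_of_nonneg_right hc₂' (Nat.cast_nonneg _)
        linarith
      have hu : ∀ m ∈ M₁'.disjSum N', ‖(Sum.elim ζ₁ ξ : _ ⊕ κ → ℂ) m‖ = 1 := by
        rintro (m | m) hm
        · exact hN1 m (inl_mem_disjSum.1 hm)
        · exact hN'1 m (inr_mem_disjSum.1 hm)
      have h1 := hfool n (wb 2 n) (C₆ * wb 2 n) (Sum.elim T₁ T') (M₁'.disjSum N')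
        (Sum.elim ζ₁ ξ) hfam2 hA2 hu (fun ω => xo (Y t ω) sx) δ hδ0 ((hY t).xo sx)
      have h2 : pr (Sum.elim T₁ T') (Sum.elim ζ₁ ξ) (M₁'.disjSum N') =
          fun x => pr T₁ ζ₁ M₁' x * pr T' ξ N' x := by
        funext x
        exact pr_disj _ _ _ _ _ _ x
      rw [h2] at h1
      linarith
    · rw [hC₁] at hA
      have hW1 : 1 ≤ wb 2 n := by unfold wb; omega
      have hvb : ∀ p : ℝ, 0 < p → p ≤ 1 → C * p * (wb 2 n : ℕ) ≤ 1 →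
          ∀ {Ω₁ Ω₂ : Type} [Fintype Ω₁] [Nonempty Ω₁] [Fintype Ω₂] [Nonempty Ω₂] {B : ℕ}
            (Z : Ω₂ → Ω₁ → Cube n) (η : Ω₂ → Finset (Fin n)) (h : Ω₂ → Fin n → Fin B),
            (∀ ω₂, Bias δ (Z ω₂)) → Src p δ η h →
            (avg fun ω₂ => avg fun ω₁ => avg fun u : Fin B → Bool =>
              ‖pr T' ξ N' (mv (Z ω₂ ω₁) (η ω₂) (h ω₂) u) - pr T' ξ N' (Z ω₂ ω₁)‖) ≤ ε / 32 := by
        intro p hp hp1 hCp Ω₁ Ω₂ _ _ _ _ B Z η h hZ hSr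
        exact vbm hc₁ hC1 hC₄ hfam' hW1 hN'1 hA1' hδ0 e3 p hp hCp Z η h hZ hSr
      have hLf2 : Lf.card ≤ k * wb 2 n := hLf.trans (Nat.mul_le_mul_left _ (by unfold wb; omega))
      have h1 := phc_caseIIg (k := k) ht hcore' hfam hW1 hζ₁ hN1 hred hA
        (fun x => (ml_norm_pr hN'1 x).le) hδ0 e3 hvb η h hS Y hY Lf hLf2 hYL hε hC₅'
      have h2 := phc_caseIIg (k := k) ht hcore' hfam hW1 hζ₁ hN1 hred hA
        (fun x => (ml_norm_pr hN'1 x).le) hδ0 e3 hvb η h hS (fun _ (x : Cube n) => x)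
        (fun _ => hU) Lf hLf2 (fun _ _ _ => rfl) hε hC₅'
      rw [mx_unif] at h2
      calc ‖Phc Y η h (fun x => pr T₁ ζ₁ M₁' x * pr T' ξ N' x) -
            av (fun x => pr T₁ ζ₁ M₁' x * pr T' ξ N' x)‖ ≤
            ‖Phc Y η h (fun x => pr T₁ ζ₁ M₁' x * pr T' ξ N' x)‖ +
            ‖av (fun x => pr T₁ ζ₁ M₁' x * pr T' ξ N' x)‖ := norm_sub_le _ _
        _ ≤ ε / 4 := by linarith
  have h12 := norm_sub_le_norm_sub_add_norm_sub (Phc Y η h (fun x => pr T ζ M x * pr T' ξ M' x))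
    (Phc Y η h (fun x => pr T ζ N x * pr T' ξ N' x)) (av (fun x => pr T ζ M x * pr T' ξ M' x))
  have h13 := norm_sub_le_norm_sub_add_norm_sub (Phc Y η h (fun x => pr T ζ N x * pr T' ξ N' x))
    (av (fun x => pr T ζ N x * pr T' ξ N' x)) (av (fun x => pr T ζ M x * pr T' ξ M' x))
  rw [norm_sub_rev (av (fun x => pr T ζ N x * pr T' ξ N' x))] at h13
  linarith

/-- From the sources to the leaves, for a class of functions bounded by one. -/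
theorem gl_of (R k : ℕ) {𝒢 : ∀ n : ℕ, Set ((Fin n → Bool) → ℂ)}
    (h𝒢 : ∀ n, ∀ f ∈ 𝒢 n, ∀ x, ‖f x‖ ≤ 1) {ε : ℝ} (hε : 0 < ε)
    (H₀ : ∃ s KK n₀ : ℕ, ∀ n ≥ n₀, ∀ L : Finset (Fin n), L.card ≤ k * Nat.clog 2 n →
      ∀ {Ω₁ Ω₂ : Type} [Fintype Ω₁] [Nonempty Ω₁] [Fintype Ω₂] [Nonempty Ω₂]
        (Y : Cube n → Ω₁ → Cube n)
        (η : Fin (Nat.clog 2 n + R + 1) → Ω₂ → Finset (Fin n))
        (h : Ω₂ → Fin n → Fin (2 ^ s)),
        (∀ t, Bias (1 / ((n : ℝ) + 1) ^ KK) (Y t)) →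
        (∀ t t', (∀ i ∈ L, t i = t' i) → Y t = Y t') →
        (∀ l : Fin (Nat.clog 2 n + R + 1),
          Src ((1 / 2 : ℝ) ^ (l : ℕ)) (1 / ((n : ℝ) + 1) ^ KK) (η l) h) →
        ∀ f ∈ 𝒢 n, ‖Phc Y η h f - av f‖ ≤ ε / 4) :
    LFooled 𝒢 k ε := by
  classical
  obtain ⟨s, KK, n₁, H⟩ := H₀
  obtain ⟨E, G, hG, hgen⟩ := Xp.xgen R s (KK + (k + 1))
  obtain ⟨n₂, hn₂⟩ := exists_nat_gt ((2 : ℝ) ^ k * (2 + 2 / ε))
  refine ⟨E, G, hG, max n₁ n₂, fun n hn L a hL f hf => ?_⟩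
  have hn1 : n₁ ≤ n := (le_max_left _ _).trans hn
  have hn2 : (n₂ : ℝ) ≤ n := by exact_mod_cast (le_max_right _ _).trans hn
  have hn0 : (0 : ℝ) ≤ n := Nat.cast_nonneg n
  have hp0 : (0 : ℝ) < (n : ℝ) + 1 := by linarith
  have hp1 : (1 : ℝ) ≤ (n : ℝ) + 1 := by linarith
  obtain ⟨M₁, M₂, hM₁, hM₂, Y, η, h, hY, hS, hf'⟩ := hgen n
  have : Nonempty (Fin M₁) := ⟨⟨0, hM₁⟩⟩
  have : Nonempty (Fin M₂) := ⟨⟨0, hM₂⟩⟩
  obtain ⟨δ, hδ⟩ : ∃ δ : ℝ, δ = 1 / ((n : ℝ) + 1) ^ (KK + (k + 1)) := ⟨_, rfl⟩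
  rw [← hδ] at hY hS
  have hδ0 : 0 ≤ δ := by rw [hδ]; positivity
  -- the numbers
  have hbig : (2 : ℝ) ^ k * (2 + 2 / ε) ≤ (n : ℝ) + 1 := by linarith
  have h2k : (0 : ℝ) < 2 ^ k := by positivity
  have hb1 : (2 : ℝ) ^ k * 2 ≤ (n : ℝ) + 1 := by
    have h3 : (0 : ℝ) ≤ 2 ^ k * (2 / ε) := by positivity
    linarith only [hbig, h3]
  have hb2 : (2 : ℝ) ^ k * (2 / ε) ≤ (n : ℝ) + 1 := by linarith only [hbig, h2k]
  have hL2 : (2 : ℝ) ^ L.card ≤ 2 ^ k * ((n : ℝ) + 1) ^ k := by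
    calc (2 : ℝ) ^ L.card ≤ 2 ^ (k * Nat.clog 2 n) := pow_le_pow_right₀ (by norm_num) hL
      _ = ((2 : ℝ) ^ Nat.clog 2 n) ^ k := by rw [mul_comm, pow_mul]
      _ ≤ (2 * ((n : ℝ) + 1)) ^ k := pow_le_pow_left₀ (by positivity) (ma_clog n) k
      _ = 2 ^ k * ((n : ℝ) + 1) ^ k := mul_pow _ _ _
  have hδL : δ * 2 ^ L.card ≤ 2 ^ k / ((n : ℝ) + 1) * (1 / ((n : ℝ) + 1) ^ KK) := by
    calc δ * 2 ^ L.card ≤ δ * (2 ^ k * ((n : ℝ) + 1) ^ k) := mul_le_mul_of_nonneg_left hL2 hδ0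
      _ = 2 ^ k / ((n : ℝ) + 1) * (1 / ((n : ℝ) + 1) ^ KK) := by
        rw [hδ, pow_add, pow_add, pow_one]
        field_simp
  have hKK : 1 / ((n : ℝ) + 1) ^ KK ≤ 1 := by
    rw [div_le_one (by positivity)]
    exact one_le_pow₀ hp1
  have hKK0 : 0 ≤ 1 / ((n : ℝ) + 1) ^ KK := by positivity
  have hq1 : (2 : ℝ) ^ k / ((n : ℝ) + 1) ≤ 1 / 2 := by
    rw [div_le_iff₀ hp0]
    linarith
  have hq2 : (2 : ℝ) ^ k / ((n : ℝ) + 1) ≤ ε / 2 := by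
    rw [div_le_iff₀ hp0]
    have h3 : (2 : ℝ) ^ k * (2 / ε) * (ε / 2) = 2 ^ k := by field_simp
    linarith only [h3, mul_le_mul_of_nonneg_right hb2 (show (0 : ℝ) ≤ ε / 2 by positivity)]
  have hδL0 : 2 ^ k / ((n : ℝ) + 1) * (1 / ((n : ℝ) + 1) ^ KK) ≤ 2 ^ k / ((n : ℝ) + 1) :=
    mul_le_of_le_one_right (by positivity) hKK
  have hδL1 : δ * 2 ^ L.card ≤ 1 / 2 := hδL.trans (hδL0.trans hq1)
  have hδL2 : δ * 2 ^ L.card ≤ ε / 2 := hδL.trans (hδL0.trans hq2)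
  have hδL3 : 2 ^ (L.card + 1) * δ ≤ 1 / ((n : ℝ) + 1) ^ KK := by
    have h3 : 2 ^ (L.card + 1) * δ = 2 * (δ * 2 ^ L.card) := by ring
    rw [h3]
    linarith only [hδL, mul_le_mul_of_nonneg_right hq1 hKK0]
  have hδK : δ ≤ 1 / ((n : ℝ) + 1) ^ KK := by
    have h3 : (1 : ℝ) ≤ 2 ^ (L.card + 1) := one_le_pow₀ (by norm_num)
    exact (le_mul_of_one_le_left hδ0 h3).trans hδL3
  -- the conditioned string
  obtain ⟨hP, Ω', i1, i2, Y', hY', hloc, hlf⟩ := cz hδ0 hY L hδL1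
  have hnorm : ∀ x, ‖f x‖ ≤ 1 := h𝒢 n f hf
  have key := H n hn1 L hL (fun t => Y' (xo a t)) η h (fun t => gl_bias (hY' _) hδL3)
    (fun t t' ht => hloc _ _ fun j hj => by
      show xor (a j) (t j) = xor (a j) (t' j)
      rw [ht j hj])
    (fun l => gl_src (hS l) hδK) f hf
  have hav : (av fun p : Fin (2 ^ E n) => lf L a f (out G n p)) =
      av fun v : Fin (Nat.clog 2 n + R + 1) → Fin (2 ^ s) → Bool => av fun ω₂ =>
        av fun ω₁ => lf L a f (gx (Y ω₁) (fun l => η l ω₂) (h ω₂) v) := by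
    rw [← hf' (lf L a f)]
    exact (na_eq_av (2 ^ E n) fun p => lf L a f (out G n p)).symm
  have hin : ∀ (v : Fin (Nat.clog 2 n + R + 1) → Fin (2 ^ s) → Bool) (ω₂ : Fin M₂),
      ‖(av fun ω₁ => lf L a f (gx (Y ω₁) (fun l => η l ω₂) (h ω₂) v)) -
        (1 / 2) ^ L.card * av fun ω₁ : Ω' =>
          f (xo (Y' (xo a (gx (fun _ => false) (fun l => η l ω₂) (h ω₂) v)) ω₁)
            (gx (fun _ => false) (fun l => η l ω₂) (h ω₂) v))‖ ≤ δ := by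
    intro v ω₂
    obtain ⟨t, ht⟩ : ∃ t : Cube n, t = gx (fun _ => false) (fun l => η l ω₂) (h ω₂) v := ⟨_, rfl⟩
    have h1 : (av fun ω₁ => lf L a f (gx (Y ω₁) (fun l => η l ω₂) (h ω₂) v)) =
        av fun ω₁ => lf L (xo a t) (fun z => f (xo z t)) (Y ω₁) := by
      congr 1
      funext ω₁
      rw [Xp.gx_xo (Y ω₁) (fun l => η l ω₂) (h ω₂) v, ← ht, gl_lf_xo]
    rw [h1, hlf, ← ht]
    have h2 : ‖av fun ω' => f (xo (Y' (xo a t) ω') t)‖ ≤ 1 := ma_norm_av fun ω' => hnorm _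
    have h3 := hP (xo a t)
    have h4 : ((avg fun ω => one (Tr L (xo a t) (Y ω)) : ℝ) : ℂ) *
        (av fun ω' => f (xo (Y' (xo a t) ω') t)) -
        (1 / 2) ^ L.card * (av fun ω' => f (xo (Y' (xo a t) ω') t)) =
        (((avg fun ω => one (Tr L (xo a t) (Y ω))) - (1 / 2) ^ L.card : ℝ) : ℂ) *
          av fun ω' => f (xo (Y' (xo a t) ω') t) := by
      push_cast
      ring
    rw [h4, norm_mul, Complex.norm_real, Real.norm_eq_abs]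
    calc |(avg fun ω => one (Tr L (xo a t) (Y ω))) - (1 / 2) ^ L.card| *
        ‖av fun ω' => f (xo (Y' (xo a t) ω') t)‖ ≤ δ * 1 :=
          mul_le_mul h3 h2 (norm_nonneg _) hδ0
      _ = δ := mul_one _
  have hPhc : (1 / 2 : ℂ) ^ L.card * Phc (fun t => Y' (xo a t)) η h f =
      av fun v : Fin (Nat.clog 2 n + R + 1) → Fin (2 ^ s) → Bool => av fun ω₂ =>
        (1 / 2) ^ L.card * av fun ω₁ : Ω' =>
          f (xo (Y' (xo a (gx (fun _ => false) (fun l => η l ω₂) (h ω₂) v)) ω₁)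
            (gx (fun _ => false) (fun l => η l ω₂) (h ω₂) v)) := by
    unfold Phc
    simp only [ma_av_mul_left]
  have h1 : ‖(av fun p : Fin (2 ^ E n) => lf L a f (out G n p)) -
      (1 / 2) ^ L.card * Phc (fun t => Y' (xo a t)) η h f‖ ≤ δ := by
    rw [hav, hPhc]
    exact ma_av_close fun v => ma_av_close fun ω₂ => hin v ω₂
  have h2 : ‖(1 / 2 : ℂ) ^ L.card * Phc (fun t => Y' (xo a t)) η h f -
      (1 / 2) ^ L.card * av f‖ ≤ (1 / 2) ^ L.card * (ε / 4) := by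
    rw [← mul_sub, norm_mul]
    refine mul_le_mul (le_of_eq ?_) key (norm_nonneg _) (by positivity)
    rw [norm_pow]
    norm_num
  have h3 : δ ≤ ε / 2 * (1 / 2) ^ L.card := by
    have h4 : δ = δ * 2 ^ L.card * (1 / 2) ^ L.card := by
      rw [mul_assoc, ← mul_pow]
      norm_num
    rw [h4]
    exact mul_le_mul_of_nonneg_right hδL2 (by positivity)
  have h5 : (0 : ℝ) < (1 / 2) ^ L.card := by positivity
  calc ‖(av fun p : Fin (2 ^ E n) => lf L a f (out G n p)) - (1 / 2) ^ L.card * av f‖ ≤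
      ‖(av fun p : Fin (2 ^ E n) => lf L a f (out G n p)) -
        (1 / 2) ^ L.card * Phc (fun t => Y' (xo a t)) η h f‖ +
      ‖(1 / 2 : ℂ) ^ L.card * Phc (fun t => Y' (xo a t)) η h f - (1 / 2) ^ L.card * av f‖ :=
        norm_sub_le_norm_sub_add_norm_sub _ _ _
    _ ≤ ε * (1 / 2) ^ L.card := by nlinarith

/-! ## Row MX -/

theorem mx_pr (M : Finset (Finset (Fin n))) (ζ : Finset (Fin n) → ℂ) (s x : Cube n) :
    Xp.pr ζ M (xo x s) = pr (fun m : Finset (Fin n) => (⟨m, fun i => !(s i)⟩ : Term n)) ζ M x := by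
  classical
  unfold Xp.pr pr
  refine Finset.prod_congr rfl fun m _ => ?_
  have h1 : Xp.Tr m (xo x s) ↔ Tr m (fun i => !(s i)) x := by
    refine forall₂_congr fun i _ => ?_
    show xor (x i) (s i) = true ↔ x i = !(s i)
    cases x i <;> cases s i <;> decide
  by_cases h : Tr m (fun i => !(s i)) x
  · rw [if_pos (h1.2 h), if_pos h]
  · rw [if_neg fun h' => h (h1.1 h'), if_neg h]

theorem mix (r Q k : ℕ) (hQ : 0 < Q) (C : ℝ) {ε : ℝ} (hε : 0 < ε) : LFooled (Mix r Q C) k ε := by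
  classical
  refine gl_of r k ?_ hε ?_
  · rintro n f ⟨M, N, ζ, s, -, -, -, h1, -, -, rfl⟩ x
    show ‖Xp.pr ζ M (xo x s)‖ ≤ 1
    rw [mx_pr]
    exact (ml_norm_pr h1 x).le
  · obtain ⟨s, KK, n₀, H⟩ := gxm r Q k hQ (le_max_right C 0) (show 0 < ε / 4 by positivity)
    refine ⟨s, KK, n₀, ?_⟩
    rintro n hn L hL Ω₁ Ω₂ _ _ _ _ Y η h hY hYL hS f ⟨M, N, ζ, sx, hM, hne, hNM, h1, h2, h3, rfl⟩
    have hM' : Rd r (fun m : Finset (Fin n) => (⟨m, fun i => !(sx i)⟩ : Term n)) M := hM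
    have hsub : ∀ {A : Finset (Finset (Fin n))}, A ⊆ M →
        Rd r (fun m : Finset (Fin n) => (⟨m, fun i => !(sx i)⟩ : Term n)) A := fun {A} hA i =>
      (Finset.card_le_card (Finset.filter_subset_filter _ hA)).trans (hM' i)
    have key := H n hn L hL Y η h hY hYL hS
      (fun m : Finset (Fin n) => (⟨m, fun i => !(sx i)⟩ : Term n)) (M \ N) ζ
      (fun m : Finset (Fin n) => (⟨m, fun i => !(sx i)⟩ : Term n)) N ζ
      (hsub Finset.sdiff_subset) (fun m hm => hne m (Finset.sdiff_subset hm))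
      (fun m hm => h2 m (Finset.mem_sdiff.1 hm).1 (Finset.mem_sdiff.1 hm).2)
      (hsub hNM) (fun m hm => hne m (hNM hm)) (fun m hm => h1 m (hNM hm)) (by
        refine h3.trans ?_
        exact mul_le_mul_of_nonneg_right (le_max_left _ _) (by positivity))
    have h4 : (fun x => Xp.pr ζ M (xo x sx)) = fun x =>
        pr (fun m : Finset (Fin n) => (⟨m, fun i => !(sx i)⟩ : Term n)) ζ (M \ N) x *
          pr (fun m : Finset (Fin n) => (⟨m, fun i => !(sx i)⟩ : Term n)) ζ N x := by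
      funext x
      rw [mx_pr]
      unfold Xl.pr
      exact (Finset.prod_sdiff hNM).symm
    rw [h4]
    exact key

end Pool.Agent.MP_ca1109_lc.Xd
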