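import Pool.Agent.MP_ca1109_lc.Xd.CZ
import Pool.Agent.MP_ca1109_lc.Xp.GN
import Pool.Agent.MP_ca1109_lc.Xp.MA
import Pool.Agent.MP_ca1109_lc.Xv.LF

/-!
# Row VL: the part of low degree is free at the leaves

Viola's step for the conditional strings: at a leaf `x = a` on `L` the sum `D + E` of two independent
strings is, for every `t`, the sum of `D` conditioned on `D = t` and of `E` conditioned on
`E = a + t` on `L`.
-/

namespace Pool.Agent.MP_ca1109_lc.Xd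

open Finset Pool.Agent.H66 Pool.Agent.MP_ca1109_lc.Mpg Pool.Agent.MP_ca1109_lc.Agp
open Pool.Agent.MP_ca1109_lc.Dnf (Cube ch one Term)
open Pool.Agent.MP_ca1109_lc.Xp (Sp Bias)
open Pool.Agent.MP_ca1109_lc.Xl (Tr)
open Pool.Agent.MP_ca1109_lc.Xv (Chain Hn bb aa xr bb_aa aa_bb bb_add aa_xr bbE av_bb na_eq_av Kls
  kls_norm kls_step)

variable {n : ℕ}

/-! ## Small bias -/

/-- Every nontrivial character of the group is a Walsh function up to a sign. -/
theorem vl_char (χ : AddChar (Hn n) ℂ) (hχ : χ ≠ 1) : ∃ S : Finset (Fin n), S ≠ ∅ ∧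
    ∀ x : Cube n, χ (aa x) = (-1) ^ S.card * ((ch S x : ℝ) : ℂ) := by
  classical
  have hsq : ∀ i, χ (Pi.single i 1) = 1 ∨ χ (Pi.single i 1) = -1 := by
    intro i
    have h1 : χ (Pi.single i 1) * χ (Pi.single i 1) = 1 := by
      rw [← AddChar.map_add_eq_mul, ← Pi.single_add]
      have : (1 + 1 : ZMod 2) = 0 := by decide
      rw [this, Pi.single_zero, AddChar.map_zero_eq_one]
    exact mul_self_eq_one_iff.1 h1
  have hprod : ∀ x : Cube n, χ (aa x) = ∏ i, if x i = true then χ (Pi.single i 1) else 1 := by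
    intro x
    rw [d4_char_prod]
    refine Finset.prod_congr rfl fun i _ => ?_
    unfold Xv.aa
    split_ifs
    · rfl
    · rw [Pi.single_zero, AddChar.map_zero_eq_one]
  refine ⟨univ.filter fun i => χ (Pi.single i 1) ≠ 1, fun h0 => hχ ?_, fun x => ?_⟩
  · rw [Finset.filter_eq_empty_iff] at h0
    ext z
    rw [← aa_bb z, hprod, AddChar.one_apply]
    refine Finset.prod_eq_one fun i _ => ?_
    have h1 := not_not.1 (h0 (Finset.mem_univ i))
    rw [h1, ite_self]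
  · rw [hprod]
    unfold Dnf.ch
    push_cast
    rw [← Finset.prod_const, ← Finset.prod_mul_distrib, Finset.prod_filter]
    refine Finset.prod_congr rfl fun i _ => ?_
    rcases hsq i with h | h
    · rw [h, ite_self, if_neg (fun h' => h' rfl)]
    · have hne : (-1 : ℂ) ≠ 1 := by norm_num
      rw [h, if_pos hne]
      unfold Dnf.sg
      cases x i <;> simp

theorem vl_biased {Ω : Type*} [Fintype Ω] {δ : ℝ} {Y : Ω → Cube n} (h : Bias δ Y) :
    Biased (fun ω => aa (Y ω)) δ := by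
  intro χ hχ
  obtain ⟨S, hS, h1⟩ := vl_char χ hχ
  simp only [h1]
  rw [Xp.spb_av_mul, norm_mul, norm_pow, norm_neg, norm_one, one_pow, one_mul,
    Xp.spb_avg_ofReal, Complex.norm_real, Real.norm_eq_abs]
  exact h S hS

/-! ## The identity -/

theorem vl_sb (L : Finset (Fin n)) (w w' x y : Cube n) :
    xr (sb L w x) (sb L w' y) = sb L (xr w w') (xr x y) := by
  funext i
  unfold Xv.xr sb
  split_ifs <;> rfl

theorem vl_shift (F : Cube n → ℂ) (s : Cube n) : av (fun w => F (xr w s)) = av F := by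
  have hinv : Function.Involutive (fun w : Cube n => xr w s) := by
    intro w
    funext i
    show xor (xor (w i) (s i)) (s i) = w i
    cases w i <;> cases s i <;> rfl
  exact e2_av_equiv hinv.toPerm F

theorem vl_fresh (L : Finset (Fin n)) (F : Cube n → ℂ) (x y : Cube n) :
    av (fun w' => av fun w => F (xr (sb L w x) (sb L w' y))) = av fun w => F (sb L w (xr x y)) := by
  have h : ∀ w', av (fun w => F (xr (sb L w x) (sb L w' y))) = av fun w => F (sb L w (xr x y)) := by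
    intro w'
    simp only [vl_sb]
    exact vl_shift (fun w => F (sb L w (xr x y))) w'
  simp only [h]
  exact cz_av_const _

theorem vl_tr {L : Finset (Fin n)} {a t x y : Cube n} (h : Tr L t x) :
    Tr L (xr a t) y ↔ Tr L a (xr x y) := by
  refine forall₂_congr fun i hi => ?_
  have h1 := h i hi
  show y i = xor (a i) (t i) ↔ xor (x i) (y i) = a i
  rw [h1]
  cases y i <;> cases a i <;> cases t i <;> decide

/-- The probability of a leaf. -/
theorem vl_avt (L : Finset (Fin n)) (x : Cube n) :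
    av (fun t : Cube n => ((one (Tr L t x) : ℝ) : ℂ)) = (1 / 2) ^ L.card := by
  have h : (fun t : Cube n => ((one (Tr L t x) : ℝ) : ℂ)) =
      fun t => (((⟨L, x⟩ : Term n).f t : ℝ) : ℂ) := by
    funext t
    congr 1
    show one (Tr L t x) = one (Tr L x t)
    congr 1
    exact propext (forall₂_congr fun i _ => ⟨Eq.symm, Eq.symm⟩)
  rw [h, Xp.spb_avg_ofReal, Xp.spb_avg_E, Dnf.E_term]
  push_cast
  rfl

theorem vl_point (L : Finset (Fin n)) (a : Cube n) (f : Cube n → ℂ) (x y : Cube n) :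
    lf L a f (xr x y) = av fun t : Cube n => (2 : ℂ) ^ L.card *
      lf L (xr a t) (fun y' => lf L t (fun x' => f (xr x' y')) x) y := by
  have h1 : ∀ t : Cube n, (2 : ℂ) ^ L.card *
      lf L (xr a t) (fun y' => lf L t (fun x' => f (xr x' y')) x) y =
      ((2 : ℂ) ^ L.card * lf L a f (xr x y)) * ((one (Tr L t x) : ℝ) : ℂ) := by
    intro t
    have h2 : lf L (xr a t) (fun y' => lf L t (fun x' => f (xr x' y')) x) y =
        ((one (Tr L (xr a t) y) : ℝ) : ℂ) * (((one (Tr L t x) : ℝ) : ℂ) *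
          av fun w => f (sb L w (xr x y))) := by
      rw [← vl_fresh, ← Xp.spb_av_mul]
      rfl
    rw [h2]
    by_cases ht : Tr L t x
    · have h3 : one (Tr L (xr a t) y) = one (Tr L a (xr x y)) := by
        congr 1
        exact propext (vl_tr ht)
      rw [h3, Dnf.one_true ht, Complex.ofReal_one, one_mul, mul_one]
      rfl
    · rw [Dnf.one_false ht, Complex.ofReal_zero, zero_mul, mul_zero, mul_zero, mul_zero]
  simp only [h1]
  rw [Xp.spb_av_mul, vl_avt, mul_comm ((2 : ℂ) ^ L.card), mul_assoc, ← mul_pow]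
  norm_num

theorem vl_id {Ω₁ Ω₂ : Type} [Fintype Ω₁] [Fintype Ω₂] (D : Ω₁ → Cube n) (E : Ω₂ → Cube n)
    (L : Finset (Fin n)) (a : Cube n) (f : Cube n → ℂ) :
    av (fun ω₁ => av fun ω₂ => lf L a f (xr (D ω₁) (E ω₂))) =
      av fun t : Cube n => (2 : ℂ) ^ L.card * av fun ω₂ =>
        lf L (xr a t) (fun y => av fun ω₁ => lf L t (fun x => f (xr x y)) (D ω₁)) (E ω₂) := by
  have h1 : ∀ (t y : Cube n),
      lf L (xr a t) (fun y => av fun ω₁ => lf L t (fun x => f (xr x y)) (D ω₁)) y =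
      av fun ω₁ => lf L (xr a t) (fun y => lf L t (fun x => f (xr x y)) (D ω₁)) y := by
    intro t y
    show ((one (Tr L (xr a t) y) : ℝ) : ℂ) *
        av (fun w => av fun ω₁ => lf L t (fun x => f (xr x (sb L w y))) (D ω₁)) =
      av fun ω₁ => ((one (Tr L (xr a t) y) : ℝ) : ℂ) *
        av fun w => lf L t (fun x => f (xr x (sb L w y))) (D ω₁)
    rw [av_comm, Xp.spb_av_mul]
  have h2 : ∀ t : Cube n, ((2 : ℂ) ^ L.card * av fun ω₂ =>
        lf L (xr a t) (fun y => av fun ω₁ => lf L t (fun x => f (xr x y)) (D ω₁)) (E ω₂)) =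
      av fun ω₁ => av fun ω₂ => (2 : ℂ) ^ L.card *
        lf L (xr a t) (fun y => lf L t (fun x => f (xr x y)) (D ω₁)) (E ω₂) := by
    intro t
    simp only [h1]
    rw [av_comm, ← Xp.spb_av_mul]
    congr 1
    funext ω₁
    rw [← Xp.spb_av_mul]
  have h3 : ∀ (ω₁ : Ω₁), (av fun ω₂ => lf L a f (xr (D ω₁) (E ω₂))) =
      av fun t : Cube n => av fun ω₂ => (2 : ℂ) ^ L.card *
        lf L (xr a t) (fun y => lf L t (fun x => f (xr x y)) (D ω₁)) (E ω₂) := by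
    intro ω₁
    rw [av_comm]
    congr 1
    funext ω₂
    exact vl_point L a f _ _
  simp only [h2, h3]
  exact av_comm _

/-! ## Numbers -/

theorem vl_ratio {P u e : ℝ} {v m : ℂ} (hu : 0 < u) (he : e ≤ 1 / 2) (hm : ‖m‖ ≤ 1)
    (h1 : |P - u| ≤ e * u) (h2 : ‖(P : ℂ) * v - (u : ℂ) * m‖ ≤ e * u) : ‖v - m‖ ≤ 4 * e := by
  have hP : u / 2 ≤ P := by
    have h3 := (abs_le.1 h1).1
    nlinarith
  have h3 : ‖(P : ℂ) * (v - m)‖ ≤ 2 * (e * u) := by
    have h4 : (P : ℂ) * (v - m) = ((P : ℂ) * v - (u : ℂ) * m) - ((P - u : ℝ) : ℂ) * m := by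
      push_cast
      ring
    rw [h4]
    refine (norm_sub_le _ _).trans ?_
    rw [norm_mul, Complex.norm_real, Real.norm_eq_abs]
    have h5 := mul_le_mul h1 hm (norm_nonneg _) ((abs_nonneg _).trans h1)
    linarith
  rw [norm_mul, Complex.norm_real, Real.norm_eq_abs, abs_of_pos (by linarith)] at h3
  have h5 : u / 2 * ‖v - m‖ ≤ 2 * (e * u) :=
    (mul_le_mul_of_nonneg_right hP (norm_nonneg _)).trans h3
  have h6 : u * ‖v - m‖ ≤ u * (4 * e) := by linarith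
  exact le_of_mul_le_mul_left h6 hu

theorem vl_comb {P1 P2 u e1 e2 η : ℝ} {v m : ℂ} (hu : 0 < u) (he1 : 0 ≤ e1) (hv : ‖v‖ ≤ 1)
    (h1 : |P1 - u| ≤ e1 * u) (h2 : |P2 - u| ≤ e2 * u) (h3 : ‖v - m‖ ≤ η) :
    ‖((u⁻¹ : ℝ) : ℂ) * ((P2 : ℂ) * ((P1 : ℂ) * v)) - (u : ℂ) * m‖ ≤
      (e1 + e2 + e1 * e2 + η) * u := by
  have hu' : u * u⁻¹ = 1 := mul_inv_cancel₀ hu.ne'
  have h4 : ((u⁻¹ : ℝ) : ℂ) * ((P2 : ℂ) * ((P1 : ℂ) * v)) - (u : ℂ) * m =
      ((u⁻¹ * (P1 * P2 - u * u) : ℝ) : ℂ) * v + (u : ℂ) * (v - m) := by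
    have h5 : ((u * u⁻¹ : ℝ) : ℂ) = 1 := by rw [hu', Complex.ofReal_one]
    push_cast at h5 ⊢
    linear_combination (u : ℂ) * v * h5
  have h5 : |u⁻¹ * (P1 * P2 - u * u)| ≤ (e1 + e2 + e1 * e2) * u := by
    have h6 : P1 * P2 - u * u = (P1 - u) * (P2 - u) + u * (P1 - u) + u * (P2 - u) := by ring
    have h7 : |P1 * P2 - u * u| ≤ (e1 * u) * (e2 * u) + u * (e1 * u) + u * (e2 * u) := by
      rw [h6]
      refine (abs_add_le _ _).trans (add_le_add ((abs_add_le _ _).trans (add_le_add ?_ ?_)) ?_)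
      · rw [abs_mul]
        exact mul_le_mul h1 h2 (abs_nonneg _) (by positivity)
      · rw [abs_mul, abs_of_pos hu]
        exact mul_le_mul_of_nonneg_left h1 hu.le
      · rw [abs_mul, abs_of_pos hu]
        exact mul_le_mul_of_nonneg_left h2 hu.le
    rw [abs_mul, abs_of_pos (inv_pos.2 hu)]
    calc u⁻¹ * |P1 * P2 - u * u| ≤ u⁻¹ * ((e1 * u) * (e2 * u) + u * (e1 * u) + u * (e2 * u)) :=
          mul_le_mul_of_nonneg_left h7 (inv_pos.2 hu).le
      _ = (u * u⁻¹) * ((e1 + e2 + e1 * e2) * u) := by ring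
      _ = (e1 + e2 + e1 * e2) * u := by rw [hu', one_mul]
  rw [h4]
  refine (norm_add_le _ _).trans ?_
  rw [norm_mul, norm_mul, Complex.norm_real, Complex.norm_real, Real.norm_eq_abs, Real.norm_eq_abs,
    abs_of_pos hu]
  have h8 := mul_le_mul h5 hv (norm_nonneg _) ((abs_nonneg _).trans h5)
  have h9 := mul_le_mul_of_nonneg_left h3 hu.le
  linarith

/-! ## One step -/

theorem vl_av_aa (f : Hn n → ℂ) : av (fun x : Cube n => f (aa x)) = av f := by
  rw [← av_bb (fun x : Cube n => f (aa x))]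
  simp only [aa_bb]

theorem vl_core {Ω₁ Ω₂ : Type} [Fintype Ω₁] [Nonempty Ω₁] [Fintype Ω₂] [Nonempty Ω₂]
    {D : Ω₁ → Cube n} {E : Ω₂ → Cube n} {L : Finset (Fin n)} {k : ℕ}
    (hk : L.card ≤ k * Nat.clog 2 n) {e δ : ℝ} (he : 0 < e) (he1 : e ≤ 1) (hδ : 0 ≤ δ)
    (hLδ : δ * 2 ^ L.card ≤ e / 8) {𝒯 : Set (Cube n → ℂ)} (h1 : (fun _ => 1) ∈ 𝒯) {f : Hn n → ℂ}
    (hf : ∀ z, ‖f z‖ ≤ 1) (hder : ∀ s t, (fun x => mder s t f (aa x)) ∈ 𝒯)
    (hD : Lf 𝒯 k ((e / 24) ^ 2) D) (hE : Bias δ E) (a : Cube n) :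
    ‖av (fun ω₁ => av fun ω₂ => lf L a (fun x => f (aa x)) (xr (D ω₁) (E ω₂))) -
      (1 / 2) ^ L.card * av (fun x => f (aa x))‖ ≤ e * (1 / 2) ^ L.card := by
  have hu : (0 : ℝ) < (1 / 2) ^ L.card := by positivity
  have hinv : (((1 / 2 : ℝ) ^ L.card)⁻¹ : ℝ) = 2 ^ L.card := by
    rw [← inv_pow, one_div, inv_inv]
  have he2 : (e / 24) ^ 2 ≤ e / 24 := by
    rw [sq]
    have : e / 24 ≤ 1 := by linarith
    have h0 : 0 ≤ e / 24 := by positivity
    nlinarith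
  obtain ⟨hP2, Ω₂', _, _, E', hE'b, -, hE'⟩ := cz hδ hE L (by linarith)
  have hP2' : ∀ t, |(avg fun ω => one (Tr L t (E ω))) - (1 / 2) ^ L.card| ≤
      e / 8 * (1 / 2) ^ L.card := by
    intro t
    refine (hP2 t).trans ?_
    have h2 : δ = (δ * 2 ^ L.card) * (1 / 2) ^ L.card := by
      rw [mul_assoc, ← mul_pow]
      norm_num
    rw [h2]
    exact mul_le_mul_of_nonneg_right hLδ hu.le
  have hb : ∀ t, Biased (fun ω => aa (E' t ω)) (e / 4) := by
    intro t χ hχ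
    refine (vl_biased (hE'b t) χ hχ).trans ?_
    rw [pow_succ]
    linarith
  -- the conditional first string
  have hP1 : ∀ t, |(avg fun ω => one (Tr L t (D ω))) - (1 / 2) ^ L.card| ≤
      (e / 24) ^ 2 * (1 / 2) ^ L.card := by
    intro t
    have h2 := hD L t hk _ h1
    have h3 : (fun ω => lf L t (fun _ => 1) (D ω)) = fun ω => ((one (Tr L t (D ω)) : ℝ) : ℂ) := by
      funext ω
      show ((one (Tr L t (D ω)) : ℝ) : ℂ) * av (fun _ : Cube n => (1 : ℂ)) = _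
      rw [cz_av_const, mul_one]
    rw [h3, cz_av_const, mul_one, Xp.spb_avg_ofReal] at h2
    have h4 : (((avg fun ω => one (Tr L t (D ω))) : ℝ) : ℂ) - (1 / 2) ^ L.card =
        (((avg fun ω => one (Tr L t (D ω))) - (1 / 2) ^ L.card : ℝ) : ℂ) := by
      push_cast
      rfl
    rw [h4, Complex.norm_real, Real.norm_eq_abs] at h2
    exact h2
  have hpos : ∀ t, 0 < avg fun ω => one (Tr L t (D ω)) := by
    intro t
    have h2 := (abs_le.1 (hP1 t)).1
    have h3 : (e / 24) ^ 2 * (1 / 2 : ℝ) ^ L.card ≤ 1 / 2 * (1 / 2) ^ L.card :=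
      mul_le_mul_of_nonneg_right (by linarith) hu.le
    linarith
  rw [vl_id]
  have key : ∀ t : Cube n, ‖((2 : ℂ) ^ L.card * av fun ω₂ => lf L (xr a t)
        (fun y => av fun ω₁ => lf L t (fun x => f (aa (xr x y))) (D ω₁)) (E ω₂)) -
      (1 / 2) ^ L.card * av (fun x => f (aa x))‖ ≤ e * (1 / 2) ^ L.card := by
    intro t
    obtain ⟨Ω₁', _, _, D', hD'⟩ := cond D L t (hpos t)
    have h2 : (av fun ω₂ => lf L (xr a t)
        (fun y => av fun ω₁ => lf L t (fun x => f (aa (xr x y))) (D ω₁)) (E ω₂)) =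
        (((avg fun ω => one (Tr L (xr a t) (E ω))) : ℝ) : ℂ) *
          ((((avg fun ω => one (Tr L t (D ω))) : ℝ) : ℂ) *
            av fun p : Ω₁' × Ω₂' => f (aa (D' p.1) + aa (E' (xr a t) p.2))) := by
      rw [hE' (xr a t)]
      congr 1
      simp only [hD']
      rw [Xp.spb_av_mul]
      congr 1
      rw [av_comm, cz_av_prod fun (p : Ω₁') (q : Ω₂') => f (aa (D' p) + aa (E' (xr a t) q))]
      simp only [aa_xr]
    have h3 : FoolsF (fun p : Ω₁' × Ω₂' => aa (D' p.1) + aa (E' (xr a t) p.2)) f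
        (3 * √(4 * (e / 24) ^ 2) + e / 4) := by
      refine viola (D := fun p => aa (D' p)) (E := fun p => aa (E' (xr a t) p)) (by positivity)
        (by positivity) (hb _) hf fun s s' => ?_
      have h4 := hD L t hk _ (hder s s')
      rw [hD', vl_av_aa (mder s s' f)] at h4
      have h5 : ‖av (mder s s' f)‖ ≤ 1 := Xp.ma_norm_av fun z => by
        show ‖f (z + s) * (starRingEnd ℂ) (f (z + s'))‖ ≤ 1
        rw [norm_mul, RCLike.norm_conj]
        exact mul_le_one₀ (hf _) (norm_nonneg _) (hf _)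
      have h6 : ((((1 / 2 : ℝ) ^ L.card : ℝ)) : ℂ) = (1 / 2) ^ L.card := by
        push_cast
        rfl
      rw [← h6] at h4
      exact vl_ratio hu (by linarith) h5 (hP1 t) h4
    have h4 : √(4 * (e / 24) ^ 2) = e / 12 := by
      have h5 : (4 : ℝ) * (e / 24) ^ 2 = (e / 12) ^ 2 := by ring
      rw [h5, Real.sqrt_sq (by positivity)]
    rw [h4] at h3
    have h5 : ‖av (fun p : Ω₁' × Ω₂' => f (aa (D' p.1) + aa (E' (xr a t) p.2)))‖ ≤ 1 :=
      Xp.ma_norm_av fun p => hf _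
    have h6 := vl_comb (m := av f) hu (by positivity) h5 (hP1 t) (hP2' (xr a t)) h3
    rw [h2, vl_av_aa f]
    rw [hinv] at h6
    have h7 : ((2 ^ L.card : ℝ) : ℂ) = (2 : ℂ) ^ L.card := by
      push_cast
      rfl
    have h8 : ((((1 / 2 : ℝ) ^ L.card : ℝ)) : ℂ) = (1 / 2) ^ L.card := by
      push_cast
      rfl
    rw [h7, h8] at h6
    refine h6.trans (mul_le_mul_of_nonneg_right ?_ hu.le)
    have h9 : (e / 24) ^ 2 * (e / 8) ≤ e / 24 * 1 :=
      mul_le_mul he2 (by linarith) (by positivity) (by positivity)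
    linarith
  have hfin : av (fun t : Cube n => ((2 : ℂ) ^ L.card * av fun ω₂ => lf L (xr a t)
        (fun y => av fun ω₁ => lf L t (fun x => f (aa (xr x y))) (D ω₁)) (E ω₂)) -
      (1 / 2) ^ L.card * av (fun x => f (aa x))) =
      (av fun t : Cube n => (2 : ℂ) ^ L.card * av fun ω₂ => lf L (xr a t)
        (fun y => av fun ω₁ => lf L t (fun x => f (aa (xr x y))) (D ω₁)) (E ω₂)) -
      (1 / 2) ^ L.card * av (fun x => f (aa x)) := by
    rw [Xp.ma_av_sub, cz_av_const]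
  rw [← hfin]
  exact Xp.ma_norm_av key

/-! ## The induction -/

theorem vl_bound (k n : ℕ) {L : Finset (Fin n)} (hk : L.card ≤ k * Nat.clog 2 n) :
    1 / ((n : ℝ) + 1) ^ (k + 1) * 2 ^ L.card ≤ 2 ^ k / ((n : ℝ) + 1) := by
  have hn : (0 : ℝ) < (n : ℝ) + 1 := by positivity
  have h1 : (2 : ℝ) ^ L.card ≤ (2 * ((n : ℝ) + 1)) ^ k := by
    calc (2 : ℝ) ^ L.card ≤ 2 ^ (k * Nat.clog 2 n) := pow_le_pow_right₀ (by norm_num) hk
      _ = (2 ^ Nat.clog 2 n) ^ k := by rw [mul_comm, pow_mul]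
      _ ≤ (2 * ((n : ℝ) + 1)) ^ k := pow_le_pow_left₀ (by positivity) (Xp.ma_clog n) k
  calc 1 / ((n : ℝ) + 1) ^ (k + 1) * 2 ^ L.card ≤
        1 / ((n : ℝ) + 1) ^ (k + 1) * (2 * ((n : ℝ) + 1)) ^ k :=
        mul_le_mul_of_nonneg_left h1 (by positivity)
    _ = 2 ^ k / ((n : ℝ) + 1) := by
        rw [mul_pow, pow_succ]
        field_simp

theorem LFooled.mono {𝒯 𝒯' : ∀ n : ℕ, Set ((Fin n → Bool) → ℂ)} {k : ℕ} {ε : ℝ}
    (h : LFooled 𝒯 k ε) (hs : ∀ n, 𝒯' n ⊆ 𝒯 n) : LFooled 𝒯' k ε := by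
  obtain ⟨E, G, hNG, n₀, H⟩ := h
  exact ⟨E, G, hNG, n₀, fun n hn L a hL f hf => H n hn L a hL f (hs n hf)⟩

theorem LFooled.weaken {𝒯 : ∀ n : ℕ, Set ((Fin n → Bool) → ℂ)} {k : ℕ} {ε ε' : ℝ}
    (h : LFooled 𝒯 k ε) (hs : ε ≤ ε') : LFooled 𝒯 k ε' := by
  obtain ⟨E, G, hNG, n₀, H⟩ := h
  exact ⟨E, G, hNG, n₀, fun n hn L a hL f hf => (H n hn L a hL f hf).trans
    (mul_le_mul_of_nonneg_right hs (by positivity))⟩

/-- The classes of the induction, on bits. -/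
def KL (a : ℕ) [NeZero (2 ^ a)] (𝒢 : ℕ → ∀ n : ℕ, Set ((Fin n → Bool) → ℂ)) (j i n : ℕ) :
    Set (Cube n → ℂ) :=
  {F | ∃ f ∈ Kls a 𝒢 j i n, F = fun x => f (aa x)}

theorem kl_one {a : ℕ} [NeZero (2 ^ a)] {𝒢 : ℕ → ∀ n : ℕ, Set ((Fin n → Bool) → ℂ)}
    (h1 : ∀ i n, (fun _ => 1) ∈ 𝒢 i n) (j i n : ℕ) : (fun _ => 1) ∈ KL a 𝒢 j i n := by
  have h0 : ∀ l : List (Hn n × Hn n), iader l (0 : Hn n → ZMod (2 ^ a)) = 0 := by
    intro l
    induction l with
    | nil => rfl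
    | cons p l ih =>
      obtain ⟨s, t⟩ := p
      have h2 : ader s t (0 : Hn n → ZMod (2 ^ a)) = 0 := by
        funext y
        show (0 : ZMod (2 ^ a)) - 0 = 0
        rw [sub_zero]
      show iader l (ader s t (0 : Hn n → ZMod (2 ^ a))) = 0
      rw [h2, ih]
  refine ⟨fun _ => 1, ⟨0, fun l _ => h0 l, fun _ => 1, h1 i n, ?_⟩, rfl⟩
  funext z
  show (1 : ℂ) = ph (2 ^ a) 0 * 1
  rw [ph_zero, one_mul]

theorem vl_main {a : ℕ} [NeZero (2 ^ a)] {𝒢 : ℕ → ∀ n : ℕ, Set ((Fin n → Bool) → ℂ)}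
    (hG : Chain 𝒢) (h1 : ∀ i n, (fun _ => 1) ∈ 𝒢 i n) {k : ℕ}
    (h : ∀ i (ε : ℝ), 0 < ε → LFooled (𝒢 i) k ε) (j : ℕ) :
    ∀ (i : ℕ) (ε : ℝ), 0 < ε → LFooled (KL a 𝒢 j i) k ε := by
  induction j with
  | zero =>
    intro i ε hε
    refine (h i ε hε).mono fun n => ?_
    rintro F ⟨f, ⟨A, hA, g, hg, rfl⟩, rfl⟩
    have h2 : A = 0 := hA [] rfl
    subst h2
    have h3 : (fun x : Cube n => ph (2 ^ a) ((0 : Hn n → ZMod (2 ^ a)) (aa x)) * g (bb (aa x))) =
        g := by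
      funext x
      rw [Pi.zero_apply, ph_zero, one_mul, bb_aa]
    show (fun x : Cube n => ph (2 ^ a) ((0 : Hn n → ZMod (2 ^ a)) (aa x)) * g (bb (aa x))) ∈ 𝒢 i n
    rw [h3]
    exact hg
  | succ j ih =>
    intro i ε₀ hε₀
    obtain ⟨e, he⟩ : ∃ e : ℝ, e = min ε₀ 1 := ⟨_, rfl⟩
    have he0 : 0 < e := by
      rw [he]
      exact lt_min hε₀ one_pos
    have he1 : e ≤ 1 := by
      rw [he]
      exact min_le_right _ _
    refine LFooled.weaken (ε := e) ?_ (by rw [he]; exact min_le_left _ _)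
    obtain ⟨E₁, G₁, hG₁, n₁, H₁⟩ := ih (i + 1) ((e / 24) ^ 2) (by positivity)
    obtain ⟨E₂, G₂, hG₂, H₂⟩ := Hyb.small_bias_poly (k + 1) one_pos
    refine ⟨_, _, hG₁.xor hG₂, max n₁ ⌈2 ^ k / (e / 8)⌉₊, fun n hn L c hL F hF => ?_⟩
    obtain ⟨f, hf, rfl⟩ := hF
    have hN1 : Nonempty (Fin (2 ^ E₁ n)) := ⟨⟨0, by positivity⟩⟩
    have hN2 : Nonempty (Fin (2 ^ E₂ n)) := ⟨⟨0, by positivity⟩⟩
    have hδ : 1 / ((n : ℝ) + 1) ^ (k + 1) * 2 ^ L.card ≤ e / 8 := by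
      refine (vl_bound k n hL).trans ?_
      have h3 : 2 ^ k / (e / 8) ≤ (n : ℝ) :=
        (Nat.le_ceil _).trans (by exact_mod_cast le_trans (le_max_right _ _) hn)
      have h4 : 2 ^ k / (e / 8) ≤ (n : ℝ) + 1 := by linarith
      rw [div_le_iff₀ (by positivity)]
      rw [div_le_iff₀ (by positivity)] at h4
      linarith
    have h3 := vl_core (D := fun p : Fin (2 ^ E₁ n) => out G₁ n p)
      (E := fun p : Fin (2 ^ E₂ n) => out G₂ n p) hL he0 he1 (by positivity) hδ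
      (kl_one (a := a) h1 j (i + 1) n) (kls_norm hG hf)
      (fun s t => ⟨_, kls_step hG hf s t, rfl⟩) (H₁ n (le_trans (le_max_left _ _) hn))
      (Xp.gn_bias (H₂ n)) c
    refine le_trans (le_of_eq ?_) h3
    congr 2
    have hB : 0 < 2 ^ E₂ n := by positivity
    have h6 : na (2 ^ (E₁ n + E₂ n))
        (fun p => lf L c (fun x => f (aa x)) (out (xorG E₂ G₁ G₂) n p)) =
        na (2 ^ E₁ n) (fun p => na (2 ^ E₂ n) fun p' =>
          lf L c (fun x => f (aa x)) (xr (out G₁ n p) (out G₂ n p'))) := by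
      rw [pow_add, ← na_mul (2 ^ E₁ n) hB fun p p' =>
        lf L c (fun x => f (aa x)) (xr (out G₁ n p) (out G₂ n p'))]
      rfl
    refine (na_eq_av _ _).symm.trans (h6.trans ?_)
    rw [na_eq_av]
    congr 1
    funext s
    exact na_eq_av _ _

/-- The part of low degree is free at the leaves. -/
theorem low_freeL {𝒢 : ℕ → ∀ n : ℕ, Set ((Fin n → Bool) → ℂ)} (hG : Chain 𝒢)
    (h1 : ∀ i n, (fun _ => 1) ∈ 𝒢 i n) {k : ℕ}
    (h : ∀ i (ε : ℝ), 0 < ε → LFooled (𝒢 i) k ε) (i a d : ℕ) [NeZero (2 ^ a)]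
    {ε : ℝ} (hε : 0 < ε) :
    LFooled (fun n => {f | ∃ A ∈ lowDeg (Fin n) Bool (ZMod (2 ^ a)) d, ∃ g ∈ 𝒢 i n,
      f = fun x => ph (2 ^ a) (A x) * g x}) k ε := by
  refine (vl_main (a := a) hG h1 h (Fintype.card (ZMod 2) ^ d * (2 * a)) i ε hε).mono fun n => ?_
  rintro f ⟨A, hA, g, hg, rfl⟩
  refine ⟨fun z => ph (2 ^ a) (A (bb z)) * g (bb z), ⟨fun z => A (bb z), fun l hl => ?_, g, hg, rfl⟩,
    ?_⟩
  · refine iader_lowDeg Nat.prime_two (by decide) ?_ l hl.ge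
    exact lowDeg_comp (fun _ z => decide (z = 1)) hA
  · funext x
    show ph (2 ^ a) (A x) * g x = ph (2 ^ a) (A (bb (aa x))) * g (bb (aa x))
    rw [bb_aa]

end Pool.Agent.MP_ca1109_lc.Xd
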