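import Pool.Agent.MP_ca1109_lc.Xd.Defs

/-!
# Products of unimodular weights at the leaves: definitions

* `Big r C n`: products of unimodular weights of monomials, of energy at least `C ⌈log₂ n⌉`.
* `Mix r Q C n`: products of weights of order `Q` and of unimodular weights of bounded mass.
-/

namespace Pool.Agent.MP_ca1109_lc.Xd

open Finset Pool.Agent.MP_ca1109_lc.Mpg Pool.Agent.MP_ca1109_lc.Agp
open Pool.Agent.MP_ca1109_lc.Dnf (Cube)
open Pool.Agent.MP_ca1109_lc.Xp (xo)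

/-- Products of unimodular weights of the monomials in the literals `x i ≠ s i`; the energy, where the
monomial `m` counts `|m|` times, is at least `C (⌈log₂ n⌉ + 1)`. -/
def Big (r : ℕ) (C : ℝ) (n : ℕ) : Set (Cube n → ℂ) :=
  {f | ∃ (M : Finset (Finset (Fin n))) (ζ : Finset (Fin n) → ℂ) (s : Cube n), Xp.Rd r M ∧
    (∀ m ∈ M, m ≠ ∅) ∧ (∀ m ∈ M, ‖ζ m‖ = 1) ∧
    C * ((Nat.clog 2 n : ℝ) + 1) ≤
      ∑ m ∈ M, (m.card : ℝ) * (1 / 2 : ℝ) ^ m.card * ‖1 - ζ m‖ ^ 2 ∧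
    f = fun x => Xp.pr ζ M (xo x s)}

/-- Products of unimodular weights of the monomials in the literals `x i ≠ s i`; the weights outside
`N` are of order `Q`, and the mass of `N`, where the monomial `m` counts `|m|` times, is at most
`C (⌈log₂ n⌉ + 1)`. -/
def Mix (r Q : ℕ) (C : ℝ) (n : ℕ) : Set (Cube n → ℂ) :=
  {f | ∃ (M N : Finset (Finset (Fin n))) (ζ : Finset (Fin n) → ℂ) (s : Cube n), Xp.Rd r M ∧
    (∀ m ∈ M, m ≠ ∅) ∧ N ⊆ M ∧ (∀ m ∈ M, ‖ζ m‖ = 1) ∧ (∀ m ∈ M, m ∉ N → ζ m ^ Q = 1) ∧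
    ∑ m ∈ N, (m.card : ℝ) * (1 / 2 : ℝ) ^ m.card ≤ C * ((Nat.clog 2 n : ℝ) + 1) ∧
    f = fun x => Xp.pr ζ M (xo x s)}

end Pool.Agent.MP_ca1109_lc.Xd
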